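import Pool.Agent.BFS.NC

/-!
# BFS/AA: locally finite normal subgroups are contained in a bounded term of the upper central series

Let `S` be the join of all normal locally finite subgroups of `X`: normal, locally finite (as `FRB.rad_lf`, without invariance: products of two
normal locally finite subgroups are locally finite, a directed union of such), invariant (`a` permutes these subgroups).  `hc_nil` with
`N = ⊤`, and `FRK.mem_ucs_iff`.
-/

set_option autoImplicit false

namespace Pool.Agent.BFS

open Pool.Agent.FRB (Inv LF SS)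
open Pool.Agent.FRS (Hyp rs qt)
open Pool.Agent.FRK (hh ic Hc)

universe u

variable {p r : ℕ} {X : Type u} [Group X] {a : MulAut X}

private theorem aa_inj {G H : Type*} [Group G] [Group H] (f : G →* H) (s : Set G)
    (h : ((Subgroup.closure s : Subgroup G) : Set G).Finite) :
    ((Subgroup.closure (f '' s) : Subgroup H) : Set H).Finite := by
  rw [← MonoidHom.map_closure, Subgroup.coe_map]
  exact h.image f

private theorem aa_map (f : X →* X) {L : Subgroup X} (hL : LF L) : LF (L.map f) := by
  classical
  intro s hs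
  have h1 : ∀ y ∈ (s : Set X), ∃ x ∈ L, f x = y := fun y hy => hs hy
  choose! g hg1 hg2 using h1
  have h2 : ((s.image g : Finset X) : Set X) ⊆ L := by
    intro x hx
    rw [Finset.coe_image] at hx
    obtain ⟨y, hy, rfl⟩ := hx
    exact hg1 y hy
  have h3 : (s : Set X) = f '' ((s.image g : Finset X) : Set X) := by
    ext y
    constructor
    · intro hy
      refine ⟨g y, ?_, hg2 y hy⟩
      rw [Finset.coe_image]
      exact ⟨y, hy, rfl⟩
    · rintro ⟨x, hx, rfl⟩
      rw [Finset.coe_image] at hx
      obtain ⟨y, hy, rfl⟩ := hx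
      rw [hg2 y hy]
      exact hy
  rw [h3]
  exact aa_inj f _ (hL _ h2)

/-- the join of the normal locally finite subgroups -/
private def aaR (X : Type u) [Group X] : Subgroup X := sSup {L : Subgroup X | L.Normal ∧ LF L}

private theorem aaR_normal (g : X) : ∀ n ∈ aaR X, g * n * g⁻¹ ∈ aaR X := by
  intro n hn
  have h : aaR X ≤ Subgroup.comap (MulAut.conj g).toMonoidHom (aaR X) := by
    refine sSup_le fun L hL x hx => ?_
    have h1 : g * x * g⁻¹ ∈ L := hL.1.conj_mem x hx g
    exact (le_sSup (a := L) hL : L ≤ aaR X) h1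
  exact h hn

private theorem aaR_inv (a : MulAut X) : Inv a (aaR X) := by
  intro n hn
  have h : aaR X ≤ Subgroup.comap a.toMonoidHom (aaR X) := by
    refine sSup_le fun L hL x hx => ?_
    have h1 : (L.map a.toMonoidHom).Normal := hL.1.map a.toMonoidHom a.surjective
    have h2 : LF (L.map a.toMonoidHom) := aa_map a.toMonoidHom hL.2
    have h3 : L.map a.toMonoidHom ≤ aaR X := le_sSup ⟨h1, h2⟩
    exact h3 ⟨x, hx, rfl⟩
  exact h hn

private theorem aaR_lf : LF (aaR X) := by
  refine Pool.Agent.FRB.lf_sSup (Y := ⊤) (fun L _ => le_top) (fun L hL y _ x hx => ?_) (fun L hL => hL.2)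
  have h1 := hL.1.conj_mem x hx y⁻¹
  rwa [inv_inv] at h1

theorem hyper (h : Big p r) (H : Hyp p r a) {N : Subgroup X} (hN : N.Normal) (hl : LF N) :
    N ≤ Subgroup.upperCentralSeries X (3 * hh p * hh p) := by
  have h1 : N ≤ aaR X := le_sSup ⟨hN, hl⟩
  have h2 : Hc (aaR X) ⊤ (3 * hh p * hh p) := by
    refine hc_nil h H (aaR_inv a) (fun x _ => Subgroup.mem_top _) le_top ?_ aaR_lf
    intro g _ s hs
    have h3 := aaR_normal g⁻¹ s hs
    rwa [inv_inv] at h3
  intro x hx
  rw [Pool.Agent.FRK.mem_ucs_iff]
  intro l hl'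
  exact h2 x (h1 hx) l (fun g _ => Subgroup.mem_top g) hl'

end Pool.Agent.BFS
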