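import Pool.Agent.BFS.AA
import Pool.Agent.FRK.GO

/-!
# BFS/AB: groups `F⟨a⟩`: the hypotheses `Hyp p r`, and theorem A

`hyp_of`: verbatim the proof of `H` in `FRK/GO` (`main_r`).
`glueA`: `X = F`, `a' = MulAut.conjNormal a`, `Big p r` from the hypotheses (`hh` unfolds to the bound).  A subgroup `N ≤ F` corresponds to
`N.subgroupOf F`; `LF N ↔ LF (N.subgroupOf F)` (as in `main_r`; `fin_of_image`, `fin_image'`).  First part: `hyper`.  Second part:
`nrm_fin` for `D.subgroupOf F`: the centraliser in `F` of `D.subgroupOf F` is `(centralizer D ⊓ F).subgroupOf F`, same for the normaliser.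
-/

set_option autoImplicit false

namespace Pool.Agent.BFS

open Pool.Agent.FRB (Inv LF SS)
open Pool.Agent.FRS (Hyp rs qt)
open Pool.Agent.FRK (hh ic Hc)

universe u

private theorem ab_fin_of_image {G : Type u} [Group G] (F : Subgroup G) (S : Set F)
    (h : ((Subgroup.closure ((fun x : F => (x : G)) '' S) : Subgroup G) : Set G).Finite) :
    ((Subgroup.closure S : Subgroup F) : Set F).Finite := by
  have e : (Subgroup.closure S).map F.subtype =
      Subgroup.closure ((fun x : F => (x : G)) '' S) := MonoidHom.map_closure F.subtype S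
  rw [← e, Subgroup.coe_map] at h
  exact h.of_finite_image (Set.injOn_of_injective F.subtype_injective)

private theorem ab_fin_image {G : Type u} [Group G] (F : Subgroup G) (S : Set F)
    (h : ((Subgroup.closure S : Subgroup F) : Set F).Finite) :
    ((Subgroup.closure ((fun x : F => (x : G)) '' S) : Subgroup G) : Set G).Finite := by
  have e : (Subgroup.closure S).map F.subtype =
      Subgroup.closure ((fun x : F => (x : G)) '' S) := MonoidHom.map_closure F.subtype S
  rw [← e, Subgroup.coe_map]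
  exact h.image _

private theorem ab_lf_down {G : Type u} [Group G] (F : Subgroup G) {T : Subgroup G}
    {T' : Subgroup F} (h : ∀ x ∈ T', ((x : F) : G) ∈ T) (hl : LF T) : LF T' := by
  intro s hs
  classical
  apply ab_fin_of_image
  have e : (fun z : F => (z : G)) '' (s : Set F) =
      ((s.image fun z : F => (z : G) : Finset G) : Set G) := by
    rw [Finset.coe_image]
  rw [e]
  apply hl
  intro z hz
  rw [Finset.coe_image] at hz
  obtain ⟨w, hw, rfl⟩ := hz
  exact h w (hs hw)

private theorem ab_lf_up {G : Type u} [Group G] (F : Subgroup G) {T : Subgroup G}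
    {T' : Subgroup F} (hTF : T ≤ F) (h : ∀ x : F, (x : G) ∈ T → x ∈ T') (hl : LF T') : LF T := by
  intro s hs
  classical
  obtain ⟨t, ht⟩ : ∃ t : Finset F, t = s.attach.image
    fun z : {x // x ∈ s} => (⟨z.1, hTF (hs (Finset.mem_coe.2 z.2))⟩ : F) := ⟨_, rfl⟩
  have e : (fun z : F => (z : G)) '' (t : Set F) = (s : Set G) := by
    ext z
    constructor
    · rintro ⟨w, hw, rfl⟩
      rw [ht] at hw
      obtain ⟨v, _, rfl⟩ := Finset.mem_image.1 (Finset.mem_coe.1 hw)
      exact v.2
    · intro hz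
      refine ⟨⟨z, hTF (hs hz)⟩, ?_, rfl⟩
      rw [ht]
      exact Finset.mem_coe.2 (Finset.mem_image.2
        ⟨⟨z, Finset.mem_coe.1 hz⟩, Finset.mem_attach _ _, rfl⟩)
  rw [← e]
  apply ab_fin_image
  apply hl
  intro w hw
  apply h
  rw [ht] at hw
  obtain ⟨v, _, rfl⟩ := Finset.mem_image.1 (Finset.mem_coe.1 hw)
  exact hs (Finset.mem_coe.2 v.2)

theorem hyp_of {p : ℕ} (hp : p.Prime) {G : Type u} [Group G] (F : Subgroup G) [F.Normal] (a : G)
    (ha : orderOf a = p) (hfpf : ∀ f ∈ F, a * f * a⁻¹ = f → f = 1)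
    (hbin : ∀ x y : G, ((Subgroup.closure ({x, y} : Set G) : Subgroup G) : Set G).Finite)
    (r : ℕ) (hF : ∀ f ∈ F, ∃ n : ℕ, f ^ (r ^ n) = 1) : Hyp p r (MulAut.conjNormal a : MulAut F) := by
  have hap1 : a ^ p = 1 := by rw [← ha, pow_orderOf_eq_one]
  obtain ⟨a', ha'⟩ : ∃ a' : MulAut F, a' = MulAut.conjNormal a := ⟨_, rfl⟩
  have hap : ∀ x : F, ((a' x : F) : G) = a * x * a⁻¹ := by
    intro x
    rw [ha']
    exact MulAut.conjNormal_apply a x
  have hpp : a' ^ p = 1 := by rw [ha', ← map_pow, hap1, map_one]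
  have hmem : ∀ x : F, ∀ T : Subgroup G, a ∈ T → ((x : F) : G) ∈ T →
      ∀ n : ℕ, (((a' ^ n) x : F) : G) ∈ T := by
    intro x T hT hx n
    induction n with
    | zero => rwa [pow_zero, MulAut.one_apply]
    | succ n ih =>
      rw [pow_succ', MulAut.mul_apply, hap]
      exact T.mul_mem (T.mul_mem hT ih) (T.inv_mem hT)
  rw [← ha']
  refine ⟨hp.pos, ?_, hpp, ?_, ?_, ?_⟩
  · intro x
    obtain ⟨n, hn⟩ := hF x x.2
    exact ⟨n, Subtype.ext (by simpa using hn)⟩
  · intro x hx
    have h1 : a * (x : G) * a⁻¹ = x := by rw [← hap, hx]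
    exact Subtype.ext (hfpf x x.2 h1)
  · intro x y
    apply ab_fin_of_image
    have h1 : (fun z : F => (z : G)) '' {x, y} = {(x : G), (y : G)} := Set.image_pair _ _ _
    rw [h1]
    exact hbin x y
  · intro x
    apply ab_fin_of_image
    refine (hbin (x : G) a).subset ?_
    have hxT : (x : G) ∈ Subgroup.closure ({(x : G), a} : Set G) :=
      Subgroup.subset_closure (Or.inl rfl)
    have haT : a ∈ Subgroup.closure ({(x : G), a} : Set G) :=
      Subgroup.subset_closure (Or.inr rfl)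
    have h5 : Subgroup.closure ((fun z : F => (z : G)) '' (Set.range fun n : ℕ => (a' ^ n) x)) ≤
        Subgroup.closure ({(x : G), a} : Set G) := by
      rw [Subgroup.closure_le]
      rintro z ⟨w, ⟨n, rfl⟩, rfl⟩
      exact hmem x _ haT hxT n
    exact h5

theorem glueA {p : ℕ} (hp : p.Prime) (h5 : 5 ≤ p) {G : Type u} [Group G] (F : Subgroup G) (a : G)
    (hFn : F.Normal) (ha : orderOf a = p) (hfpf : ∀ f ∈ F, a * f * a⁻¹ = f → f = 1)
    (hbin : ∀ x y : G, ((Subgroup.closure ({x, y} : Set G) : Subgroup G) : Set G).Finite)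
    (r : ℕ) (hr : r.Prime) (hb : (p - 1) ^ (2 ^ (p - 1) - 1) * (p + 1) < 2 * r)
    (hF : ∀ f ∈ F, ∃ n : ℕ, orderOf f = r ^ n) :
    (∀ N : Subgroup G, N ≤ F → (∀ f ∈ F, ∀ x ∈ N, f * x * f⁻¹ ∈ N) → LF N →
      N.subgroupOf F ≤ Subgroup.upperCentralSeries F (3 * ((p - 1) ^ (2 ^ (p - 1) - 1)) ^ 2)) ∧
    (∀ D : Subgroup G, D ≤ F → (∀ x ∈ D, a * x * a⁻¹ ∈ D) → LF D → LF (F ⊓ Subgroup.centralizer (D : Set G)) →
      LF (F ⊓ Subgroup.normalizer (D : Set G))) := by
  have hF' : ∀ f ∈ F, ∃ n : ℕ, f ^ (r ^ n) = 1 := by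
    intro f hf
    obtain ⟨n, hn⟩ := hF f hf
    exact ⟨n, by rw [← hn, pow_orderOf_eq_one]⟩
  have H := hyp_of hp F a ha hfpf hbin r hF'
  have hB : Big p r := ⟨hp, h5, hr, hb⟩
  constructor
  · intro N hNF hN hl
    have hn : (N.subgroupOf F).Normal := by
      constructor
      intro x hx f
      exact Subgroup.mem_subgroupOf.2 (hN f f.2 x (Subgroup.mem_subgroupOf.1 hx))
    have hl' : LF (N.subgroupOf F) :=
      ab_lf_down F (fun x hx => Subgroup.mem_subgroupOf.1 hx) hl
    have h1 := hyper hB H hn hl'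
    have e : 3 * hh p * hh p = 3 * ((p - 1) ^ (2 ^ (p - 1) - 1)) ^ 2 := by
      rw [hh]; ring
    rw [e] at h1
    exact h1
  · intro D hDF hD hl hC
    have hI : Inv (MulAut.conjNormal a : MulAut F) (D.subgroupOf F) := by
      intro x hx
      rw [Subgroup.mem_subgroupOf, MulAut.conjNormal_apply]
      exact hD x (Subgroup.mem_subgroupOf.1 hx)
    have hl' : LF (D.subgroupOf F) :=
      ab_lf_down F (fun x hx => Subgroup.mem_subgroupOf.1 hx) hl
    have hC' : LF (Subgroup.centralizer ((D.subgroupOf F : Subgroup F) : Set F)) := by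
      refine ab_lf_down F (fun x hx => ?_) hC
      refine ⟨x.2, ?_⟩
      change (x : G) ∈ Subgroup.centralizer (D : Set G)
      rw [Subgroup.mem_centralizer_iff]
      intro d hd
      have h1 := Subgroup.mem_centralizer_iff.1 hx (⟨d, hDF hd⟩ : F)
        (Subgroup.mem_subgroupOf.2 hd)
      exact congrArg (fun z : F => (z : G)) h1
    have h2 := nrm_fin hB H hI hl' hC'
    refine ab_lf_up F inf_le_left (fun x hx => ?_) h2
    have hx2 : (x : G) ∈ Subgroup.normalizer (D : Set G) := hx.2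
    rw [Subgroup.mem_normalizer_iff] at hx2 ⊢
    intro y
    have h3 := hx2 (y : G)
    constructor
    · intro hy
      exact Subgroup.mem_subgroupOf.2 (h3.1 (Subgroup.mem_subgroupOf.1 hy))
    · intro hy
      exact Subgroup.mem_subgroupOf.2 (h3.2 (Subgroup.mem_subgroupOf.1 hy))

end Pool.Agent.BFS
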