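import Pool.Agent.BFS.AB

/-!
# BFS/AG: groups `F⟨a⟩`, theorem A in its final form

`glueA2`: a locally finite `a`-invariant subgroup `D` of `F` lies in a bounded term of the upper central series of its normaliser in `F`.
-/

set_option autoImplicit false

namespace Pool.Agent.BFS

open Pool.Agent.FRB (Inv LF SS)
open Pool.Agent.FRS (Hyp rs qt)
open Pool.Agent.FRK (hh ic Hc)

universe u

private theorem ag_fin_of_image {G : Type u} [Group G] (F : Subgroup G) (S : Set F)
    (h : ((Subgroup.closure ((fun x : F => (x : G)) '' S) : Subgroup G) : Set G).Finite) :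
    ((Subgroup.closure S : Subgroup F) : Set F).Finite := by
  have e : (Subgroup.closure S).map F.subtype =
      Subgroup.closure ((fun x : F => (x : G)) '' S) := MonoidHom.map_closure F.subtype S
  rw [← e, Subgroup.coe_map] at h
  exact h.of_finite_image (Set.injOn_of_injective F.subtype_injective)

private theorem ag_lf_down {G : Type u} [Group G] (F : Subgroup G) {T : Subgroup G}
    {T' : Subgroup F} (h : ∀ x ∈ T', ((x : F) : G) ∈ T) (hl : LF T) : LF T' := by
  intro s hs
  classical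
  apply ag_fin_of_image
  have e : (fun z : F => (z : G)) '' (s : Set F) =
      ((s.image fun z : F => (z : G) : Finset G) : Set G) := by
    rw [Finset.coe_image]
  rw [e]
  apply hl
  intro z hz
  rw [Finset.coe_image] at hz
  obtain ⟨w, hw, rfl⟩ := hz
  exact h w (hs hw)

theorem glueA2 {p : ℕ} (hp : p.Prime) (h5 : 5 ≤ p) {G : Type u} [Group G] (F : Subgroup G) (a : G)
    (hFn : F.Normal) (ha : orderOf a = p) (hfpf : ∀ f ∈ F, a * f * a⁻¹ = f → f = 1)
    (hbin : ∀ x y : G, ((Subgroup.closure ({x, y} : Set G) : Subgroup G) : Set G).Finite)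
    (r : ℕ) (hr : r.Prime) (hb : (p - 1) ^ (2 ^ (p - 1) - 1) * (p + 1) < 2 * r)
    (hF : ∀ f ∈ F, ∃ n : ℕ, orderOf f = r ^ n) (D : Subgroup G) (hDF : D ≤ F) (hD : ∀ x ∈ D, a * x * a⁻¹ ∈ D)
    (hl : LF D) :
    D.subgroupOf (F ⊓ Subgroup.normalizer (D : Set G)) ≤
      Subgroup.upperCentralSeries (F ⊓ Subgroup.normalizer (D : Set G) : Subgroup G)
        (3 * ((p - 1) ^ (2 ^ (p - 1) - 1)) ^ 2) := by
  have hF' : ∀ f ∈ F, ∃ n : ℕ, f ^ (r ^ n) = 1 := by
    intro f hf
    obtain ⟨n, hn⟩ := hF f hf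
    exact ⟨n, by rw [← hn, pow_orderOf_eq_one]⟩
  have H := hyp_of hp F a ha hfpf hbin r hF'
  have hB : Big p r := ⟨hp, h5, hr, hb⟩
  have hI : Inv (MulAut.conjNormal a : MulAut F) (D.subgroupOf F) := by
    intro x hx
    rw [Subgroup.mem_subgroupOf, MulAut.conjNormal_apply]
    exact hD x (Subgroup.mem_subgroupOf.1 hx)
  have hl' : LF (D.subgroupOf F) := ag_lf_down F (fun x hx => Subgroup.mem_subgroupOf.1 hx) hl
  have h1 := hc_nil hB H (S := D.subgroupOf F) (N := Subgroup.normalizer ((D.subgroupOf F : Subgroup F) : Set F)) hI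
    (FRK.inv_nrm H hI) Subgroup.le_normalizer (by
      intro g hg s hs
      have h2 := (Subgroup.mem_normalizer_iff.1 (Subgroup.inv_mem _ hg) s).1 hs
      rwa [inv_inv] at h2) hl'
  have e : 3 * hh p * hh p = 3 * ((p - 1) ^ (2 ^ (p - 1) - 1)) ^ 2 := by
    rw [hh]; ring
  rw [e] at h1
  intro x hx
  rw [FRK.mem_ucs_iff]
  intro l hlen
  obtain ⟨f, hf⟩ : ∃ f : (F ⊓ Subgroup.normalizer (D : Set G) : Subgroup G) →* F,
      f = Subgroup.inclusion (inf_le_left : F ⊓ Subgroup.normalizer (D : Set G) ≤ F) := ⟨_, rfl⟩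
  have hfi : Function.Injective f := by
    rw [hf]
    exact Subgroup.inclusion_injective _
  have hfc : ∀ g : (F ⊓ Subgroup.normalizer (D : Set G) : Subgroup G), ((f g : F) : G) = (g : G) := by
    intro g
    rw [hf]
    rfl
  apply hfi
  rw [FRK.ic_map, map_one]
  refine h1 (f x) ?_ _ ?_ (by rw [List.length_map, hlen])
  · rw [Subgroup.mem_subgroupOf, hfc]
    exact Subgroup.mem_subgroupOf.1 hx
  · intro g hg
    obtain ⟨u, _, rfl⟩ := List.mem_map.1 hg
    rw [Subgroup.mem_normalizer_iff]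
    intro y
    have h3 := (Subgroup.mem_normalizer_iff.1 u.2.2) (y : G)
    constructor
    · intro hy
      rw [Subgroup.mem_subgroupOf] at hy ⊢
      have h4 := h3.1 hy
      rw [Subgroup.coe_mul, Subgroup.coe_mul, Subgroup.coe_inv, hfc]
      exact h4
    · intro hy
      rw [Subgroup.mem_subgroupOf] at hy ⊢
      rw [Subgroup.coe_mul, Subgroup.coe_mul, Subgroup.coe_inv, hfc] at hy
      exact h3.2 hy

end Pool.Agent.BFS
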