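import Pool.Agent.BFS.UA

/-!
# BFS/BA: soluble torsion groups are locally finite; central elements

`lf_of_sol`: soluble torsion groups are locally finite (induction along the derived series, the last nontrivial term
being commutative, hence locally finite, and normal).  `cen_ex`: if long iterated commutators of `S` with `N` vanish then
`S` contains a nontrivial element centralised by `N`.  `nil_of_hc`: if long iterated commutators in `M` vanish then `M` is
nilpotent.
-/

set_option autoImplicit false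

namespace Pool.Agent.BFS

open Pool.Agent.FRB (Inv LF SS)
open Pool.Agent.FRS (Hyp rs qt)
open Pool.Agent.FRK (hh ic Hc)

universe u

variable {X : Type u} [Group X]

private theorem ba_sol : ∀ n : ℕ, ∀ (Y : Type u) [Group Y], (∀ x : Y, ∃ n : ℕ, 0 < n ∧ x ^ n = 1) →
    derivedSeries Y n = ⊥ → LF (⊤ : Subgroup Y) := by
  intro n
  induction n with
  | zero =>
    intro Y _ _ h s _
    have h1 : (⊤ : Subgroup Y) = ⊥ := h
    have h2 : Subsingleton Y := by
      refine ⟨fun a b => ?_⟩
      have ha : a ∈ (⊥ : Subgroup Y) := h1 ▸ Subgroup.mem_top a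
      have hb : b ∈ (⊥ : Subgroup Y) := h1 ▸ Subgroup.mem_top b
      rw [Subgroup.mem_bot.1 ha, Subgroup.mem_bot.1 hb]
    exact Set.toFinite _
  | succ n ih =>
    intro Y _ ht h
    have hN : (derivedSeries Y n).Normal := derivedSeries_normal Y n
    rw [derivedSeries_succ] at h
    refine Pool.Agent.FRB.lf_ext (derivedSeries Y n) ?_ ?_
    · refine Pool.Agent.FRB.lf_comm ?_ fun x _ => ht x
      intro x hx y hy
      have h1 := Subgroup.commutator_mem_commutator hx hy
      rw [h, Subgroup.mem_bot, commutatorElement_eq_one_iff_commute] at h1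
      exact h1
    · have h2 : LF (⊤ : Subgroup (Y ⧸ derivedSeries Y n)) := by
        refine ih (Y ⧸ derivedSeries Y n) ?_ ?_
        · intro x
          obtain ⟨g, rfl⟩ := QuotientGroup.mk_surjective x
          obtain ⟨m, hm, hg⟩ := ht g
          refine ⟨m, hm, ?_⟩
          rw [← QuotientGroup.mk_pow, hg]
          rfl
        · rw [← map_derivedSeries_eq (QuotientGroup.mk'_surjective (derivedSeries Y n)) n]
          exact QuotientGroup.map_mk'_self _
      intro s
      exact h2 s (fun _ _ => Subgroup.mem_top _)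

theorem lf_of_sol (ht : ∀ x : X, ∃ n : ℕ, 0 < n ∧ x ^ n = 1) {S : Subgroup X} (hs : Group.IsSolvable S) : LF S := by
  obtain ⟨n, hn⟩ := hs.solvable
  refine Pool.Agent.FRS.lf_coe.1 (ba_sol n S ?_ hn)
  intro x
  obtain ⟨m, hm, hx⟩ := ht (x : X)
  exact ⟨m, hm, Subtype.ext (by rw [Subgroup.coe_pow, hx, Subgroup.coe_one])⟩

private theorem ba_mem {S N : Subgroup X} (nS : ∀ g ∈ N, ∀ s ∈ S, g⁻¹ * s * g ∈ S) (l : List X) :
    (∀ g ∈ l, g ∈ N) → ∀ x ∈ S, ic x l ∈ S := by
  induction l with
  | nil =>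
    intro _ x hx
    exact hx
  | cons g l ih =>
    intro hl x hx
    refine ih (fun g hg => hl g (List.mem_cons_of_mem _ hg)) _ ?_
    have h1 := nS g⁻¹ (N.inv_mem (hl g List.mem_cons_self)) x⁻¹ (S.inv_mem hx)
    rw [inv_inv] at h1
    have h2 : x * g * x⁻¹ * g⁻¹ = x * (g * x⁻¹ * g⁻¹) := by group
    show x * g * x⁻¹ * g⁻¹ ∈ S
    rw [h2]
    exact S.mul_mem hx h1

private theorem ba_snoc (x : X) (l : List X) (g : X) :
    ic x (l ++ [g]) = ic x l * g * (ic x l)⁻¹ * g⁻¹ := by
  unfold Pool.Agent.FRK.ic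
  rw [List.foldl_append]
  rfl

theorem cen_ex {S N : Subgroup X} (nS : ∀ g ∈ N, ∀ s ∈ S, g⁻¹ * s * g ∈ S) {n : ℕ} (h : Hc S N n)
    (hS : S ≠ ⊥) : ∃ z ∈ S, z ≠ 1 ∧ ∀ g ∈ N, Commute z g := by
  induction n with
  | zero =>
    refine absurd ?_ hS
    rw [Subgroup.eq_bot_iff_forall]
    intro x hx
    exact h x hx [] (by simp) rfl
  | succ n ih =>
    by_cases h1 : Hc S N n
    · exact ih h1
    · unfold Pool.Agent.FRK.Hc at h1
      push Not at h1
      obtain ⟨x, hx, l, hl, hn, hne⟩ := h1
      refine ⟨ic x l, ba_mem nS l hl x hx, hne, fun g hg => ?_⟩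
      have h2 : ic x (l ++ [g]) = 1 := by
        refine h x hx (l ++ [g]) ?_ (by simp [hn])
        intro y hy
        rcases List.mem_append.1 hy with hy | hy
        · exact hl y hy
        · rw [List.mem_singleton.1 hy]
          exact hg
      rw [ba_snoc] at h2
      have h3 : ic x l * g * (ic x l)⁻¹ = g := mul_inv_eq_one.1 h2
      exact mul_inv_eq_iff_eq_mul.1 h3

theorem nil_of_hc {M : Subgroup X} {n : ℕ} (h : Hc M M n) : Group.IsNilpotent M := by
  refine ⟨⟨n, ?_⟩⟩
  rw [eq_top_iff]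
  intro x _
  rw [Pool.Agent.FRK.mem_ucs_iff]
  intro l hl
  apply M.subtype_injective
  rw [Pool.Agent.FRK.ic_map, map_one]
  refine h _ x.2 _ ?_ (by rw [List.length_map, hl])
  intro g hg
  obtain ⟨u, _, rfl⟩ := List.mem_map.1 hg
  exact u.2

end Pool.Agent.BFS
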