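import Pool.Agent.BFS.NC
import Pool.Agent.BFS.BA

/-!
# BFS/BB: the minimal configuration: all centralisers soluble, not locally finite

`Bt`: the standing hypotheses of theorem B.
`clf`: `lf_of_sol` for the centraliser.
`ss`: `hc_nil` with `N = ⊤` and `cen_ex` give a central `z ≠ 1`; its centraliser is `⊤`, contradiction to `nlf`.
`nrm`: `nrm_fin`, the centraliser of `D` is contained in that of `d ∈ D`, `d ≠ 1`.
`uniq`: `FRK.max_uniq` with `D0 = {y}` (`FRK.inv_nrm`, `nil_lf`, `nrm`), used for `M` and `M'`.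
`nrm_mx`: `nrm`, `FRK.inv_nrm`, `Mx.max`.
`ex_mx`: `FRK.exists_max`.
`ex_el`: `ex_mx` for `KK a x` (invariant: `FRS.inv_orb` or directly; finite: `Hyp.orb`, hence locally finite).
-/

set_option autoImplicit false

namespace Pool.Agent.BFS

open Pool.Agent.FRB (Inv LF SS)
open Pool.Agent.FRS (Hyp rs qt)
open Pool.Agent.FRK (hh ic Hc)

universe u

variable {p r : ℕ} {X : Type u} [Group X] {a : MulAut X}

/-- the standing hypotheses of theorem B -/
structure Bt (p r : ℕ) {X : Type*} [Group X] (a : MulAut X) : Prop where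
  root : Big p r
  hyp : Hyp p r a
  sol : ∀ x : X, x ≠ 1 → Group.IsSolvable (Subgroup.centralizer ({x} : Set X))
  nlf : ¬ LF (⊤ : Subgroup X)

private theorem bb_tors (B : Bt p r a) (x : X) : ∃ n : ℕ, 0 < n ∧ x ^ n = 1 := by
  obtain ⟨m, hm⟩ := B.hyp.tors x
  exact ⟨r ^ m, pow_pos B.root.prime.pos m, hm⟩

theorem Bt.clf (B : Bt p r a) (x : X) (hx : x ≠ 1) : LF (Subgroup.centralizer ({x} : Set X)) :=
  lf_of_sol (bb_tors B) (B.sol x hx)

theorem Bt.ss (B : Bt p r a) {S : Subgroup X} (hn : S.Normal) (hi : Inv a S) (hl : LF S) : S = ⊥ := by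
  by_contra hS
  have nS : ∀ g ∈ (⊤ : Subgroup X), ∀ s ∈ S, g⁻¹ * s * g ∈ S := by
    intro g _ s hs
    have h1 := hn.conj_mem s hs g⁻¹
    rwa [inv_inv] at h1
  have h1 := hc_nil B.root B.hyp hi (fun x _ => Subgroup.mem_top (a x)) le_top nS hl
  obtain ⟨z, _, hz1, hz⟩ := cen_ex nS h1 hS
  apply B.nlf
  have h2 := B.clf z hz1
  intro s _
  refine h2 s ?_
  intro g _
  refine Subgroup.mem_centralizer_iff.2 ?_
  intro y hy
  rw [Set.mem_singleton_iff.1 hy]
  exact (hz g (Subgroup.mem_top g)).eq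

theorem Bt.nrm (B : Bt p r a) {D : Subgroup X} (hi : Inv a D) (hl : LF D) {d : X} (hd : d ∈ D) (h1 : d ≠ 1) :
    LF (Subgroup.normalizer (D : Set X)) := by
  refine nrm_fin B.root B.hyp hi hl ?_
  intro s hs
  refine B.clf d h1 s ?_
  intro g hg
  have h2 := Subgroup.mem_centralizer_iff.1 (hs hg)
  refine Subgroup.mem_centralizer_iff.2 ?_
  intro y hy
  rw [Set.mem_singleton_iff.1 hy]
  exact h2 d hd

private theorem bb_le (B : Bt p r a) {M T : Subgroup X} (hM : Mx a M) (hTi : Inv a T) (hTl : LF T) {y : X} (hy : y ∈ M)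
    (hy' : y ∈ T) (h1 : y ≠ 1) : T ≤ M := by
  refine FRK.max_uniq (fun D hD => FRK.inv_nrm B.hyp hD) (fun T hT hl => ⟨_, nil_lf B.root B.hyp hT hl⟩) hM.inv hM.lf
    hM.max ({y} : Set X) ?_ ?_ T hTi hTl ?_
  · intro z hz
    rw [Set.mem_singleton_iff.1 hz]
    exact hy
  · intro D hD hl h2
    exact B.nrm hD hl (h2 (Set.mem_singleton y)) h1
  · intro z hz
    rw [Set.mem_singleton_iff.1 hz]
    exact hy'

theorem Bt.uniq (B : Bt p r a) {M M' : Subgroup X} (hM : Mx a M) (hM' : Mx a M') {y : X} (hy : y ∈ M) (hy' : y ∈ M')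
    (h1 : y ≠ 1) : M = M' :=
  le_antisymm (bb_le B hM' hM.inv hM.lf hy' hy h1) (bb_le B hM hM'.inv hM'.lf hy hy' h1)

theorem Bt.nrm_mx (B : Bt p r a) {M : Subgroup X} (hM : Mx a M) {y : X} (hy : y ∈ M) (h1 : y ≠ 1) :
    Subgroup.normalizer (M : Set X) ≤ M :=
  hM.max _ (FRK.inv_nrm B.hyp hM.inv) (B.nrm hM.inv hM.lf hy h1) Subgroup.le_normalizer

theorem Bt.ex_mx (B : Bt p r a) {T : Subgroup X} (hi : Inv a T) (hl : LF T) : ∃ M : Subgroup X, Mx a M ∧ T ≤ M := by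
  obtain ⟨M, h1, h2, h3, h4⟩ := FRK.exists_max hi hl
  exact ⟨M, ⟨h2, h3, h4⟩, h1⟩

theorem Bt.ex_el (B : Bt p r a) (x : X) : ∃ M : Subgroup X, Mx a M ∧ x ∈ M := by
  have hO : Inv a (KK a x) := FRS.inv_orb a x
  have hl : LF (KK a x) := by
    intro s hs
    have h1 : Subgroup.closure (s : Set X) ≤ KK a x := (Subgroup.closure_le _).2 hs
    exact (B.hyp.orb x).subset h1
  obtain ⟨M, hM, h1⟩ := B.ex_mx hO hl
  exact ⟨M, hM, h1 (FRS.mem_orb a x)⟩

end Pool.Agent.BFS
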