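import Pool.Agent.BFS.BB

/-!
# BFS/BC: the exponent is `r`

`same`: `x c = c x`, `x ^ r ≠ 1`, `c ≠ 1`, `x ∈ M`, `M` maximal: then `c ∈ M`.  Proof: let `c' = c ^ (r ^ j)` be the power of `c` of order `r` (`Hyp.tors`:
take the least `n` with `c ^ (r ^ n) = 1`, `n = j + 1`), so `c' ≠ 1`, `c' ^ r = 1`.  `(x * c') ^ r = x ^ r` (`Commute.mul_pow`).  Let `M₁` be maximal with
`x * c' ∈ M₁` (`ex_el`).  `x ^ r ∈ M₁` and `x ^ r ∈ M`, `x ^ r ≠ 1`, so `M₁ = M` (`uniq`), so `c' ∈ M`.  Let `M₂` be maximal with `c ∈ M₂`; `c' ∈ M₂`, so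
`M₂ = M` (`uniq`), so `c ∈ M`.
`all`: `y ^ r ≠ 1`, `y ∈ M`, `x ^ r ≠ 1`: then `x ∈ M`.  The group `P = closure {x, y}` is a finite `r`-group (`Hyp.two`, `Hyp.tors`), not trivial, so
its centre is not trivial (`IsPGroup.center_nontrivial`): `1 ≠ c ∈ Z(P)`.  `same` for `y`, `c`: `c ∈ M`.  Let `M₁` be maximal with `x ∈ M₁`; `same`
for `x`, `c`, `M₁`: `c ∈ M₁`; `uniq`: `M₁ = M`.
`exp_r`: if `y ^ r ≠ 1`, `y ∈ M` (`ex_el`): `N = closure {x | x ^ r ≠ 1} ≤ M` is locally finite (`FRB.lf_mono`), normal, invariant, contains `y ≠ 1`: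
contradiction to `Bt.ss`.
-/

set_option autoImplicit false

namespace Pool.Agent.BFS

open Pool.Agent.FRB (Inv LF SS)
open Pool.Agent.FRS (Hyp rs qt)
open Pool.Agent.FRK (hh ic Hc)

universe u

variable {p r : ℕ} {X : Type u} [Group X] {a : MulAut X}

theorem Bt.same (B : Bt p r a) {M : Subgroup X} (hM : Mx a M) {x c : X} (hx : x ∈ M) (hxc : Commute x c)
    (hr : x ^ r ≠ 1) (hc : c ≠ 1) : c ∈ M := by
  sorry

theorem Bt.all (B : Bt p r a) {M : Subgroup X} (hM : Mx a M) {x y : X} (hy : y ∈ M) (hyr : y ^ r ≠ 1)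
    (hxr : x ^ r ≠ 1) : x ∈ M := by
  sorry

theorem Bt.exp_r (B : Bt p r a) (x : X) : x ^ r = 1 := by
  sorry

end Pool.Agent.BFS
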