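import Pool.Agent.BFS.LSb

/-!
# BFS/LS: self-normalising nilpotent subgroups of soluble groups of prime exponent

`abel_le`: if `A` is not contained in `M`, let `l` be a list in `M` of maximal length such that `ic v l ∉ M` for some `v ∈ A` (lengths are
bounded by `act_all`, `1 ∈ M`); `b = ic v l ∈ A` (`A` is normal), `b * g * b⁻¹ * g⁻¹ ∈ M` for all `g ∈ M`, so `b M b⁻¹ ≤ M`, and `b ^ r = 1`, so `b` normalises
`M`; so `b ∈ M`, a contradiction.
`lem_s`: induction on `n` with `derivedSeries H n = ⊥`: `n = 0` trivial; `n + 1`: `A = derivedSeries H n` is commutative and normal, so `A ≤ M` (`abel_le`);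
`H ⧸ A` with the image of `M` (nilpotent; self-normalising because `A ≤ M`; exponent `r`), so the image of `M` is everything, so `M = ⊤`.
-/

set_option autoImplicit false

namespace Pool.Agent.BFS

open Pool.Agent.FRK (ic)

universe u

variable {H : Type u} [Group H]

private theorem LS_snoc (v g : H) (l : List H) : ic v (l ++ [g]) = ic v l * g * (ic v l)⁻¹ * g⁻¹ := by
  unfold Pool.Agent.FRK.ic
  rw [List.foldl_append]
  rfl

private theorem LS_step {P : ℕ → Prop} (h0 : P 0) (k : ℕ) (hk : ¬ P k) : ∃ j, P j ∧ ¬ P (j + 1) := by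
  by_contra hcon
  apply hk
  induction k with
  | zero => exact h0
  | succ k ih =>
    by_contra h1
    by_cases h2 : P k
    · exact hcon ⟨k, h2, h1⟩
    · exact h2 (ih h2)

theorem abel_le {r : ℕ} (hr : r.Prime) (hx : ∀ x : H, x ^ r = 1) (A : Subgroup H) [A.Normal]
    (hA : ∀ x ∈ A, ∀ y ∈ A, Commute x y) (M : Subgroup H) (hM : Group.IsNilpotent M)
    (hN : Subgroup.normalizer (M : Set H) ≤ M) : A ≤ M := by
  obtain ⟨k, hk⟩ := act_all hr hx A hA M hM
  intro v0 hv0
  by_contra hv0M
  obtain ⟨j, ⟨l, hl, hlj, v, hv, hvl⟩, hj⟩ := LS_step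
    (P := fun j => ∃ l : List H, (∀ g ∈ l, g ∈ M) ∧ l.length = j ∧ ∃ v ∈ A, ic v l ∉ M)
    ⟨[], by simp, rfl, v0, hv0, hv0M⟩ k (by
      rintro ⟨l, hl, hlk, v, hv, h⟩
      apply h
      rw [hk v hv l hl hlk]
      exact M.one_mem)
  have hb : ∀ g ∈ M, ic v l * g * (ic v l)⁻¹ ∈ M := by
    intro g hg
    by_contra hcon
    apply hj
    refine ⟨l ++ [g], ?_, ?_, v, hv, ?_⟩
    · intro x hx
      rw [List.mem_append, List.mem_singleton] at hx
      rcases hx with hx | hx
      · exact hl x hx
      · rw [hx]
        exact hg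
    · rw [List.length_append, hlj]
      rfl
    · rw [LS_snoc]
      intro h1
      apply hcon
      have h2 := M.mul_mem h1 hg
      rwa [inv_mul_cancel_right] at h2
  have hpow : ∀ n : ℕ, ∀ g ∈ M, (ic v l) ^ n * g * ((ic v l) ^ n)⁻¹ ∈ M := by
    intro n
    induction n with
    | zero =>
      intro g hg
      simpa using hg
    | succ n ih =>
      intro g hg
      have h1 := ih _ (hb g hg)
      have h2 : (ic v l) ^ (n + 1) * g * ((ic v l) ^ (n + 1))⁻¹ =
          (ic v l) ^ n * (ic v l * g * (ic v l)⁻¹) * ((ic v l) ^ n)⁻¹ := by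
        rw [pow_succ, mul_inv_rev]
        group
      rw [h2]
      exact h1
  have hinv : (ic v l) ^ (r - 1) = (ic v l)⁻¹ := by
    rw [eq_inv_iff_mul_eq_one, ← pow_succ, Nat.sub_add_cancel hr.one_lt.le]
    exact hx _
  apply hvl
  apply hN
  rw [Subgroup.mem_normalizer_iff]
  intro g
  constructor
  · exact hb g
  · intro hg
    have h1 := hpow (r - 1) _ hg
    rw [hinv, inv_inv] at h1
    have h2 : (ic v l)⁻¹ * (ic v l * g * (ic v l)⁻¹) * ic v l = g := by group
    rwa [h2] at h1

open scoped commutatorElement in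
private theorem LS_ind {r : ℕ} (hr : r.Prime) (n : ℕ) : ∀ (H : Type u) [Group H], derivedSeries H n = ⊥ →
    (∀ x : H, x ^ r = 1) → ∀ M : Subgroup H, Group.IsNilpotent M → Subgroup.normalizer (M : Set H) ≤ M → M = ⊤ := by
  induction n with
  | zero =>
    intro H _ hd hx M hM hN
    rw [derivedSeries_zero] at hd
    rw [eq_top_iff, hd]
    exact bot_le
  | succ n ih =>
    intro H _ hd hx M hM hN
    have hA : ∀ x ∈ derivedSeries H n, ∀ y ∈ derivedSeries H n, Commute x y := by
      intro x hx' y hy'
      have h1 : ⁅x, y⁆ ∈ derivedSeries H (n + 1) := by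
        rw [derivedSeries_succ]
        exact Subgroup.commutator_mem_commutator hx' hy'
      rw [hd, Subgroup.mem_bot] at h1
      exact commutatorElement_eq_one_iff_commute.1 h1
    have hAM : derivedSeries H n ≤ M := abel_le hr hx (derivedSeries H n) hA M hM hN
    have hker : (QuotientGroup.mk' (derivedSeries H n)).ker ≤ M := by
      rw [QuotientGroup.ker_mk']
      exact hAM
    have hco : (M.map (QuotientGroup.mk' (derivedSeries H n))).comap (QuotientGroup.mk' (derivedSeries H n)) = M :=
      Subgroup.comap_map_eq_self hker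
    have hsurj : Function.Surjective (QuotientGroup.mk' (derivedSeries H n)) := QuotientGroup.mk'_surjective _
    have h1 := ih (H ⧸ derivedSeries H n) (by
        rw [← map_derivedSeries_eq hsurj n]
        exact QuotientGroup.map_mk'_self _) (by
        intro q
        obtain ⟨x, rfl⟩ := hsurj q
        rw [← map_pow, hx, map_one])
      (M.map (QuotientGroup.mk' (derivedSeries H n)))
      (Group.nilpotent_of_surjective ((QuotientGroup.mk' (derivedSeries H n)).subgroupMap M)
        (MonoidHom.subgroupMap_surjective _ _)) (by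
        intro q hq
        obtain ⟨x, rfl⟩ := hsurj q
        apply Subgroup.mem_map_of_mem
        apply hN
        rw [Subgroup.mem_normalizer_iff] at hq ⊢
        intro g
        have h2 := hq (QuotientGroup.mk' (derivedSeries H n) g)
        rw [← map_mul, ← map_inv, ← map_mul] at h2
        rw [← Subgroup.mem_comap, hco, ← Subgroup.mem_comap, hco] at h2
        exact h2)
    rw [← hco, h1, Subgroup.comap_top]


theorem lem_s {r : ℕ} (hr : r.Prime) (hs : Group.IsSolvable H) (hx : ∀ x : H, x ^ r = 1) (M : Subgroup H)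
    (hM : Group.IsNilpotent M) (hN : Subgroup.normalizer (M : Set H) ≤ M) : M = ⊤ := by
  obtain ⟨n, hn⟩ := hs.solvable
  exact LS_ind hr n H hn hx M hM hN

end Pool.Agent.BFS
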