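import Pool.Agent.BFS.BC
import Pool.Agent.BFS.LS

/-!
# BFS/BD: centralisers of central elements of maximal subgroups; theorem B

`cent_eq`: `H = Subgroup.centralizer {z}` contains `M`; for the group `H` and `M' = M.subgroupOf H`: soluble (`Bt.sol`), exponent `r` (`Bt.exp_r`), `M'` nilpotent
(`nil_lf`, `nil_of_hc`, `M' ≃ M` for `M ≤ H`), self-normalising (`Bt.nrm_mx`: an element of `H` normalising `M'` normalises `M`).  `lem_s`: `M' = ⊤`.
`thmB`: suppose not; `B : Bt p r a`.  `X` is not trivial: take `y ≠ 1`, `M` maximal with `y ∈ M` (`Bt.ex_el`); there is `x ∉ M` (else `X` is locally finite);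
`M'` maximal with `x ∈ M'`.  `x ≠ 1`.  `1 ≠ z ∈ Z(M)`, `1 ≠ z' ∈ Z(M')` (`nil_lf`, `cen_ex` with `S = N = M`).  `P = closure {z, z'}` is a finite `r`-group, not trivial, so
`1 ≠ c ∈ Z(P)`; `c` commutes with `z` and `z'`, so `c ∈ M`, `c ∈ M'` (`cent_eq`), so `M = M'` (`Bt.uniq`): contradiction to `x ∉ M`.
-/

set_option autoImplicit false

namespace Pool.Agent.BFS

open Pool.Agent.FRB (Inv LF SS)
open Pool.Agent.FRS (Hyp rs qt)
open Pool.Agent.FRK (hh ic Hc)

universe u

variable {p r : ℕ} {X : Type u} [Group X] {a : MulAut X}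

theorem Bt.cent_eq (B : Bt p r a) {M : Subgroup X} (hM : Mx a M) {z : X} (hz : z ∈ M) (h1 : z ≠ 1)
    (hc : ∀ g ∈ M, Commute z g) : Subgroup.centralizer ({z} : Set X) ≤ M := by
  set H : Subgroup X := Subgroup.centralizer ({z} : Set X) with hH
  have hle : M ≤ H := by
    intro g hg
    rw [hH, Subgroup.mem_centralizer_singleton_iff]
    exact (hc g hg).symm.eq
  have hnil : Group.IsNilpotent M := nil_of_hc (nil_lf B.root B.hyp hM.inv hM.lf)
  have hnil' : Group.IsNilpotent (M.subgroupOf H) := by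
    haveI := hnil
    exact Group.nilpotent_of_mulEquiv (Subgroup.subgroupOfEquivOfLe hle).symm
  have hx : ∀ x : H, x ^ r = 1 := fun x => Subtype.ext (B.exp_r (x : X))
  have hN : Subgroup.normalizer ((M.subgroupOf H : Subgroup H) : Set H) ≤ M.subgroupOf H := by
    intro h hh'
    rw [Subgroup.mem_normalizer_iff] at hh'
    rw [Subgroup.mem_subgroupOf]
    refine B.nrm_mx hM hz h1 ?_
    rw [Subgroup.mem_normalizer_iff]
    intro g
    constructor
    · intro hg
      have h2 := (hh' ⟨g, hle hg⟩).1 (Subgroup.mem_subgroupOf.2 hg)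
      exact Subgroup.mem_subgroupOf.1 h2
    · intro hg
      have h3 : (h : X) * g * (h : X)⁻¹ ∈ H := hle hg
      have h4 : g ∈ H := by
        have h5 := H.mul_mem (H.mul_mem (H.inv_mem h.2) h3) h.2
        have h6 : (h : X)⁻¹ * ((h : X) * g * (h : X)⁻¹) * (h : X) = g := by group
        rwa [h6] at h5
      exact Subgroup.mem_subgroupOf.1 ((hh' ⟨g, h4⟩).2 (Subgroup.mem_subgroupOf.2 hg))
  have h2 := lem_s B.root.prime (B.sol z h1) hx (M.subgroupOf H) hnil' hN
  exact Subgroup.subgroupOf_eq_top.1 h2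

/-- a central element of a maximal subgroup -/
private theorem BD_cen (B : Bt p r a) {M : Subgroup X} (hM : Mx a M) {y : X} (hy : y ∈ M) (h1 : y ≠ 1) :
    ∃ z ∈ M, z ≠ 1 ∧ ∀ g ∈ M, Commute z g := by
  refine cen_ex (fun g hg s hs => M.mul_mem (M.mul_mem (M.inv_mem hg) hs) hg) (nil_lf B.root B.hyp hM.inv hM.lf) ?_
  rintro rfl
  exact h1 (Subgroup.mem_bot.1 hy)

theorem thmB (h : Big p r) (H : Hyp p r a)
    (hs : ∀ x : X, x ≠ 1 → Group.IsSolvable (Subgroup.centralizer ({x} : Set X))) : LF (⊤ : Subgroup X) := by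
  by_contra hlf
  have B : Bt p r a := ⟨h, H, hs, hlf⟩
  obtain ⟨M₀, hM₀, -⟩ := B.ex_el 1
  -- an element different from one
  have hy : ∃ y : X, y ≠ 1 := by
    by_contra hy
    push Not at hy
    apply hlf
    have : (⊤ : Subgroup X) = M₀ := by
      ext g
      rw [hy g]
      exact ⟨fun _ => M₀.one_mem, fun _ => Subgroup.mem_top _⟩
    rw [this]
    exact hM₀.lf
  obtain ⟨y, hy1⟩ := hy
  obtain ⟨M, hM, hyM⟩ := B.ex_el y
  have hx : ∃ x : X, x ∉ M := by
    by_contra hx
    push Not at hx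
    apply hlf
    rw [(Subgroup.eq_top_iff' M).2 hx |>.symm]
    exact hM.lf
  obtain ⟨x, hxM⟩ := hx
  have hx1 : x ≠ 1 := by
    rintro rfl
    exact hxM M.one_mem
  obtain ⟨M', hM', hxM'⟩ := B.ex_el x
  obtain ⟨z, hz, hz1, hzc⟩ := BD_cen B hM hyM hy1
  obtain ⟨z', hz', hz1', hzc'⟩ := BD_cen B hM' hxM' hx1
  set P : Subgroup X := Subgroup.closure ({z, z'} : Set X) with hP
  have hfin : Finite P := (H.two z z').to_subtype
  have mz : z ∈ P := Subgroup.subset_closure (by simp)
  have mz' : z' ∈ P := Subgroup.subset_closure (by simp)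
  have hpg : IsPGroup r P := by
    intro g
    obtain ⟨n, hn⟩ := H.tors (g : X)
    exact ⟨n, Subtype.ext hn⟩
  haveI : Fact r.Prime := ⟨h.prime⟩
  haveI : Nontrivial P := ⟨⟨⟨z, mz⟩, 1, fun he => hz1 (congrArg Subtype.val he)⟩⟩
  haveI := hpg.center_nontrivial
  obtain ⟨c, hc⟩ := exists_ne (1 : Subgroup.center P)
  have hc1 : ((c : P) : X) ≠ 1 := by
    intro he
    exact hc (Subtype.ext (Subtype.ext he))
  have hcc : ∀ g ∈ P, ((c : P) : X) * g = g * ((c : P) : X) := by
    intro g hg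
    have h2 := (Subgroup.mem_center_iff.1 c.2) ⟨g, hg⟩
    exact (congrArg Subtype.val h2).symm
  have hcM : ((c : P) : X) ∈ M := by
    refine B.cent_eq hM hz hz1 hzc ?_
    rw [Subgroup.mem_centralizer_singleton_iff]
    exact hcc z mz
  have hcM' : ((c : P) : X) ∈ M' := by
    refine B.cent_eq hM' hz' hz1' hzc' ?_
    rw [Subgroup.mem_centralizer_singleton_iff]
    exact hcc z' mz'
  have he := B.uniq hM hM' hcM hcM' hc1
  exact hxM (he ▸ hxM')

end Pool.Agent.BFS
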