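import Pool.Agent.BFS.BD
import Pool.Agent.BFS.AB

/-!
# BFS/BF: groups `F⟨a⟩`, theorem B

`hyp_of` gives `Hyp p r (MulAut.conjNormal a)`; the centraliser in `F` of `x : F` is solvable: it embeds into (is isomorphic to)
`F ⊓ Subgroup.centralizer {(x : G)}`.  `thmB`: `F` is locally finite.  First conclusion: `nil_lf` with `S = ⊤` (`3 * hh p`) and `FRK.mem_ucs_iff`: the
upper central series of `F` reaches `⊤` at `3 * hh p`.  Second conclusion: as at the end of `FRK/GO` (`main_r`): `F` has finite index in `G`, `FRB.lf_ext`.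
-/

set_option autoImplicit false

namespace Pool.Agent.BFS

open Pool.Agent.FRB (Inv LF SS)
open Pool.Agent.FRS (Hyp rs qt)
open Pool.Agent.FRK (hh ic Hc)

universe u

/-- the centraliser in the group `F` of an element is solvable -/
private theorem bf_sol {G : Type u} [Group G] (F : Subgroup G) (x : F)
    (hs : Group.IsSolvable (F ⊓ Subgroup.centralizer ({(x : G)} : Set G) : Subgroup G)) :
    Group.IsSolvable (Subgroup.centralizer ({x} : Set F)) := by
  obtain ⟨f, hf⟩ : ∃ f : Subgroup.centralizer ({x} : Set F) →*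
      (F ⊓ Subgroup.centralizer ({(x : G)} : Set G) : Subgroup G), Function.Injective f := by
    refine ⟨{
      toFun := fun y => ⟨((y : F) : G), (y : F).2, ?_⟩
      map_one' := rfl
      map_mul' := fun _ _ => rfl }, ?_⟩
    · have h1 := Subgroup.mem_centralizer_singleton_iff.1 y.2
      have h2 := congrArg (fun z : F => (z : G)) h1
      exact Subgroup.mem_centralizer_singleton_iff.2 h2
    · intro y z hyz
      have h1 := congrArg Subtype.val hyz
      exact Subtype.ext (Subtype.ext h1)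
  exact Group.isSolvable_of_isSolvable_injective hf

/-- a locally finite group of type `F`, as a subgroup -/
private theorem bf_lf {G : Type u} [Group G] (F : Subgroup G) (h : LF (⊤ : Subgroup F)) : LF F := by
  classical
  intro s hs
  obtain ⟨t, ht⟩ : ∃ t : Finset F, t = s.attach.image
    fun z : {x // x ∈ s} => (⟨z.1, hs (Finset.mem_coe.2 z.2)⟩ : F) := ⟨_, rfl⟩
  have e : (fun z : F => (z : G)) '' (t : Set F) = (s : Set G) := by
    ext z
    constructor
    · rintro ⟨w, hw, rfl⟩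
      rw [ht] at hw
      obtain ⟨v, _, rfl⟩ := Finset.mem_image.1 (Finset.mem_coe.1 hw)
      exact v.2
    · intro hz
      refine ⟨⟨z, hs hz⟩, ?_, rfl⟩
      rw [ht]
      exact Finset.mem_coe.2 (Finset.mem_image.2
        ⟨⟨z, Finset.mem_coe.1 hz⟩, Finset.mem_attach _ _, rfl⟩)
  have e2 : (Subgroup.closure (t : Set F)).map F.subtype =
      Subgroup.closure ((fun x : F => (x : G)) '' (t : Set F)) := MonoidHom.map_closure F.subtype _
  rw [← e, ← e2, Subgroup.coe_map]
  exact (h t (fun _ _ => Subgroup.mem_top _)).image _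

theorem glueB {p : ℕ} (hp : p.Prime) (h5 : 5 ≤ p) {G : Type u} [Group G] (F : Subgroup G) (a : G)
    (hFn : F.Normal) (ha : orderOf a = p) (hgen : ∀ g : G, ∃ f ∈ F, ∃ k : ℕ, g = f * a ^ k)
    (hfpf : ∀ f ∈ F, a * f * a⁻¹ = f → f = 1)
    (hbin : ∀ x y : G, ((Subgroup.closure ({x, y} : Set G) : Subgroup G) : Set G).Finite)
    (r : ℕ) (hr : r.Prime) (hb : (p - 1) ^ (2 ^ (p - 1) - 1) * (p + 1) < 2 * r)
    (hF : ∀ f ∈ F, ∃ n : ℕ, orderOf f = r ^ n)
    (hs : ∀ x ∈ F, x ≠ 1 → Group.IsSolvable (F ⊓ Subgroup.centralizer ({x} : Set G) : Subgroup G)) :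
    Subgroup.upperCentralSeries F (3 * (p - 1) ^ (2 ^ (p - 1) - 1)) = ⊤ ∧
      ∀ s : Finset G, ((Subgroup.closure (s : Set G) : Subgroup G) : Set G).Finite := by
  have hBig : Big p r := ⟨hp, h5, hr, hb⟩
  have hF' : ∀ f ∈ F, ∃ n : ℕ, f ^ (r ^ n) = 1 := by
    intro f hf
    obtain ⟨n, hn⟩ := hF f hf
    exact ⟨n, by rw [← hn]; exact pow_orderOf_eq_one f⟩
  have H : Hyp p r (MulAut.conjNormal a : MulAut F) := hyp_of hp F a ha hfpf hbin r hF'
  have hs' : ∀ x : F, x ≠ 1 → Group.IsSolvable (Subgroup.centralizer ({x} : Set F)) := by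
    intro x hx
    exact bf_sol F x (hs x x.2 fun h => hx (Subtype.ext h))
  have hLF : LF (⊤ : Subgroup F) := thmB hBig H hs'
  refine ⟨?_, ?_⟩
  · have hHc : Hc (⊤ : Subgroup F) ⊤ (3 * hh p) := nil_lf hBig H (fun _ _ => Subgroup.mem_top _) hLF
    rw [eq_top_iff]
    intro x _
    refine (FRK.mem_ucs_iff _ x).2 fun l hl => ?_
    exact hHc x (Subgroup.mem_top _) l (fun _ _ => Subgroup.mem_top _) hl
  · have hN : LF F := bf_lf F hLF
    have hfin : (Set.univ : Set (G ⧸ F)).Finite := by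
      refine ((Finset.range p).finite_toSet.image fun i => ((a ^ i : G) : G ⧸ F)).subset ?_
      intro q _
      obtain ⟨g, rfl⟩ := QuotientGroup.mk_surjective q
      obtain ⟨f, hf, i, rfl⟩ := hgen g
      refine ⟨i % p, Finset.mem_coe.2 (Finset.mem_range.2 (Nat.mod_lt _ hp.pos)), ?_⟩
      have h1 : a ^ (i % p) = a ^ i := by
        rw [← ha, pow_mod_orderOf]
      have h2 : ((f : G) : G ⧸ F) = 1 := (QuotientGroup.eq_one_iff f).2 hf
      change ((a ^ (i % p) : G) : G ⧸ F) = ((f * a ^ i : G) : G ⧸ F)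
      rw [h1, QuotientGroup.mk_mul, h2, one_mul]
    intro s
    exact FRB.lf_ext F hN (fun t => hfin.subset (Set.subset_univ _)) s (fun _ _ => Subgroup.mem_top _)

end Pool.Agent.BFS
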