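import Pool.Agent.BFS.NC
import Pool.Agent.BFS.BA

/-!
# BFS/CB: the minimal configuration: all centralisers locally finite, the group not locally finite

`Bc`: the standing hypotheses of theorem B'.  `nrm`: normalisers of invariant locally finite subgroups are locally finite; `uniq`: maximal locally
finite invariant subgroups meet trivially.
-/

set_option autoImplicit false

namespace Pool.Agent.BFS

open Pool.Agent.FRB (Inv LF SS)
open Pool.Agent.FRS (Hyp rs qt)
open Pool.Agent.FRK (hh ic Hc)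

universe u

variable {p r : ℕ} {X : Type u} [Group X] {a : MulAut X}

/-- the standing hypotheses of theorem B' -/
structure Bc (p r : ℕ) {X : Type*} [Group X] (a : MulAut X) : Prop where
  root : Big p r
  hyp : Hyp p r a
  clf : ∀ x : X, x ≠ 1 → LF (Subgroup.centralizer ({x} : Set X))

theorem kk_inv (a : MulAut X) (x : X) : Inv a (KK a x) := FRS.inv_orb a x

theorem kk_mem (a : MulAut X) (x : X) : x ∈ KK a x := Subgroup.subset_closure ⟨0, by simp⟩

theorem kk_lf (H : Hyp p r a) (x : X) : LF (KK a x) := by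
  intro s hs
  exact (H.orb x).subset (fun y hy => (Subgroup.closure_le _).2 hs hy)

theorem Bc.nrm (B : Bc p r a) {D : Subgroup X} (hi : Inv a D) (hl : LF D) {d : X} (hd : d ∈ D) (h1 : d ≠ 1) :
    LF (Subgroup.normalizer (D : Set X)) :=
  nrm_fin B.root B.hyp hi hl (FRB.lf_mono (Subgroup.centralizer_le (Set.singleton_subset_iff.2 hd)) (B.clf d h1))

theorem Bc.uniq (B : Bc p r a) {M M' : Subgroup X} (hM : Mx a M) (hM' : Mx a M') {y : X} (hy : y ∈ M) (hy' : y ∈ M')
    (h1 : y ≠ 1) : M = M' := by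
  have key : ∀ {M M' : Subgroup X}, Mx a M → Mx a M' → y ∈ M → y ∈ M' → M' ≤ M := by
    intro M M' hM hM' hy hy'
    refine FRK.max_uniq (fun D hD => FRK.inv_nrm B.hyp hD) (fun T hT hl => ⟨_, nil_lf B.root B.hyp hT hl⟩) hM.inv
      hM.lf hM.max {y} (Set.singleton_subset_iff.2 hy) ?_ M' hM'.inv hM'.lf (Set.singleton_subset_iff.2 hy')
    intro D hD hl hyD
    exact B.nrm hD hl (hyD rfl) h1
  exact le_antisymm (key hM' hM hy' hy) (key hM hM' hy hy')

theorem Bc.nrm_mx (B : Bc p r a) {M : Subgroup X} (hM : Mx a M) {y : X} (hy : y ∈ M) (h1 : y ≠ 1) :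
    Subgroup.normalizer (M : Set X) ≤ M :=
  hM.max _ (FRK.inv_nrm B.hyp hM.inv) (B.nrm hM.inv hM.lf hy h1) Subgroup.le_normalizer

theorem ex_mx {T : Subgroup X} (hi : Inv a T) (hl : LF T) : ∃ M : Subgroup X, Mx a M ∧ T ≤ M := by
  obtain ⟨M, h1, h2, h3, h4⟩ := FRK.exists_max hi hl
  exact ⟨M, ⟨h2, h3, h4⟩, h1⟩

theorem ex_el (H : Hyp p r a) (x : X) : ∃ M : Subgroup X, Mx a M ∧ x ∈ M := by
  obtain ⟨M, h1, h2⟩ := ex_mx (kk_inv a x) (kk_lf H x)
  exact ⟨M, h1, h2 (kk_mem a x)⟩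

end Pool.Agent.BFS
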