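import Pool.Agent.BFS.CB
import Pool.Agent.FRK.GB

/-!
# BFS/CC: centralisers of central elements of maximal locally finite invariant subgroups

`1 ≠ z ∈ Z(M)`: the centraliser of `z` is `M`.  Let `n` be maximal with a commutator `e = [x₀, g₁, .., g_n] ≠ 1` in `M`; all such commutators are central
in `M`.  If `w ∉ M` commutes with `z`, then the orbits of the `x₀`, `g_i` and `w` generate a finite group `S`, and some `g ∈ S \ M` normalises
`T = S ⊓ M`; the conjugates of the `a^i e` under `g` are central in `M`, so `g M g⁻¹` centralises `KK a e`, so it is contained in `M`.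
-/

set_option autoImplicit false

namespace Pool.Agent.BFS

open Pool.Agent.FRB (Inv LF SS)
open Pool.Agent.FRS (Hyp rs qt)
open Pool.Agent.FRK (hh ic Hc)

universe u

variable {p r : ℕ} {X : Type u} [Group X] {a : MulAut X}

private theorem CC_ic_mem {M : Subgroup X} (l : List X) : ∀ x ∈ M, (∀ g ∈ l, g ∈ M) → ic x l ∈ M := by
  induction l with
  | nil => intro x hx _; exact hx
  | cons g l ih =>
    intro x hx hl
    have hg : g ∈ M := hl g (by simp)
    exact ih _ (M.mul_mem (M.mul_mem (M.mul_mem hx hg) (M.inv_mem hx)) (M.inv_mem hg)) (fun u hu => hl u (by simp [hu]))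

private theorem CC_ic_app (x : X) (l l' : List X) : ic x (l ++ l') = ic (ic x l) l' := List.foldl_append

/-- a finite `r`-group: an element outside `M` normalising `S ⊓ M` -/
private theorem CC_grow (hr : r.Prime) (ht : ∀ x : X, ∃ n : ℕ, x ^ (r ^ n) = 1) {S M : Subgroup X} (hS : (S : Set X).Finite)
    {w : X} (hw : w ∈ S) (hwM : w ∉ M) :
    ∃ g ∈ S, g ∉ M ∧ (∀ t ∈ S ⊓ M, g * t * g⁻¹ ∈ S ⊓ M) ∧ ∀ t ∈ S ⊓ M, g⁻¹ * t * g ∈ S ⊓ M := by
  haveI : Finite S := hS.to_subtype
  haveI : Fact r.Prime := ⟨hr⟩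
  have hpg : IsPGroup r S := by
    intro g
    obtain ⟨n, hn⟩ := ht (g : X)
    exact ⟨n, Subtype.ext hn⟩
  haveI : Group.IsNilpotent S := hpg.isNilpotent
  have hlt : M.subgroupOf S < ⊤ := by
    rw [lt_top_iff_ne_top]
    intro he
    have h1 : (⟨w, hw⟩ : S) ∈ M.subgroupOf S := by rw [he]; exact Subgroup.mem_top _
    exact hwM (Subgroup.mem_subgroupOf.1 h1)
  have h2 := Group.normalizerCondition_of_isNilpotent _ hlt
  obtain ⟨g, hg, hgM⟩ := SetLike.exists_of_lt h2
  rw [Subgroup.mem_normalizer_iff] at hg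
  refine ⟨g, g.2, fun h => hgM (Subgroup.mem_subgroupOf.2 h), ?_, ?_⟩
  · rintro t ⟨ht1, ht2⟩
    have h3 := (hg ⟨t, ht1⟩).1 (Subgroup.mem_subgroupOf.2 ht2)
    exact ⟨S.mul_mem (S.mul_mem g.2 ht1) (S.inv_mem g.2), Subgroup.mem_subgroupOf.1 h3⟩
  · rintro t ⟨ht1, ht2⟩
    have h4 : (g : X)⁻¹ * t * g ∈ S := S.mul_mem (S.mul_mem (S.inv_mem g.2) ht1) g.2
    have h3 := (hg ⟨_, h4⟩).2 (Subgroup.mem_subgroupOf.2 (by
      have : ((g * ⟨(g : X)⁻¹ * t * g, h4⟩ * g⁻¹ : S) : X) = t := by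
        show (g : X) * ((g : X)⁻¹ * t * g) * (g : X)⁻¹ = t
        group
      rw [this]
      exact ht2))
    exact ⟨h4, Subgroup.mem_subgroupOf.1 h3⟩

theorem Bc.cent_eq (B : Bc p r a) {M : Subgroup X} (hM : Mx a M) {z : X} (hz : z ∈ M) (h1 : z ≠ 1)
    (hc : ∀ g ∈ M, Commute z g) : Subgroup.centralizer ({z} : Set X) ≤ M := by
  classical
  intro w hw
  by_contra hwM
  -- the maximal length of a nontrivial commutator in `M`
  obtain ⟨n, ⟨x₀, hx₀, l₀, hl₀, hlen, hne⟩, hn1⟩ : ∃ n : ℕ, (∃ x ∈ M, ∃ l : List X, (∀ g ∈ l, g ∈ M) ∧ l.length = n ∧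
      ic x l ≠ 1) ∧ ∀ x ∈ M, ∀ l : List X, (∀ g ∈ l, g ∈ M) → l.length = n + 1 → ic x l = 1 := by
    have hex : ∃ n : ℕ, ∀ x ∈ M, ∀ l : List X, (∀ g ∈ l, g ∈ M) → l.length = n → ic x l = 1 :=
      ⟨_, nil_lf B.root B.hyp hM.inv hM.lf⟩
    have hs := Nat.find_spec hex
    have hm := fun m => Nat.find_min (H := hex) (m := m)
    set N := Nat.find hex with hN
    cases hN' : N with
    | zero =>
      exfalso
      rw [hN'] at hs
      exact h1 (hs z hz [] (by simp) rfl)
    | succ n =>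
      refine ⟨n, ?_, ?_⟩
      · have h2 := hm n (by omega)
        push Not at h2
        exact h2
      · rw [hN'] at hs
        exact hs
  have hcen : ∀ x ∈ M, ∀ l : List X, (∀ g ∈ l, g ∈ M) → l.length = n → ∀ m ∈ M, Commute (ic x l) m := by
    intro x hx l hl hle m hm
    have h2 := hn1 x hx (l ++ [m]) (by
      intro g hg
      rcases List.mem_append.1 hg with h | h
      · exact hl g h
      · rw [List.mem_singleton.1 h]; exact hm) (by simp [hle])
    rw [CC_ic_app] at h2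
    have h3 : ic x l * m * (ic x l)⁻¹ * m⁻¹ = 1 := h2
    show ic x l * m = m * ic x l
    have h4 := mul_inv_eq_one.1 h3
    exact mul_inv_eq_iff_eq_mul.1 h4
  have hai : ∀ i : ℕ, ∀ x ∈ M, (a ^ i) x ∈ M := by
    intro i
    induction i with
    | zero => intro x hx; simpa using hx
    | succ i ih => intro x hx; rw [pow_succ', MulAut.mul_apply]; exact hM.inv _ (ih x hx)
  have hmap : ∀ i : ℕ, (a ^ i) (ic x₀ l₀) = ic ((a ^ i) x₀) (l₀.map (a ^ i)) := by
    intro i
    exact FRK.ic_map ((a ^ i : MulAut X) : X →* X) x₀ l₀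
  obtain ⟨e, he⟩ : ∃ e : X, e = ic x₀ l₀ := ⟨_, rfl⟩
  have he1 : e ≠ 1 := by rw [he]; exact hne
  have heM : ∀ i : ℕ, ∀ m ∈ M, Commute ((a ^ i) e) m := by
    intro i
    rw [he, hmap i]
    refine hcen _ (hai i _ hx₀) _ ?_ (by rw [List.length_map, hlen])
    intro g hg
    obtain ⟨u, hu, rfl⟩ := List.mem_map.1 hg
    exact hai i _ (hl₀ u hu)
  have hKM : ∀ k ∈ KK a e, ∀ m ∈ M, Commute k m := by
    intro k hk m hm
    refine Subgroup.closure_induction (p := fun k _ => Commute k m) ?_ (Commute.one_left m)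
      (fun x y _ _ hx hy => hx.mul_left hy) (fun x _ hx => hx.inv_left) hk
    rintro _ ⟨i, rfl⟩
    exact heM i m hm
  have hnle : Subgroup.normalizer (KK a e : Set X) ≤ M := by
    refine hM.max _ (FRK.inv_nrm B.hyp (kk_inv a e)) (B.nrm (kk_inv a e) (kk_lf B.hyp e) (kk_mem a e) he1) ?_
    intro m hm
    rw [Subgroup.mem_normalizer_iff]
    intro k
    constructor
    · intro hk
      have : m * k * m⁻¹ = k := by rw [← (hKM k hk m hm).eq, mul_inv_cancel_right]
      rw [this]; exact hk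
    · intro hk
      have h3 := hKM _ hk m hm
      have h4 : m * k * m⁻¹ = k := by
        have h5 : (m * k * m⁻¹) * m = m * (m * k * m⁻¹) := h3.eq
        rw [inv_mul_cancel_right] at h5
        exact (mul_left_cancel h5).symm
      rw [h4] at hk; exact hk
  have hcle : ∀ y : X, (∀ k ∈ KK a e, Commute y k) → y ∈ M := by
    intro y hy
    apply hnle
    rw [Subgroup.mem_normalizer_iff]
    intro k
    constructor
    · intro hk
      have : y * k * y⁻¹ = k := by rw [(hy k hk).eq, mul_inv_cancel_right]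
      rw [this]; exact hk
    · intro hk
      have h3 := hy _ hk
      have h4 : y * k * y⁻¹ = k := by
        have h5 : y * (y * k * y⁻¹) = (y * k * y⁻¹) * y := h3.eq
        rw [inv_mul_cancel_right] at h5
        exact mul_left_cancel h5
      rw [h4] at hk; exact hk
  -- the finite group
  obtain ⟨Y, hY⟩ : ∃ Y : Finset X, Y = insert w ((x₀ :: l₀).toFinset.biUnion fun y => (Finset.range p).image fun i => (a ^ i) y) :=
    ⟨_, rfl⟩
  have hMC : M ≤ Subgroup.centralizer ({z} : Set X) := by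
    intro g hg
    rw [Subgroup.mem_centralizer_singleton_iff]
    exact (hc g hg).symm.eq
  have hYC : (Y : Set X) ⊆ Subgroup.centralizer ({z} : Set X) := by
    intro y hy
    rw [hY] at hy
    rcases Finset.mem_insert.1 (Finset.mem_coe.1 hy) with rfl | hy
    · exact hw
    · obtain ⟨u, hu, hy⟩ := Finset.mem_biUnion.1 hy
      obtain ⟨i, _, rfl⟩ := Finset.mem_image.1 hy
      apply hMC
      apply hai
      rcases List.mem_cons.1 (List.mem_toFinset.1 hu) with rfl | hu
      · exact hx₀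
      · exact hl₀ u hu
  have hSf := B.clf z h1 Y hYC
  obtain ⟨S, hS⟩ : ∃ S : Subgroup X, S = Subgroup.closure (Y : Set X) := ⟨_, rfl⟩
  rw [← hS] at hSf
  have hwS : w ∈ S := by
    rw [hS]
    exact Subgroup.subset_closure (Finset.mem_coe.2 (by rw [hY]; exact Finset.mem_insert_self _ _))
  have haS : ∀ u ∈ x₀ :: l₀, ∀ i : ℕ, (a ^ i) u ∈ S ⊓ M := by
    intro u hu i
    refine ⟨?_, hai i u (by rcases List.mem_cons.1 hu with rfl | hu; exacts [hx₀, hl₀ u hu])⟩
    have h2 : a ^ i = a ^ (i % p) := by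
      conv_lhs => rw [← Nat.div_add_mod i p, pow_add, pow_mul, B.hyp.powp, one_pow, one_mul]
    rw [h2, hS]
    refine Subgroup.subset_closure (Finset.mem_coe.2 ?_)
    rw [hY]
    refine Finset.mem_insert_of_mem (Finset.mem_biUnion.2 ⟨u, List.mem_toFinset.2 hu, Finset.mem_image.2 ⟨i % p, ?_, rfl⟩⟩)
    exact Finset.mem_range.2 (Nat.mod_lt _ B.hyp.pos)
  obtain ⟨g, _, hgM, hg1, hg2⟩ := CC_grow B.root.prime B.hyp.tors hSf hwS hwM
  -- elements normalising `S ⊓ M` normalise `M`
  have key : ∀ g : X, (∀ t ∈ S ⊓ M, g * t * g⁻¹ ∈ S ⊓ M) → ∀ m ∈ M, g⁻¹ * m * g ∈ M := by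
    intro g hg m hm
    apply hcle
    have h2 : ∀ k ∈ KK a e, Commute (g * k * g⁻¹) m := by
      intro k hk
      refine Subgroup.closure_induction (p := fun k _ => Commute (g * k * g⁻¹) m) ?_ (by simp)
        (fun x y _ _ hx hy => ?_) (fun x _ hx => ?_) hk
      · rintro _ ⟨i, rfl⟩
        have h3 : g * (a ^ i) e * g⁻¹ = ic (g * (a ^ i) x₀ * g⁻¹) ((l₀.map (a ^ i)).map (MulAut.conj g)) := by
          rw [he, hmap i]
          exact FRK.ic_map ((MulAut.conj g : MulAut X) : X →* X) _ _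
        show Commute (g * (a ^ i) e * g⁻¹) m
        rw [h3]
        refine hcen _ (hg _ (haS x₀ (by simp) i)).2 _ ?_ (by rw [List.length_map, List.length_map, hlen]) m hm
        intro v hv
        obtain ⟨u, hu, rfl⟩ := List.mem_map.1 hv
        obtain ⟨u', hu', rfl⟩ := List.mem_map.1 hu
        exact (hg _ (haS u' (by simp [hu']) i)).2
      · have : g * (x * y) * g⁻¹ = (g * x * g⁻¹) * (g * y * g⁻¹) := by group
        rw [this]; exact hx.mul_left hy
      · have : g * x⁻¹ * g⁻¹ = (g * x * g⁻¹)⁻¹ := by group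
        rw [this]; exact hx.inv_left
    intro k hk
    have h3 := (h2 k hk).eq
    show g⁻¹ * m * g * k = k * (g⁻¹ * m * g)
    calc g⁻¹ * m * g * k = g⁻¹ * (m * (g * k * g⁻¹)) * g := by group
      _ = g⁻¹ * ((g * k * g⁻¹) * m) * g := by rw [h3]
      _ = k * (g⁻¹ * m * g) := by group
  apply hgM
  apply B.nrm_mx hM hz h1
  rw [Subgroup.mem_normalizer_iff]
  intro m
  constructor
  · intro hm
    have := key g⁻¹ (fun t ht => by rw [inv_inv]; exact hg2 t ht) m hm
    rwa [inv_inv] at this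
  · intro hm
    have := key g hg1 _ hm
    have h5 : g⁻¹ * (g * m * g⁻¹) * g = m := by group
    rwa [h5] at this

end Pool.Agent.BFS
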