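import Pool.Agent.BFS.CC

/-!
# BFS/CD: if all centralisers are locally finite, then the group is locally finite

Suppose not.  `M` maximal with `1 ≠ y ∈ M`, `x ∉ M`, `M'` maximal with `x ∈ M'`; `1 ≠ z ∈ Z(M)`, `1 ≠ z' ∈ Z(M')`.  `P = closure {z, z'}` is a finite
`r`-group, not trivial, so `1 ≠ c ∈ Z(P)`; `c` commutes with `z` and `z'`, so `c ∈ M`, `c ∈ M'` (`Bc.cent_eq`), so `M = M'` (`Bc.uniq`).
-/

set_option autoImplicit false

namespace Pool.Agent.BFS

open Pool.Agent.FRB (Inv LF SS)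
open Pool.Agent.FRS (Hyp rs qt)
open Pool.Agent.FRK (hh ic Hc)

universe u

variable {p r : ℕ} {X : Type u} [Group X] {a : MulAut X}

/-- a central element of a maximal subgroup -/
private theorem CD_cen (h : Big p r) (H : Hyp p r a) {M : Subgroup X} (hM : Mx a M) {y : X} (hy : y ∈ M) (h1 : y ≠ 1) :
    ∃ z ∈ M, z ≠ 1 ∧ ∀ g ∈ M, Commute z g := by
  refine cen_ex (fun g hg s hs => M.mul_mem (M.mul_mem (M.inv_mem hg) hs) hg) (nil_lf h H hM.inv hM.lf) ?_
  rintro rfl
  exact h1 (Subgroup.mem_bot.1 hy)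

theorem thmC (h : Big p r) (H : Hyp p r a)
    (hs : ∀ x : X, x ≠ 1 → LF (Subgroup.centralizer ({x} : Set X))) : LF (⊤ : Subgroup X) := by
  by_contra hlf
  have B : Bc p r a := ⟨h, H, hs⟩
  obtain ⟨M₀, hM₀, -⟩ := ex_el H 1
  have hy : ∃ y : X, y ≠ 1 := by
    by_contra hy
    push Not at hy
    apply hlf
    have : (⊤ : Subgroup X) = M₀ := by
      ext g
      rw [hy g]
      exact ⟨fun _ => M₀.one_mem, fun _ => Subgroup.mem_top _⟩
    rw [this]
    exact hM₀.lf
  obtain ⟨y, hy1⟩ := hy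
  obtain ⟨M, hM, hyM⟩ := ex_el H y
  have hx : ∃ x : X, x ∉ M := by
    by_contra hx
    push Not at hx
    apply hlf
    rw [(Subgroup.eq_top_iff' M).2 hx |>.symm]
    exact hM.lf
  obtain ⟨x, hxM⟩ := hx
  have hx1 : x ≠ 1 := by
    rintro rfl
    exact hxM M.one_mem
  obtain ⟨M', hM', hxM'⟩ := ex_el H x
  obtain ⟨z, hz, hz1, hzc⟩ := CD_cen h H hM hyM hy1
  obtain ⟨z', hz', hz1', hzc'⟩ := CD_cen h H hM' hxM' hx1
  set P : Subgroup X := Subgroup.closure ({z, z'} : Set X) with hP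
  have hfin : Finite P := (H.two z z').to_subtype
  have mz : z ∈ P := Subgroup.subset_closure (by simp)
  have mz' : z' ∈ P := Subgroup.subset_closure (by simp)
  have hpg : IsPGroup r P := by
    intro g
    obtain ⟨n, hn⟩ := H.tors (g : X)
    exact ⟨n, Subtype.ext hn⟩
  haveI : Fact r.Prime := ⟨h.prime⟩
  haveI : Nontrivial P := ⟨⟨⟨z, mz⟩, 1, fun he => hz1 (congrArg Subtype.val he)⟩⟩
  haveI := hpg.center_nontrivial
  obtain ⟨c, hc⟩ := exists_ne (1 : Subgroup.center P)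
  have hc1 : ((c : P) : X) ≠ 1 := by
    intro he
    exact hc (Subtype.ext (Subtype.ext he))
  have hcc : ∀ g ∈ P, ((c : P) : X) * g = g * ((c : P) : X) := by
    intro g hg
    have h2 := (Subgroup.mem_center_iff.1 c.2) ⟨g, hg⟩
    exact (congrArg Subtype.val h2).symm
  have hcM : ((c : P) : X) ∈ M := by
    refine B.cent_eq hM hz hz1 hzc ?_
    rw [Subgroup.mem_centralizer_singleton_iff]
    exact hcc z mz
  have hcM' : ((c : P) : X) ∈ M' := by
    refine B.cent_eq hM' hz' hz1' hzc' ?_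
    rw [Subgroup.mem_centralizer_singleton_iff]
    exact hcc z' mz'
  have he := B.uniq hM hM' hcM hcM' hc1
  exact hxM (he ▸ hxM')

end Pool.Agent.BFS
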