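import Pool.Agent.BFS.CD
import Pool.Agent.FRB.Rad

/-!
# BFS/CE: centralisers modulo a locally finite normal subgroup; no minimal counterexample

`thmR`: `thmC` for `X ⧸ R` (`FRS.qt_hyp`), then `FRB.lf_ext`.
`thmP`: `R = FRB.rad a`; if `x ∉ R` and `[x, y] ∈ R` for all `y`, then `R ⊔ KK a x` is normal, invariant and locally finite, a contradiction.
-/

set_option autoImplicit false

namespace Pool.Agent.BFS

open Pool.Agent.FRB (Inv LF SS)
open Pool.Agent.FRS (Hyp rs qt)
open Pool.Agent.FRK (hh ic Hc)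

universe u

variable {p r : ℕ} {X : Type u} [Group X] {a : MulAut X}

theorem thmR (h : Big p r) (H : Hyp p r a) (R : Subgroup X) [R.Normal] (hRi : Inv a R) (hRl : LF R)
    (hc : ∀ x : X, x ∉ R → ∀ s : Finset X, (∀ y ∈ s, x * y * x⁻¹ * y⁻¹ ∈ R) →
      ((Subgroup.closure (s : Set X) : Subgroup X) : Set X).Finite) : LF (⊤ : Subgroup X) := by
  classical
  have H' := FRS.qt_hyp H R hRi
  have hLF : LF (⊤ : Subgroup (X ⧸ R)) := by
    refine thmC h H' ?_
    intro q hq s hs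
    obtain ⟨x, rfl⟩ := QuotientGroup.mk_surjective q
    have hx : x ∉ R := fun hx => hq ((QuotientGroup.eq_one_iff x).2 hx)
    obtain ⟨t, ht⟩ : ∃ t : Finset X, t = s.image (fun q : X ⧸ R => q.out) := ⟨_, rfl⟩
    have htm : ∀ y ∈ t, ((y : X) : X ⧸ R) ∈ s := by
      intro y hy
      rw [ht] at hy
      obtain ⟨q, hq, rfl⟩ := Finset.mem_image.1 hy
      rw [QuotientGroup.out_eq']
      exact hq
    have h1 := hc x hx t (by
      intro y hy
      have h2 := hs (Finset.mem_coe.2 (htm y hy))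
      have h3 := (Subgroup.mem_centralizer_singleton_iff).1 h2
      rw [← QuotientGroup.eq_one_iff]
      have h4 : ((x * y * x⁻¹ * y⁻¹ : X) : X ⧸ R) = (x : X ⧸ R) * (y : X ⧸ R) * (x : X ⧸ R)⁻¹ * (y : X ⧸ R)⁻¹ := rfl
      rw [h4, ← h3]
      group)
    have h5 : Subgroup.closure (s : Set (X ⧸ R)) ≤ (Subgroup.closure (t : Set X)).map (QuotientGroup.mk' R) := by
      rw [Subgroup.closure_le]
      intro q hq
      refine ⟨q.out, Subgroup.subset_closure (Finset.mem_coe.2 ?_), ?_⟩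
      · rw [ht]
        exact Finset.mem_image.2 ⟨q, Finset.mem_coe.1 hq, rfl⟩
      · exact QuotientGroup.out_eq' q
    refine Set.Finite.subset ?_ h5
    rw [Subgroup.coe_map]
    exact h1.image _
  exact FRB.lf_ext R hRl (fun s => hLF s (fun _ _ => Subgroup.mem_top _))

theorem thmP (h : Big p r) (H : Hyp p r a) (hc : ∀ T : Subgroup X, T ≠ ⊤ → LF T) : LF (⊤ : Subgroup X) := by
  classical
  obtain ⟨R, hR⟩ : ∃ R : Subgroup X, R = FRB.rad a := ⟨_, rfl⟩
  have hRn : R.Normal := hR ▸ FRB.rad_normal a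
  have hRi : Inv a R := hR ▸ FRB.rad_inv a
  have hRl : LF R := hR ▸ FRB.rad_lf a
  have hRm : ∀ L : Subgroup X, L.Normal → Inv a L → LF L → L ≤ R := fun L h1 h2 h3 => hR ▸ FRB.rad_max h1 h2 h3
  refine thmR h H R hRi hRl ?_
  intro x hx s hs
  obtain ⟨T, hT⟩ : ∃ T : Subgroup X, T = (Subgroup.centralizer ({(x : X ⧸ R)} : Set (X ⧸ R))).comap (QuotientGroup.mk' R) :=
    ⟨_, rfl⟩
  have hmem : ∀ y : X, y ∈ T ↔ x * y * x⁻¹ * y⁻¹ ∈ R := by
    intro y
    rw [hT, Subgroup.mem_comap, Subgroup.mem_centralizer_singleton_iff, ← QuotientGroup.eq_one_iff]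
    have h4 : ((x * y * x⁻¹ * y⁻¹ : X) : X ⧸ R) = (x : X ⧸ R) * (y : X ⧸ R) * (x : X ⧸ R)⁻¹ * (y : X ⧸ R)⁻¹ := rfl
    rw [h4]
    constructor
    · intro h3
      have h3' : (y : X ⧸ R) * (x : X ⧸ R) = (x : X ⧸ R) * (y : X ⧸ R) := h3
      rw [← h3']
      group
    · intro h3
      show (y : X ⧸ R) * (x : X ⧸ R) = (x : X ⧸ R) * (y : X ⧸ R)
      have h5 := mul_inv_eq_one.1 h3
      exact (mul_inv_eq_iff_eq_mul.1 h5).symm
  by_cases hTt : T = ⊤
  · exfalso
    have hall : ∀ i : ℕ, ∀ y : X, (a ^ i) x * y * ((a ^ i) x)⁻¹ * y⁻¹ ∈ R := by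
      intro i
      induction i with
      | zero =>
        intro y
        have := (hmem y).1 (by rw [hTt]; exact Subgroup.mem_top _)
        simpa using this
      | succ i ih =>
        intro y
        have h2 := hRi _ (ih (a⁻¹ y))
        rw [map_mul, map_mul, map_mul, map_inv, map_inv, MulAut.apply_inv_self] at h2
        rw [pow_succ', MulAut.mul_apply]
        exact h2
    have hconj : ∀ k ∈ KK a x, ∀ y : X, y * k * y⁻¹ * k⁻¹ ∈ R := by
      intro k hk
      refine Subgroup.closure_induction (p := fun k _ => ∀ y : X, y * k * y⁻¹ * k⁻¹ ∈ R) ?_ ?_ ?_ ?_ hk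
      · rintro _ ⟨i, rfl⟩ y
        have h2 := R.inv_mem (hall i y)
        have h3 : ((a ^ i) x * y * ((a ^ i) x)⁻¹ * y⁻¹)⁻¹ = y * (a ^ i) x * y⁻¹ * ((a ^ i) x)⁻¹ := by group
        rwa [h3] at h2
      · intro y
        simpa using R.one_mem
      · intro k k' _ _ hk hk' y
        have h2 : y * (k * k') * y⁻¹ * (k * k')⁻¹ =
            (y * k * y⁻¹ * k⁻¹) * (k * (y * k' * y⁻¹ * k'⁻¹) * k⁻¹) := by group
        rw [h2]
        exact R.mul_mem (hk y) (hRn.conj_mem _ (hk' y) k)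
      · intro k _ hk y
        have h2 : y * k⁻¹ * y⁻¹ * k⁻¹⁻¹ = k⁻¹ * (k * y * k⁻¹ * y⁻¹) * (k⁻¹)⁻¹ := by
          group
        have h3 : y * k⁻¹ * y⁻¹ * k⁻¹⁻¹ = k⁻¹ * ((y * k * y⁻¹ * k⁻¹)⁻¹) * k := by
          have h4 := h2
          group
        rw [h3]
        have h5 := hRn.conj_mem _ (R.inv_mem (hk y)) k⁻¹
        rwa [inv_inv] at h5
    obtain ⟨L, hL⟩ : ∃ L : Subgroup X, L = R ⊔ KK a x := ⟨_, rfl⟩
    have hLi : Inv a L := by
      rw [hL]
      have h2 : R ⊔ KK a x ≤ (R ⊔ KK a x).comap (a : X →* X) := by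
        refine sup_le ?_ ?_
        · intro y hy
          exact Subgroup.mem_sup_left (hRi y hy)
        · intro y hy
          exact Subgroup.mem_sup_right (kk_inv a x y hy)
      exact fun y hy => h2 hy
    have hLn : L.Normal := by
      constructor
      intro k hk y
      rw [hL] at hk ⊢
      have h2 : R ⊔ KK a x ≤ (R ⊔ KK a x).comap ((MulAut.conj y : MulAut X) : X →* X) := by
        refine sup_le ?_ ?_
        · intro k hk
          exact Subgroup.mem_sup_left (hRn.conj_mem k hk y)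
        · intro k hk
          show y * k * y⁻¹ ∈ R ⊔ KK a x
          have h3 : y * k * y⁻¹ = (y * k * y⁻¹ * k⁻¹) * k := by group
          rw [h3]
          exact Subgroup.mul_mem _ (Subgroup.mem_sup_left (hconj k hk y)) (Subgroup.mem_sup_right hk)
      exact h2 hk
    have hLl : LF L := by
      rw [hL]
      refine FRB.lf_sup hRl (kk_lf H x) ?_
      intro t _ s hs
      have := hRn.conj_mem s hs t⁻¹
      rwa [inv_inv] at this
    have h6 := hRm L hLn hLi hLl
    apply hx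
    apply h6
    rw [hL]
    exact Subgroup.mem_sup_right (kk_mem a x)
  · exact hc T hTt s (fun y hy => (hmem y).2 (hs y (Finset.mem_coe.1 hy)))

end Pool.Agent.BFS
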