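import Pool.Agent.BFS.CE
import Pool.Agent.BFS.AB

/-!
# BFS/CF: groups `F⟨a⟩`, theorem B'

`cf_top`: if the group `F` is locally finite, then `F` is nilpotent of bounded class and `G` is locally finite.
`glueR`: centralisers modulo a locally finite normal subgroup.  `glueP`: proper subgroups.
-/

set_option autoImplicit false

namespace Pool.Agent.BFS

open Pool.Agent.FRB (Inv LF SS)
open Pool.Agent.FRS (Hyp rs qt)
open Pool.Agent.FRK (hh ic Hc)

universe u

private theorem cf_fin_of_image {G : Type u} [Group G] (F : Subgroup G) (S : Set F)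
    (h : ((Subgroup.closure ((fun x : F => (x : G)) '' S) : Subgroup G) : Set G).Finite) :
    ((Subgroup.closure S : Subgroup F) : Set F).Finite := by
  have e : (Subgroup.closure S).map F.subtype =
      Subgroup.closure ((fun x : F => (x : G)) '' S) := MonoidHom.map_closure F.subtype S
  rw [← e, Subgroup.coe_map] at h
  exact h.of_finite_image (Set.injOn_of_injective F.subtype_injective)

private theorem cf_fin_image {G : Type u} [Group G] (F : Subgroup G) (S : Set F)
    (h : ((Subgroup.closure S : Subgroup F) : Set F).Finite) :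
    ((Subgroup.closure ((fun x : F => (x : G)) '' S) : Subgroup G) : Set G).Finite := by
  have e : (Subgroup.closure S).map F.subtype =
      Subgroup.closure ((fun x : F => (x : G)) '' S) := MonoidHom.map_closure F.subtype S
  rw [← e, Subgroup.coe_map]
  exact h.image _

private theorem cf_lf_down {G : Type u} [Group G] (F : Subgroup G) {T : Subgroup G}
    {T' : Subgroup F} (h : ∀ x ∈ T', ((x : F) : G) ∈ T) (hl : LF T) : LF T' := by
  intro s hs
  classical
  apply cf_fin_of_image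
  have e : (fun z : F => (z : G)) '' (s : Set F) =
      ((s.image fun z : F => (z : G) : Finset G) : Set G) := by
    rw [Finset.coe_image]
  rw [e]
  apply hl
  intro z hz
  rw [Finset.coe_image] at hz
  obtain ⟨w, hw, rfl⟩ := hz
  exact h w (hs hw)

private theorem cf_lf_up {G : Type u} [Group G] (F : Subgroup G) {T : Subgroup G}
    {T' : Subgroup F} (hTF : T ≤ F) (h : ∀ x : F, (x : G) ∈ T → x ∈ T') (hl : LF T') : LF T := by
  intro s hs
  classical
  obtain ⟨t, ht⟩ : ∃ t : Finset F, t = s.attach.image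
    fun z : {x // x ∈ s} => (⟨z.1, hTF (hs (Finset.mem_coe.2 z.2))⟩ : F) := ⟨_, rfl⟩
  have e : (fun z : F => (z : G)) '' (t : Set F) = (s : Set G) := by
    ext z
    constructor
    · rintro ⟨w, hw, rfl⟩
      rw [ht] at hw
      obtain ⟨v, _, rfl⟩ := Finset.mem_image.1 (Finset.mem_coe.1 hw)
      exact v.2
    · intro hz
      refine ⟨⟨z, hTF (hs hz)⟩, ?_, rfl⟩
      rw [ht]
      exact Finset.mem_coe.2 (Finset.mem_image.2
        ⟨⟨z, Finset.mem_coe.1 hz⟩, Finset.mem_attach _ _, rfl⟩)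
  rw [← e]
  apply cf_fin_image
  apply hl
  intro w hw
  apply h
  rw [ht] at hw
  obtain ⟨v, _, rfl⟩ := Finset.mem_image.1 (Finset.mem_coe.1 hw)
  exact hs (Finset.mem_coe.2 v.2)

/-- the conclusion for `G` from local finiteness of `F` -/
private theorem cf_top {p : ℕ} (hp : p.Prime) (h5 : 5 ≤ p) {G : Type u} [Group G] (F : Subgroup G) (a : G)
    [F.Normal] (ha : orderOf a = p) (hgen : ∀ g : G, ∃ f ∈ F, ∃ k : ℕ, g = f * a ^ k)
    (r : ℕ) (hr : r.Prime) (hb : (p - 1) ^ (2 ^ (p - 1) - 1) * (p + 1) < 2 * r)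
    (H : Hyp p r (MulAut.conjNormal a : MulAut F)) (hl : LF (⊤ : Subgroup F)) :
    Subgroup.upperCentralSeries F (3 * (p - 1) ^ (2 ^ (p - 1) - 1)) = ⊤ ∧
      ∀ s : Finset G, ((Subgroup.closure (s : Set G) : Subgroup G) : Set G).Finite := by
  have hB : Big p r := ⟨hp, h5, hr, hb⟩
  constructor
  · have h1 := nil_lf hB H (S := ⊤) (fun _ _ => Subgroup.mem_top _) hl
    rw [eq_top_iff]
    intro x _
    rw [FRK.mem_ucs_iff]
    intro l hlen
    exact h1 x (Subgroup.mem_top _) l (fun _ _ => Subgroup.mem_top _) hlen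
  · have hN : LF F := cf_lf_up F le_rfl (fun _ _ => Subgroup.mem_top _) hl
    have hfin : (Set.univ : Set (G ⧸ F)).Finite := by
      refine ((Finset.range p).finite_toSet.image fun i => ((a ^ i : G) : G ⧸ F)).subset ?_
      intro q _
      obtain ⟨g, rfl⟩ := QuotientGroup.mk_surjective q
      obtain ⟨f, hf, i, rfl⟩ := hgen g
      refine ⟨i % p, Finset.mem_coe.2 (Finset.mem_range.2 (Nat.mod_lt _ hp.pos)), ?_⟩
      have h1 : a ^ (i % p) = a ^ i := by
        rw [← ha, pow_mod_orderOf]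
      have h2 : ((f : G) : G ⧸ F) = 1 := (QuotientGroup.eq_one_iff f).2 hf
      change ((a ^ (i % p) : G) : G ⧸ F) = ((f * a ^ i : G) : G ⧸ F)
      rw [h1, QuotientGroup.mk_mul, h2, one_mul]
    intro s
    exact FRB.lf_ext F hN (fun t => hfin.subset (Set.subset_univ _)) s (fun _ _ => Subgroup.mem_top _)

theorem glueR {p : ℕ} (hp : p.Prime) (h5 : 5 ≤ p) {G : Type u} [Group G] (F : Subgroup G) (a : G)
    (hFn : F.Normal) (ha : orderOf a = p) (hgen : ∀ g : G, ∃ f ∈ F, ∃ k : ℕ, g = f * a ^ k)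
    (hfpf : ∀ f ∈ F, a * f * a⁻¹ = f → f = 1)
    (hbin : ∀ x y : G, ((Subgroup.closure ({x, y} : Set G) : Subgroup G) : Set G).Finite)
    (r : ℕ) (hr : r.Prime) (hb : (p - 1) ^ (2 ^ (p - 1) - 1) * (p + 1) < 2 * r)
    (hF : ∀ f ∈ F, ∃ n : ℕ, orderOf f = r ^ n) (R : Subgroup G) (hRF : R ≤ F) (hRn : R.Normal) (hRl : LF R)
    (hc : ∀ x ∈ F, x ∉ R → ∀ s : Finset G, (∀ y ∈ s, y ∈ F ∧ x * y * x⁻¹ * y⁻¹ ∈ R) →
      ((Subgroup.closure (s : Set G) : Subgroup G) : Set G).Finite) :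
    Subgroup.upperCentralSeries F (3 * (p - 1) ^ (2 ^ (p - 1) - 1)) = ⊤ ∧
      ∀ s : Finset G, ((Subgroup.closure (s : Set G) : Subgroup G) : Set G).Finite := by
  classical
  have hF' : ∀ f ∈ F, ∃ n : ℕ, f ^ (r ^ n) = 1 := by
    intro f hf
    obtain ⟨n, hn⟩ := hF f hf
    exact ⟨n, by rw [← hn, pow_orderOf_eq_one]⟩
  have H := hyp_of hp F a ha hfpf hbin r hF'
  have hB : Big p r := ⟨hp, h5, hr, hb⟩
  refine cf_top hp h5 F a ha hgen r hr hb H ?_
  haveI hRn' : (R.subgroupOf F).Normal := by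
    constructor
    intro x hx f
    exact Subgroup.mem_subgroupOf.2 (hRn.conj_mem _ (Subgroup.mem_subgroupOf.1 hx) f)
  have hRi : Inv (MulAut.conjNormal a : MulAut F) (R.subgroupOf F) := by
    intro x hx
    rw [Subgroup.mem_subgroupOf, MulAut.conjNormal_apply]
    exact hRn.conj_mem _ (Subgroup.mem_subgroupOf.1 hx) a
  have hRl' : LF (R.subgroupOf F) := cf_lf_down F (fun x hx => Subgroup.mem_subgroupOf.1 hx) hRl
  refine thmR hB H (R.subgroupOf F) hRi hRl' ?_
  intro x hx s hs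
  apply cf_fin_of_image
  have e : (fun z : F => (z : G)) '' (s : Set F) =
      ((s.image fun z : F => (z : G) : Finset G) : Set G) := by
    rw [Finset.coe_image]
  rw [e]
  refine hc x x.2 (fun h => hx (Subgroup.mem_subgroupOf.2 h)) _ ?_
  intro y hy
  obtain ⟨v, hv, rfl⟩ := Finset.mem_image.1 hy
  exact ⟨v.2, Subgroup.mem_subgroupOf.1 (hs v hv)⟩

theorem glueP {p : ℕ} (hp : p.Prime) (h5 : 5 ≤ p) {G : Type u} [Group G] (F : Subgroup G) (a : G)
    (hFn : F.Normal) (ha : orderOf a = p) (hgen : ∀ g : G, ∃ f ∈ F, ∃ k : ℕ, g = f * a ^ k)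
    (hfpf : ∀ f ∈ F, a * f * a⁻¹ = f → f = 1)
    (hbin : ∀ x y : G, ((Subgroup.closure ({x, y} : Set G) : Subgroup G) : Set G).Finite)
    (r : ℕ) (hr : r.Prime) (hb : (p - 1) ^ (2 ^ (p - 1) - 1) * (p + 1) < 2 * r)
    (hF : ∀ f ∈ F, ∃ n : ℕ, orderOf f = r ^ n) (hc : ∀ T : Subgroup G, T < F → LF T) :
    Subgroup.upperCentralSeries F (3 * (p - 1) ^ (2 ^ (p - 1) - 1)) = ⊤ ∧
      ∀ s : Finset G, ((Subgroup.closure (s : Set G) : Subgroup G) : Set G).Finite := by
  have hF' : ∀ f ∈ F, ∃ n : ℕ, f ^ (r ^ n) = 1 := by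
    intro f hf
    obtain ⟨n, hn⟩ := hF f hf
    exact ⟨n, by rw [← hn, pow_orderOf_eq_one]⟩
  have H := hyp_of hp F a ha hfpf hbin r hF'
  have hB : Big p r := ⟨hp, h5, hr, hb⟩
  refine cf_top hp h5 F a ha hgen r hr hb H ?_
  refine thmP hB H ?_
  intro T hT
  have hlt : T.map F.subtype < F := by
    refine lt_of_le_of_ne ?_ ?_
    · rintro _ ⟨x, _, rfl⟩
      exact x.2
    · intro he
      apply hT
      rw [eq_top_iff]
      intro x _
      have h1 : (x : G) ∈ T.map F.subtype := by rw [he]; exact x.2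
      obtain ⟨y, hy, hxy⟩ := h1
      have h2 : y = x := Subtype.ext hxy
      rwa [← h2]
  exact cf_lf_down F (T := T.map F.subtype) (fun x hx => Subgroup.mem_map_of_mem F.subtype hx) (hc _ hlt)

end Pool.Agent.BFS
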