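import Mathlib

/-!
# BFS/DJ: an identity of Djokovic: products of `n` factors `1 - b` vanish

If every element of an abelian group acts unipotently with exponent `n` and the group has roots of all orders up
to `n`, then the product of any `n` factors `ρ b - 1` is zero: choose roots `g j ^ (j + 1) = b j`, expand the
vanishing `n`-th powers of the `ρ (∏ (g j)⁻¹) - 1` over the subsets and exchange the sums.
-/

set_option autoImplicit false

namespace Pool.Agent.BFS

universe u v

theorem djc {R : Type v} [CommRing R] {B : Type u} [CommGroup B] (ρ : B →* R) (n : ℕ)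
    (hroot : ∀ j : ℕ, 1 ≤ j → j ≤ n → ∀ b : B, ∃ g : B, g ^ j = b) (hnil : ∀ b : B, (ρ b - 1) ^ n = 0)
    (b : ℕ → B) : ∏ j ∈ Finset.range n, (ρ (b j) - 1) = 0 := by
  classical
  have hg : ∀ j : ℕ, ∃ g : B, j < n → g ^ (j + 1) = b j := by
    intro j
    by_cases hj : j < n
    · obtain ⟨g, hg⟩ := hroot (j + 1) (by omega) (by omega) (b j)
      exact ⟨g, fun _ => hg⟩
    · exact ⟨1, fun h => absurd h hj⟩
  choose g hg using hg
  have h0 : ∑ S ∈ (Finset.range n).powerset, (∏ j ∈ S, (-ρ (b j))) * ((∏ j ∈ S, ρ (g j)⁻¹) + -1) ^ n = 0 := by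
    refine Finset.sum_eq_zero fun S _ => ?_
    rw [← map_prod, ← sub_eq_add_neg, hnil, mul_zero]
  have h1 : ∑ S ∈ (Finset.range n).powerset, (∏ j ∈ S, (-ρ (b j))) * ((∏ j ∈ S, ρ (g j)⁻¹) + -1) ^ n =
      ∑ k ∈ Finset.range (n + 1), ((-1) ^ (n - k) * (n.choose k : R)) *
        ∏ j ∈ Finset.range n, (1 + (-ρ (b j)) * ρ (g j)⁻¹ ^ k) := by
    have h2 : ∀ S : Finset ℕ, (∏ j ∈ S, (-ρ (b j))) * ((∏ j ∈ S, ρ (g j)⁻¹) + -1) ^ n =
        ∑ k ∈ Finset.range (n + 1), ((-1) ^ (n - k) * (n.choose k : R)) *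
          ∏ j ∈ S, ((-ρ (b j)) * ρ (g j)⁻¹ ^ k) := by
      intro S
      rw [add_pow, Finset.mul_sum]
      refine Finset.sum_congr rfl fun k _ => ?_
      rw [Finset.prod_mul_distrib, Finset.prod_pow]
      ring
    rw [Finset.sum_congr rfl fun S _ => h2 S, Finset.sum_comm]
    refine Finset.sum_congr rfl fun k _ => ?_
    rw [← Finset.mul_sum, Finset.prod_one_add]
  rw [h0, Finset.sum_eq_single 0] at h1
  · have h3 : ∏ j ∈ Finset.range n, (ρ (b j) - 1) =
        (-1) ^ n * ∏ j ∈ Finset.range n, (1 + (-ρ (b j)) * ρ (g j)⁻¹ ^ 0) := by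
      have h4 : ∀ j ∈ Finset.range n, ρ (b j) - 1 = (-1) * (1 + (-ρ (b j)) * ρ (g j)⁻¹ ^ 0) := by
        intro j _
        rw [pow_zero]
        ring
      rw [Finset.prod_congr rfl h4, Finset.prod_mul_distrib, Finset.prod_const, Finset.card_range]
    rw [h3]
    simpa using h1.symm
  · intro k hk hk0
    rw [Finset.mem_range] at hk
    have hk1 : k - 1 ∈ Finset.range n := by
      rw [Finset.mem_range]
      omega
    rw [Finset.prod_eq_zero hk1, mul_zero]
    have h5 := hg (k - 1) (by omega)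
    rw [show k - 1 + 1 = k by omega] at h5
    rw [← h5, ← map_pow, neg_mul, ← map_mul, inv_pow, mul_inv_cancel, map_one, add_neg_cancel]
  · intro h
    exact absurd (Finset.mem_range.2 (Nat.succ_pos n)) h

theorem dj {R : Type v} [Ring R] {B : Type u} [CommGroup B] (ρ : B →* R) (n : ℕ)
    (hroot : ∀ j : ℕ, 1 ≤ j → j ≤ n → ∀ b : B, ∃ g : B, g ^ j = b) (hnil : ∀ b : B, (ρ b - 1) ^ n = 0)
    (l : List B) (hl : l.length = n) : (l.map fun b => ρ b - 1).prod = 0 := by
  have hc : ∀ x ∈ Set.range ρ, ∀ y ∈ Set.range ρ, x * y = y * x := by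
    rintro _ ⟨a, rfl⟩ _ ⟨c, rfl⟩
    rw [← map_mul, ← map_mul, mul_comm]
  letI : CommRing (Subring.closure (Set.range ρ)) := Subring.closureCommRingOfComm hc
  let ρ' : B →* Subring.closure (Set.range ρ) :=
    { toFun := fun x => ⟨ρ x, Subring.subset_closure ⟨x, rfl⟩⟩
      map_one' := Subtype.ext (map_one ρ)
      map_mul' := fun x y => Subtype.ext (map_mul ρ x y) }
  have h := djc ρ' n hroot (fun b => Subtype.ext (by
    have := hnil b
    exact this)) (fun j => l.getD j 1)
  rw [Finset.prod_range, ← List.prod_ofFn] at h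
  have h1 := congrArg (Subring.subtype (Subring.closure (Set.range ρ))) h
  rw [map_list_prod, map_zero, List.map_ofFn] at h1
  rw [← h1]
  congr 1
  refine List.ext_getElem (by simp [hl]) fun i hi hi' => ?_
  rw [List.getElem_map, List.getElem_ofFn]
  have hil : i < l.length := by simpa using hi
  show ρ l[i] - 1 = ρ (l.getD i 1) - 1
  rw [List.getD_eq_getElem _ _ hil]

end Pool.Agent.BFS
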