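import Pool.Agent.BFS.DJ

/-!
# BFS/DN: nilpotent groups of prime exponent acting unipotently

`dn`: induction on `c`, for all `M`, `R`, `ρ`.  `c = 0`: `M` is trivial, every `ρ m - 1 = 0`, `n ^ 0 = 1`.  `c + 1`: replace `R` by the subring `R₀`
generated by `ρ(M)` (`Subring.closure (Set.range ρ)`; `ρ` restricts to `M →* R₀`; the product is `0` in `R` iff it is `0` in `R₀`).  Let
`B = Subgroup.center M`; for `b ∈ B` the element `ρ b - 1` is central in `R₀` (it commutes with the generators `ρ m`).  Let `I` be the ideal of `R₀`
generated by the `ρ b - 1`, `b ∈ B`; it is two-sided because the generators are central.  Products of `n` elements of `I` vanish: `I` is spanned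
(additively) by the `s * (ρ b - 1)`, and `∏ (s_i (ρ b_i - 1)) = (∏ s_i) (∏ (ρ b_i - 1)) = 0` by `dj` for `B` (`CommGroup` structure on the centre;
`hroot`: `1 ≤ j ≤ n < r`, `r` prime, `g = b ^ t` with `t j = 1 (mod r)`).  `R₁ = R₀ ⧸ I` with `ρ₁ : M ⧸ B →* R₁` (`QuotientGroup.lift`; `ρ b = 1` in
`R₁` for `b ∈ B`); `M ⧸ B` has class `≤ c` (`upperCentralSeries (M ⧸ center) c = ⊤`), exponent `r`.  By induction products of `n ^ c` elements
`ρ m - 1` are in `I`; so products of `n ^ (c + 1) = n * n ^ c` elements vanish.
-/

set_option autoImplicit false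

namespace Pool.Agent.BFS

universe u v

private theorem dn_root {r : ℕ} (hr : r.Prime) {n : ℕ} (hn : n < r) {B : Type u} [Group B] (hB : ∀ b : B, b ^ r = 1) :
    ∀ j : ℕ, 1 ≤ j → j ≤ n → ∀ b : B, ∃ g : B, g ^ j = b := by
  intro j h1 hj b
  have hc : Nat.Coprime j r := by
    rw [Nat.coprime_comm]
    exact (Nat.Prime.coprime_iff_not_dvd hr).2 fun hd => by
      have := Nat.le_of_dvd (by omega) hd
      omega
  obtain ⟨m, -, hm⟩ := Nat.exists_mul_mod_eq_one_of_coprime hc hr.one_lt
  refine ⟨b ^ m, ?_⟩
  rw [← pow_mul, mul_comm m j, ← Nat.div_add_mod (j * m) r, pow_add, pow_mul, hB, one_pow, one_mul, hm, pow_one]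

/-- The products of `k` factors `σ b - 1` generate the ideal `dnJ`. -/
private def dnJ {R : Type v} [Ring R] {B : Type u} (σ : B → R) (k : ℕ) : Ideal R :=
  Ideal.span {x | ∃ l : List B, l.length = k ∧ x = (l.map fun b => σ b - 1).prod}

private theorem dn_mul {R : Type v} [Ring R] {B : Type u} (σ : B → R) (I : Ideal R) [I.IsTwoSided]
    (hI : I = Ideal.span (Set.range fun b => σ b - 1)) (k : ℕ) {x y : R} (hx : x ∈ I) (hy : y ∈ dnJ σ k) :
    x * y ∈ dnJ σ (k + 1) := by
  have key : ∀ z ∈ I, ∀ l : List B, l.length = k → z * (l.map fun b => σ b - 1).prod ∈ dnJ σ (k + 1) := by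
    intro z hz l hl
    rw [hI] at hz
    induction hz using Submodule.span_induction with
    | mem z hz =>
      obtain ⟨b, rfl⟩ := hz
      refine Ideal.subset_span ⟨b :: l, by simp [hl], ?_⟩
      rw [List.map_cons, List.prod_cons]
    | zero => rw [zero_mul]; exact Submodule.zero_mem _
    | add a b _ _ ha hb => rw [add_mul]; exact Submodule.add_mem _ ha hb
    | smul a b _ hb => rw [smul_eq_mul, mul_assoc]; exact Ideal.mul_mem_left _ _ hb
  have key2 : ∀ x ∈ I, x * y ∈ dnJ σ (k + 1) := by
    unfold dnJ at hy
    induction hy using Submodule.span_induction with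
    | mem y hy =>
      obtain ⟨l, hl, rfl⟩ := hy
      exact fun x hx => key x hx l hl
    | zero => intro x _; rw [mul_zero]; exact Submodule.zero_mem _
    | add a b _ _ ha hb => intro x hx; rw [mul_add]; exact Submodule.add_mem _ (ha x hx) (hb x hx)
    | smul a b _ hb =>
      intro x hx
      rw [smul_eq_mul, ← mul_assoc]
      exact hb _ (Ideal.mul_mem_right a I hx)
  exact key2 x hx

private theorem dn_list {R : Type v} [Ring R] {B : Type u} (σ : B → R) (I : Ideal R) [I.IsTwoSided]
    (hI : I = Ideal.span (Set.range fun b => σ b - 1)) {M : Type u} (f : M → R) (q : ℕ)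
    (hq : ∀ l : List M, l.length = q → (l.map f).prod ∈ I) :
    ∀ (k : ℕ) (l : List M), l.length = k * q → (l.map f).prod ∈ dnJ σ k := by
  intro k
  induction k with
  | zero =>
    intro l _
    have : (1 : R) ∈ dnJ σ 0 := Ideal.subset_span ⟨[], rfl, by simp⟩
    rw [(Ideal.eq_top_iff_one _).2 this]
    exact Submodule.mem_top
  | succ k ih =>
    intro l hl
    have h1 : (l.take q).length = q := by
      rw [List.length_take, hl]
      exact min_eq_left (by nlinarith [Nat.zero_le (k * q)])
    have h2 : (l.drop q).length = k * q := by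
      rw [List.length_drop, hl, Nat.succ_mul]
      omega
    have h3 := dn_mul σ I hI k (hq _ h1) (ih _ h2)
    rwa [← List.prod_append, ← List.map_append, List.take_append_drop] at h3

theorem dn {r : ℕ} (hr : r.Prime) (n : ℕ) (hn : n < r) (c : ℕ) : ∀ (M : Type u) [Group M] (R : Type v) [Ring R] (ρ : M →* R),
    Subgroup.upperCentralSeries M c = ⊤ → (∀ m : M, m ^ r = 1) → (∀ m : M, (ρ m - 1) ^ n = 0) →
      ∀ l : List M, l.length = n ^ c → (l.map fun m => ρ m - 1).prod = 0 := by
  induction c with
  | zero =>
    intro M _ R _ ρ hM _ _ l hl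
    rw [pow_zero, List.length_eq_one_iff] at hl
    obtain ⟨m, rfl⟩ := hl
    have hm : m ∈ Subgroup.upperCentralSeries M 0 := by
      rw [hM]
      exact Subgroup.mem_top m
    rw [Subgroup.upperCentralSeries_zero, Subgroup.mem_bot] at hm
    rw [hm]
    simp
  | succ c ih =>
    intro M _ R _ ρ hM hexp hnil l hl
    -- the subring generated by the image
    let R₀ := Subring.closure (Set.range ρ)
    let ρ₀ : M →* R₀ :=
      { toFun := fun x => ⟨ρ x, Subring.subset_closure ⟨x, rfl⟩⟩
        map_one' := Subtype.ext (map_one ρ)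
        map_mul' := fun x y => Subtype.ext (map_mul ρ x y) }
    have hnil₀ : ∀ m : M, (ρ₀ m - 1) ^ n = 0 := fun m => Subtype.ext (by
      have := hnil m
      exact this)
    let B := Subgroup.center M
    let σ : B → R₀ := fun b => ρ₀ b
    have hcomm : ∀ (b : B) (y : R₀), σ b * y = y * σ b := by
      intro b y
      have hle : Subring.closure (Set.range ρ) ≤ Subring.centralizer {ρ (b : M)} := by
        rw [Subring.closure_le]
        rintro _ ⟨m, rfl⟩
        rw [SetLike.mem_coe, Subring.mem_centralizer_iff]
        intro z hz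
        rw [Set.mem_singleton_iff] at hz
        subst hz
        rw [← map_mul, ← map_mul, (Subgroup.mem_center_iff.1 b.2 m)]
      have hy := hle y.2
      rw [Subring.mem_centralizer_iff] at hy
      exact Subtype.ext (hy _ rfl)
    let I : Ideal R₀ := Ideal.span (Set.range fun b => σ b - 1)
    haveI hI2 : I.IsTwoSided := by
      refine ⟨fun {a} y ha => ?_⟩
      have ha' : a ∈ Ideal.span (Set.range fun b => σ b - 1) := ha
      show a * y ∈ Ideal.span (Set.range fun b => σ b - 1)
      clear ha
      induction ha' using Submodule.span_induction with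
      | mem z hz =>
        obtain ⟨b, rfl⟩ := hz
        have : (σ b - 1) * y = y * (σ b - 1) := by
          rw [sub_mul, mul_sub, hcomm, one_mul, mul_one]
        show (σ b - 1) * y ∈ _
        rw [this]
        exact Ideal.mul_mem_left _ _ (Ideal.subset_span ⟨b, rfl⟩)
      | zero => rw [zero_mul]; exact Submodule.zero_mem _
      | add a b _ _ ha hb => rw [add_mul]; exact Submodule.add_mem _ ha hb
      | smul a b _ hb => rw [smul_eq_mul, mul_assoc]; exact Ideal.mul_mem_left _ _ hb
    -- the induction hypothesis
    have hq : ∀ l : List M, l.length = n ^ c → (l.map fun m => ρ₀ m - 1).prod ∈ I := by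
      intro l hl
      let φ : M →* R₀ ⧸ I := ((Ideal.Quotient.mk I : R₀ →+* R₀ ⧸ I) : R₀ →* R₀ ⧸ I).comp ρ₀
      let ψ : M ⧸ Subgroup.center M →* R₀ ⧸ I := by
        refine ⟨⟨fun x => Quotient.liftOn' x φ ?_, ?_⟩, ?_⟩
        · intro a b hab
          rw [QuotientGroup.leftRel_apply] at hab
          have h1 : φ (a⁻¹ * b) = 1 := by
            show Ideal.Quotient.mk I (ρ₀ (a⁻¹ * b)) = 1
            rw [← map_one (Ideal.Quotient.mk I), Ideal.Quotient.eq]
            exact Ideal.subset_span ⟨⟨_, hab⟩, rfl⟩
          have h2 : b = a * (a⁻¹ * b) := by group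
          rw [h2, map_mul, h1, mul_one]
        · exact map_one φ
        · intro x y
          induction x using QuotientGroup.induction_on
          induction y using QuotientGroup.induction_on
          exact map_mul φ _ _
      have hψ : ∀ m : M, ψ (QuotientGroup.mk m) = Ideal.Quotient.mk I (ρ₀ m) := fun m => rfl
      have h1 := ih (M ⧸ Subgroup.center M) (R₀ ⧸ I) ψ ?_ ?_ ?_ (l.map fun m => QuotientGroup.mk m) (by simp [hl])
      · rw [List.map_map] at h1
        rw [← Ideal.Quotient.eq_zero_iff_mem, map_list_prod, List.map_map, ← h1]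
        congr 1
      · rw [Subgroup.eq_top_iff']
        intro x
        induction x using QuotientGroup.induction_on with
        | H m =>
          have h2 : m ∈ Subgroup.comap (QuotientGroup.mk' (Subgroup.center M))
              (Subgroup.upperCentralSeries (M ⧸ Subgroup.center M) c) := by
            rw [Subgroup.comap_upperCentralSeries_quotient_center, Nat.succ_eq_add_one, hM]
            exact Subgroup.mem_top m
          exact h2
      · intro x
        induction x using QuotientGroup.induction_on with
        | H m => rw [← QuotientGroup.mk_pow, hexp, QuotientGroup.mk_one]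
      · intro x
        induction x using QuotientGroup.induction_on with
        | H m => rw [hψ, ← map_one (Ideal.Quotient.mk I), ← map_sub, ← map_pow, hnil₀, map_zero]
    -- products of `n` elements of `I` vanish
    have hJ : dnJ σ n = ⊥ := by
      unfold dnJ
      rw [Ideal.span_eq_bot]
      rintro _ ⟨l, hl, rfl⟩
      let ρB : B →* R₀ := ρ₀.comp B.subtype
      have hBc : ∀ a b : B, a * b = b * a := fun a b => Subtype.ext ((Subgroup.mem_center_iff.1 b.2 a))
      letI : CommGroup B := { (inferInstance : Group B) with mul_comm := hBc }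
      exact dj ρB n (dn_root hr hn fun b => Subtype.ext (hexp b)) (fun b => hnil₀ b) l hl
    have h1 := dn_list σ I rfl (fun m => ρ₀ m - 1) (n ^ c) hq n l (by rw [hl, pow_succ, mul_comm])
    rw [hJ, Ideal.mem_bot] at h1
    have h2 := congrArg (Subring.subtype (Subring.closure (Set.range ρ))) h1
    rw [map_list_prod, map_zero, List.map_map] at h2
    exact h2

end Pool.Agent.BFS
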