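import Pool.Agent.FRK.GE
import Pool.Agent.FRK.GJ
import Pool.Agent.FRK.PF
import Pool.Agent.FRK.GI

/-!
# BFS: binary finite Frobenius groups, all residue classes (definitions)

Paper proof: `/team-store/MP_3e7e8f_al_h54.md`.  `Big p r`: the standing hypothesis on the primes (no condition on `r` mod `p`).
`Br`: a Lie ring `L` of endomorphisms of `A` with an automorphism of order `p` without fixed points.  `Om`: `ω` is a good `p`-th root
of unity.  `Rq`: a representation all of whose elements act unipotently with exponent `hh p + 1`.  `lie`: the span of ALL logarithms.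
-/

set_option autoImplicit false

namespace Pool.Agent.BFS

open Pool.Agent.FRB (Inv LF SS)
open Pool.Agent.FRS (Hyp rs qt)
open Pool.Agent.FRK (hh IsLog ic Hc Zr)

/-- the standing hypothesis on the primes -/
structure Big (p r : ℕ) : Prop where
  pp : p.Prime
  five : 5 ≤ p
  prime : r.Prime
  big : hh p * (p + 1) < 2 * r

/-- a Lie ring of endomorphisms with a fixed-point-free automorphism of order `p` -/
structure Br (p : ℕ) {Λ : Type*} [CommRing Λ] {A : Type*} [AddCommGroup A] [Module Λ A] (α α' : Module.End Λ A)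
    (L : Submodule Λ (Module.End Λ A)) : Prop where
  pp : p.Prime
  unit : IsUnit (p : Λ)
  inv : α * α' = 1
  inv' : α' * α = 1
  powp : α ^ p = 1
  sum : ∑ i ∈ Finset.range p, α ^ i = 0
  br : ∀ x ∈ L, ∀ y ∈ L, x * y - y * x ∈ L
  al : ∀ x ∈ L, α * x * α' ∈ L
  orb : ∀ y ∈ L, ∑ i ∈ Finset.range p, α ^ i * y * α' ^ i = 0

/-- a good root of unity -/
structure Om (p : ℕ) {Λ : Type*} [CommRing Λ] (ω : Λ) : Prop where
  powp : ω ^ p = 1
  sum : ∀ m : ℕ, ¬ p ∣ m → ∑ t ∈ Finset.range p, ω ^ (m * t) = 0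

/-- the homogeneous component of degree `i` of `L` -/
def lcc {p : ℕ} {Λ : Type*} [CommRing Λ] {A : Type*} [AddCommGroup A] [Module Λ A] (ω : Λ) (α α' : Module.End Λ A)
    (L : Submodule Λ (Module.End Λ A)) (i : ZMod p) : AddSubgroup (Module.End Λ A) where
  carrier := {y | y ∈ L ∧ α * y * α' = ω ^ i.val • y}
  add_mem' {x y} hx hy := ⟨Submodule.add_mem _ hx.1 hy.1, by rw [mul_add, add_mul, hx.2, hy.2, smul_add]⟩
  zero_mem' := ⟨Submodule.zero_mem _, by rw [mul_zero, zero_mul, smul_zero]⟩
  neg_mem' {x} hx := ⟨Submodule.neg_mem _ hx.1, by rw [mul_neg, neg_mul, hx.2, smul_neg]⟩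

/-- a representation of `X` compatible with `a`, all elements act unipotently with exponent `hh p + 1` -/
structure Rq (p r n : ℕ) {X : Type*} [Group X] (a : MulAut X) {A : Type*} [AddCommGroup A] [Module (ZMod (r ^ n)) A]
    (ρ : X →* Module.End (ZMod (r ^ n)) A) (α α' : Module.End (ZMod (r ^ n)) A) : Prop where
  root : Big p r
  hyp : Hyp p r a
  inv : α * α' = 1
  inv' : α' * α = 1
  powp : α ^ p = 1
  sum : ∑ i ∈ Finset.range p, α ^ i = 0
  conj : ∀ x : X, α * ρ x * α' = ρ (a x)
  nil : ∀ x : X, (ρ x - 1) ^ (hh p + 1) = 0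

/-- the span of all logarithms -/
def lie (p r n : ℕ) {X : Type*} [Group X] {A : Type*} [AddCommGroup A] [Module (ZMod (r ^ n)) A]
    (ρ : X →* Module.End (ZMod (r ^ n)) A) : Submodule (ZMod (r ^ n)) (Module.End (ZMod (r ^ n)) A) :=
  Submodule.span (ZMod (r ^ n)) {y | ∃ x : X, IsLog (hh p) (ρ x) y}

/-- all centralisers of nontrivial elements are locally finite -/
def CLF {X : Type*} [Group X] : Prop := ∀ x : X, x ≠ 1 → LF (Subgroup.centralizer ({x} : Set X))

/-- `M` is a maximal locally finite invariant subgroup -/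
structure Mx {X : Type*} [Group X] (a : MulAut X) (M : Subgroup X) : Prop where
  inv : Inv a M
  lf : LF M
  max : ∀ T : Subgroup X, Inv a T → LF T → M ≤ T → T ≤ M

/-- the group generated by the orbit of `x` -/
def KK {X : Type*} [Group X] (a : MulAut X) (x : X) : Subgroup X := Subgroup.closure (Set.range fun n : ℕ => (a ^ n) x)

end Pool.Agent.BFS
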