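import Pool.Agent.BFS.UA
import Pool.Agent.FRK.KDefs

/-!
# BFS/EA: the grading of `L`

Port of `FRK/RE` (`lie_zero`) and `FRK/RF`, with `zt r k n` replaced by `ω` and the facts `zt_pow`, `zt_congr`, `zt_sum` replaced by `Om.powp`,
`om_congr`, `Om.sum`; `lie` is replaced by `L` (`Br`), `p` is a unit of `Λ` (`Br.unit`).
`br_pow_mem`: `al` iterated (`FRK/RD`, `lie_al`).
-/

set_option autoImplicit false

namespace Pool.Agent.BFS

open Pool.Agent.FRK (hh Cl Act)

variable {p : ℕ} {Λ : Type*} [CommRing Λ] {A : Type*} [AddCommGroup A] [Module Λ A] {α α' : Module.End Λ A}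
  {L : Submodule Λ (Module.End Λ A)} {ω : Λ}

private theorem EA_sum_zmod {M : Type*} [AddCommMonoid M] : ∀ (p : ℕ) [NeZero p] (f : ℕ → M),
    ∑ i : ZMod p, f i.val = ∑ s ∈ Finset.range p, f s
  | 0, h, _ => absurd rfl h.out
  | p + 1, _, f => Fin.sum_univ_eq_sum_range f (p + 1)

private theorem EA_mod (O : Om p ω) (i : ℕ) : ω ^ (i % p) = ω ^ i := by
  have h1 : ω ^ (i % p + p * (i / p)) = ω ^ (i % p) := by
    rw [pow_add, pow_mul, O.powp, one_pow, mul_one]
  rw [Nat.mod_add_div] at h1
  exact h1.symm

theorem om_congr (O : Om p ω) {i j : ℕ} (h : i ≡ j [MOD p]) : ω ^ i = ω ^ j := by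
  rw [← EA_mod O i, ← EA_mod O j]
  exact congrArg (fun t => ω ^ t) h

theorem br_pow_mem (B : Br p α α' L) {y : Module.End Λ A} (hy : y ∈ L) (t : ℕ) : α ^ t * y * α' ^ t ∈ L := by
  induction t with
  | zero =>
    rw [pow_zero, pow_zero, one_mul, mul_one]
    exact hy
  | succ t ih =>
    have h1 := B.al _ ih
    have h2 : α * (α ^ t * y * α' ^ t) * α' = α ^ (t + 1) * y * α' ^ (t + 1) := by
      rw [pow_succ' α, pow_succ α']
      simp only [mul_assoc]
    rw [h2] at h1
    exact h1

theorem br_zero (B : Br p α α' L) {y : Module.End Λ A} (hy : y ∈ L) (hc : α * y = y * α) : y = 0 := by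
  have h1 := B.orb y hy
  have hcom : Commute α α' := by rw [Commute, SemiconjBy, B.inv, B.inv']
  have h2 : ∀ i ∈ Finset.range p, α ^ i * y * α' ^ i = y := by
    intro i _
    have h3 : Commute α y := hc
    rw [(h3.pow_left i).eq, mul_assoc, ← hcom.mul_pow, B.inv, one_pow, mul_one]
  rw [Finset.sum_congr rfl h2, Finset.sum_const, Finset.card_range] at h1
  have h4 : (p : Λ) • y = 0 := by
    rw [Nat.cast_smul_eq_nsmul]
    exact h1
  exact (B.unit.smul_eq_zero).1 h4

theorem lcc_cl (B : Br p α α' L) (O : Om p ω) : Cl (lcc (p := p) ω α α' L) := by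
  intro i j x y hx hy
  have hp : NeZero p := ⟨B.pp.ne_zero⟩
  obtain ⟨hx1, hx2⟩ := hx
  obtain ⟨hy1, hy2⟩ := hy
  refine ⟨B.br _ hx1 _ hy1, ?_⟩
  have hmul : ∀ u v : Module.End Λ A, α * (u * v) * α' = (α * u * α') * (α * v * α') := by
    intro u v
    have h1 : (α * u * α') * (α * v * α') = α * u * (α' * α) * v * α' := by noncomm_ring
    rw [h1, B.inv', mul_one, mul_assoc α u v]
  have hz : ω ^ i.val * ω ^ j.val = ω ^ (i + j).val := by
    rw [← pow_add]
    refine om_congr O ?_
    rw [ZMod.val_add]
    exact (Nat.mod_modEq _ _).symm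
  rw [mul_sub, sub_mul, hmul, hmul, hx2, hy2, smul_sub]
  rw [smul_mul_smul_comm, smul_mul_smul_comm, hz, mul_comm (ω ^ j.val), hz]

theorem lcc_zero (B : Br p α α' L) (O : Om p ω) : lcc (p := p) ω α α' L 0 = ⊥ := by
  rw [eq_bot_iff]
  rintro y ⟨hy1, hy2⟩
  rw [AddSubgroup.mem_bot]
  rw [ZMod.val_zero, pow_zero, one_smul] at hy2
  refine br_zero B hy1 ?_
  calc α * y = α * y * (α' * α) := by rw [B.inv', mul_one]
    _ = (α * y * α') * α := by rw [← mul_assoc]
    _ = y * α := by rw [hy2]

theorem lcc_span (B : Br p α α' L) (O : Om p ω) :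
    L = Submodule.span Λ {y | ∃ i : ZMod p, y ∈ lcc (p := p) ω α α' L i} := by
  have hp : NeZero p := ⟨B.pp.ne_zero⟩
  refine le_antisymm ?_ ?_
  · intro y hy
    have hp' : α' ^ p = 1 := by
      have hc : Commute α' α := B.inv'.trans B.inv.symm
      have h1 := hc.mul_pow p
      rw [B.inv', one_pow, B.powp, mul_one] at h1
      exact h1.symm
    obtain ⟨E, hE⟩ : ∃ E : ZMod p → Module.End Λ A, E = fun i => ∑ t ∈ Finset.range p,
        ω ^ (i.val * (p - t)) • (α ^ t * y * α' ^ t) := ⟨_, rfl⟩
    have hEl : ∀ i, E i ∈ lcc (p := p) ω α α' L i := by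
      intro i
      refine ⟨?_, ?_⟩
      · rw [hE]
        exact Submodule.sum_mem _ fun t _ => Submodule.smul_mem _ _ (br_pow_mem B hy t)
      · obtain ⟨G, hG⟩ : ∃ G : ℕ → Module.End Λ A, G = fun t => ω ^ (i.val + i.val * (p - t)) •
            (α ^ t * y * α' ^ t) := ⟨_, rfl⟩
        have h1 : α * E i * α' = ∑ t ∈ Finset.range p, G (t + 1) := by
          rw [hE, hG]
          simp only
          rw [Finset.mul_sum, Finset.sum_mul]
          refine Finset.sum_congr rfl fun t ht => ?_
          have ht' := Finset.mem_range.1 ht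
          rw [mul_smul_comm, smul_mul_assoc]
          have h2 : i.val + i.val * (p - (t + 1)) = i.val * (p - t) := by
            have h3 : p - t = p - (t + 1) + 1 := by omega
            rw [h3, mul_add, mul_one, add_comm]
          rw [h2, pow_succ' α t, pow_succ α' t]
          simp only [mul_assoc]
        have h2 : ω ^ i.val • E i = ∑ t ∈ Finset.range p, G t := by
          rw [hE, hG]
          simp only
          rw [Finset.smul_sum]
          refine Finset.sum_congr rfl fun t _ => ?_
          rw [smul_smul, ← pow_add]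
        have h3 : G p = G 0 := by
          rw [hG]
          simp only
          rw [Nat.sub_self, mul_zero, add_zero, B.powp, hp', pow_zero, pow_zero, one_mul, mul_one, Nat.sub_zero]
          congr 1
          refine om_congr O ?_
          unfold Nat.ModEq
          rw [Nat.add_mul_mod_self_right]
        have h4 := Finset.sum_range_succ' G p
        rw [Finset.sum_range_succ, h3] at h4
        rw [h1, h2]
        exact (add_right_cancel h4).symm
    have hsum : ∑ i, E i = (p : Λ) • y := by
      rw [hE]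
      simp only
      rw [Finset.sum_comm]
      have h1 : ∀ t ∈ Finset.range p, ∑ i : ZMod p, ω ^ (i.val * (p - t)) • (α ^ t * y * α' ^ t) =
          if t = 0 then (p : Λ) • y else 0 := by
        intro t ht
        have ht' := Finset.mem_range.1 ht
        rw [← Finset.sum_smul]
        split_ifs with h
        · subst h
          rw [pow_zero, pow_zero, one_mul, mul_one]
          congr 1
          have h2 : ∀ i : ZMod p, ω ^ (i.val * (p - 0)) = 1 := by
            intro i
            rw [Nat.sub_zero, mul_comm, pow_mul, O.powp, one_pow]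
          rw [Finset.sum_congr rfl fun i _ => h2 i, Finset.sum_const, Finset.card_univ, ZMod.card, nsmul_eq_mul, mul_one]
        · have h2 := EA_sum_zmod p (fun s => ω ^ (s * (p - t)))
          rw [h2]
          have h3 : ¬ p ∣ (p - t) := fun h3 => by
            have := Nat.le_of_dvd (by omega) h3
            omega
          have h4 := O.sum _ h3
          rw [← zero_smul Λ (α ^ t * y * α' ^ t), ← h4]
          congr 1
          exact Finset.sum_congr rfl fun s _ => by rw [mul_comm]
      rw [Finset.sum_congr rfl h1, Finset.sum_ite_eq', if_pos (Finset.mem_range.2 B.pp.pos)]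
    obtain ⟨u, hu⟩ := B.unit
    have h5 : y = (↑(u⁻¹) : Λ) • ∑ i, E i := by
      rw [hsum, ← hu, smul_smul, Units.inv_mul, one_smul]
    rw [h5]
    exact Submodule.smul_mem _ _ (Submodule.sum_mem _ fun i _ => Submodule.subset_span ⟨i, hEl i⟩)
  · rw [Submodule.span_le]
    rintro y ⟨i, hy, -⟩
    exact hy

end Pool.Agent.BFS
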