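import Pool.Agent.BFS.EA
import Pool.Agent.FRK.MM

/-!
# BFS/EB: products of `hh p` elements of `L` vanish, if there is a root of unity

Port of `FRK/RG` with `zt r k n` replaced by `ω`, `lc` by `lcc`, `lie` by `L` (`Br`, `Om`).
-/

set_option autoImplicit false

namespace Pool.Agent.BFS

open Pool.Agent.FRK (hh Cl Act)

variable {p : ℕ} {Λ : Type*} [CommRing Λ] {A : Type*} [AddCommGroup A] [Module Λ A] {α α' : Module.End Λ A}
  {L : Submodule Λ (Module.End Λ A)} {ω : Λ}

/-- the homogeneous component of degree `i` of the module -/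
private def eb_vc (p : ℕ) {Λ : Type*} [CommRing Λ] {A : Type*} [AddCommGroup A] [Module Λ A] (ω : Λ) (α : Module.End Λ A)
    (i : ZMod p) : AddSubgroup A where
  carrier := {v | α v = ω ^ i.val • v}
  add_mem' {x y} hx hy := by
    have h1 : α x = ω ^ i.val • x := hx
    have h2 : α y = ω ^ i.val • y := hy
    change α (x + y) = ω ^ i.val • (x + y)
    rw [map_add, h1, h2, smul_add]
  zero_mem' := by
    change α 0 = ω ^ i.val • 0
    rw [map_zero, smul_zero]
  neg_mem' {x} hx := by
    have h1 : α x = ω ^ i.val • x := hx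
    change α (-x) = ω ^ i.val • (-x)
    rw [map_neg, h1, smul_neg]

private theorem eb_sum_val {M : Type*} [AddCommMonoid M] (q : ℕ) [NeZero q] (f : ℕ → M) :
    ∑ i : ZMod q, f i.val = ∑ i ∈ Finset.range q, f i := by
  cases q with
  | zero => exact absurd rfl (NeZero.ne 0)
  | succ m => exact Fin.sum_univ_eq_sum_range f (m + 1)

private theorem eb_vc_act (B : Br p α α' L) (O : Om p ω) : Act (lcc (p := p) ω α α' L) (eb_vc p ω α) := by
  intro i j x v hx hv
  have : NeZero p := ⟨B.pp.ne_zero⟩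
  have h1 : α * x * α' = ω ^ i.val • x := hx.2
  have h2 : α v = ω ^ j.val • v := hv
  change α (x • v) = ω ^ (i + j).val • (x • v)
  have h3 : α (x • v) = (α * x * α') (α v) := by
    have h4 : (α * x * α') * α = α * x := by rw [mul_assoc, B.inv', mul_one]
    have h5 : (α * x * α') (α v) = ((α * x * α') * α) v := rfl
    rw [h5, h4]
    rfl
  have h6 : ω ^ (i + j).val = ω ^ (i.val + j.val) := by
    apply om_congr O
    rw [ZMod.val_add]
    exact Nat.mod_modEq _ _
  rw [h3, h1, h2, h6, LinearMap.smul_apply, map_smul, smul_smul, ← pow_add, Module.End.smul_def]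

private theorem eb_vc_zero (B : Br p α α' L) : eb_vc p ω α 0 = ⊥ := by
  rw [eq_bot_iff]
  intro v hv
  have h1 : α v = ω ^ (0 : ZMod p).val • v := hv
  rw [ZMod.val_zero, pow_zero, one_smul] at h1
  have h2 : ∀ i : ℕ, (α ^ i) v = v := by
    intro i
    induction i with
    | zero => rw [pow_zero]; rfl
    | succ i ih => rw [pow_succ, Module.End.mul_apply, h1, ih]
  have h3 : (∑ i ∈ Finset.range p, α ^ i) v = (p : Λ) • v := by
    rw [LinearMap.sum_apply, Finset.sum_congr rfl (fun i _ => h2 i), Finset.sum_const, Finset.card_range,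
      Nat.cast_smul_eq_nsmul]
  rw [B.sum, LinearMap.zero_apply] at h3
  have h4 : v = 0 := by
    obtain ⟨u, hu⟩ := B.unit
    have h5 : (u⁻¹ : Λˣ).val • ((p : Λ) • v) = v := by
      rw [← hu, smul_smul, Units.inv_mul, one_smul]
    rw [← h5, ← h3, smul_zero]
  exact AddSubgroup.mem_bot.mpr h4

private def eb_Ev (p : ℕ) {Λ : Type*} [CommRing Λ] {A : Type*} [AddCommGroup A] [Module Λ A] (ω : Λ) (α : Module.End Λ A)
    (v : A) (i : ℕ) : A := ∑ t ∈ Finset.range p, ω ^ (i * (p - t)) • (α ^ t) v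

private theorem eb_ev_mem (B : Br p α α' L) (O : Om p ω) (v : A) (i : ZMod p) :
    eb_Ev p ω α v i.val ∈ eb_vc p ω α i := by
  change α (eb_Ev p ω α v i.val) = ω ^ i.val • eb_Ev p ω α v i.val
  have h1 : α (eb_Ev p ω α v i.val) = ∑ t ∈ Finset.range p, ω ^ (i.val * (p + 1 - (t + 1))) • (α ^ (t + 1)) v := by
    unfold eb_Ev
    rw [map_sum]
    apply Finset.sum_congr rfl
    intro t _
    rw [map_smul, pow_succ' α t, Module.End.mul_apply, Nat.add_sub_add_right]
  have h2 : ω ^ i.val • eb_Ev p ω α v i.val = ∑ t ∈ Finset.range p, ω ^ (i.val * (p + 1 - t)) • (α ^ t) v := by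
    unfold eb_Ev
    rw [Finset.smul_sum]
    apply Finset.sum_congr rfl
    intro t ht
    have ht' : t < p := Finset.mem_range.mp ht
    rw [smul_smul, ← pow_add]
    congr 2
    have : p + 1 - t = (p - t) + 1 := by omega
    rw [this]
    ring
  have h3 := Finset.sum_range_succ (fun t => ω ^ (i.val * (p + 1 - t)) • (α ^ t) v) p
  have h4 := Finset.sum_range_succ' (fun t => ω ^ (i.val * (p + 1 - t)) • (α ^ t) v) p
  have h5 : ω ^ (i.val * (p + 1 - p)) • (α ^ p) v = ω ^ (i.val * (p + 1 - 0)) • (α ^ 0) v := by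
    rw [B.powp, pow_zero]
    congr 1
    apply om_congr O
    have e1 : p + 1 - p = 1 := by omega
    have e2 : i.val * (p + 1 - 0) = i.val * 1 + p * i.val := by
      rw [Nat.sub_zero]; ring
    rw [e1, e2]
    change (i.val * 1) % p = (i.val * 1 + p * i.val) % p
    rw [Nat.add_mul_mod_self_left]
  rw [h1, h2]
  rw [h3, h5] at h4
  exact (add_right_cancel h4).symm

private theorem eb_ev_sum (B : Br p α α' L) (O : Om p ω) (v : A) :
    ∑ i ∈ Finset.range p, eb_Ev p ω α v i = (p : Λ) • v := by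
  unfold eb_Ev
  rw [Finset.sum_comm]
  have h1 : ∀ t ∈ Finset.range p, t ≠ 0 → ∑ i ∈ Finset.range p, ω ^ (i * (p - t)) • (α ^ t) v = 0 := by
    intro t ht h0
    have ht' : t < p := Finset.mem_range.mp ht
    rw [← Finset.sum_smul]
    have h2 : ∑ i ∈ Finset.range p, ω ^ (i * (p - t)) = 0 := by
      have h3 : ¬ p ∣ (p - t) := by
        intro hd
        have := Nat.le_of_dvd (by omega) hd
        omega
      rw [← O.sum _ h3]
      apply Finset.sum_congr rfl
      intro i _
      rw [mul_comm]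
    rw [h2, zero_smul]
  rw [Finset.sum_eq_single 0 h1]
  · have h3 : ∀ i ∈ Finset.range p, ω ^ (i * (p - 0)) • (α ^ 0) v = v := by
      intro i _
      rw [Nat.sub_zero, pow_zero, mul_comm, pow_mul, O.powp, one_pow, one_smul]
      rfl
    rw [Finset.sum_congr rfl h3, Finset.sum_const, Finset.card_range, Nat.cast_smul_eq_nsmul]
  · intro h
    exact absurd (Finset.mem_range.mpr B.pp.pos) h

private theorem eb_vc_span (B : Br p α α' L) (O : Om p ω) (v : A) :
    v ∈ Submodule.span Λ {v : A | ∃ i : ZMod p, v ∈ eb_vc p ω α i} := by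
  have : NeZero p := ⟨B.pp.ne_zero⟩
  have h1 : (p : Λ) • v ∈ Submodule.span Λ {v : A | ∃ i : ZMod p, v ∈ eb_vc p ω α i} := by
    rw [← eb_ev_sum B O v, ← eb_sum_val p (fun i => eb_Ev p ω α v i)]
    apply Submodule.sum_mem
    intro i _
    exact Submodule.subset_span ⟨i, eb_ev_mem B O v i⟩
  obtain ⟨u, hu⟩ := B.unit
  have h5 : (u⁻¹ : Λˣ).val • ((p : Λ) • v) = v := by
    rw [← hu, smul_smul, Units.inv_mul, one_smul]
  rw [← h5]
  exact Submodule.smul_mem _ _ h1

private theorem eb_hom_zero (B : Br p α α' L) (O : Om p ω) {l : List (ZMod p × Module.End Λ A)}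
    (hl : Pool.Agent.FRK.Hm (lcc (p := p) ω α α' L) l) (hlen : l.length = hh p) : (l.map Prod.snd).prod = 0 := by
  apply LinearMap.ext
  intro v
  have h1 : Submodule.span Λ {v : A | ∃ i : ZMod p, v ∈ eb_vc p ω α i} ≤
      LinearMap.ker ((l.map Prod.snd).prod) := by
    rw [Submodule.span_le]
    rintro w ⟨i, hw⟩
    have h2 : Pool.Agent.FRK.ac l w = 0 :=
      Pool.Agent.FRK.kk B.pp (lcc_cl B O) (lcc_zero B O) (eb_vc_act B O) (eb_vc_zero B) hl hlen hw
    exact h2
  exact h1 (eb_vc_span B O v)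

theorem om_pow (B : Br p α α' L) (O : Om p ω) : L ^ (hh p) = ⊥ := by
  rw [lcc_span B O, Submodule.span_pow, Submodule.span_eq_bot]
  intro y hy
  rw [Set.mem_pow] at hy
  obtain ⟨f, rfl⟩ := hy
  have h1 : ∀ i : Fin (hh p), ∃ j : ZMod p, (f i : Module.End Λ A) ∈ lcc (p := p) ω α α' L j :=
    fun i => (f i).2
  choose d hd using h1
  have h2 := eb_hom_zero B O (l := List.ofFn (fun i => (d i, (f i : Module.End Λ A))))
    (by
      intro t ht
      rw [List.mem_ofFn] at ht
      obtain ⟨i, rfl⟩ := ht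
      exact hd i) (by rw [List.length_ofFn])
  rw [List.map_ofFn] at h2
  exact h2

end Pool.Agent.BFS
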