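import Pool.Agent.BFS.Defs

/-!
# BFS/EC: a free extension with a root of unity

`f = Polynomial.cyclotomic p Λ` is monic (`Polynomial.cyclotomic.monic`), `f = ∑_{i < p} X^i` (`Polynomial.cyclotomic_prime`), so in
`AdjoinRoot f` the root `ω` satisfies `∑_{i<p} ω^i = 0` (`AdjoinRoot.eval₂_root` or `AdjoinRoot.mk_self`), `ω^p = 1`
(`Commute.mul_geom_sum` / `mul_geom_sum`: `(ω - 1) * ∑ ω^i = ω^p - 1`); for `p` not dividing `m` the map `t ↦ m t mod p` permutes
`{0, .., p-1}`, so `∑_{t<p} ω^(m t) = ∑_{i<p} ω^i = 0`.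
`ext_free`: `Polynomial.Monic.free_adjoinRoot` (or `AdjoinRoot.powerBasis'`).  `ext_nt`: `AdjoinRoot.nontrivial` needs `f.degree ≠ 0` over a
field; here: `AdjoinRoot f` is free with a basis indexed by `Fin f.natDegree`, `natDegree = p - 1 > 0`, and `Λ` is nontrivial.
-/

set_option autoImplicit false

namespace Pool.Agent.BFS

variable {p : ℕ} (Λ : Type*) [CommRing Λ]

theorem ext_om (hp : p.Prime) : Om p (AdjoinRoot.root (Polynomial.cyclotomic p Λ)) := by
  have : Fact p.Prime := ⟨hp⟩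
  have h0 : ∑ i ∈ Finset.range p, (AdjoinRoot.root (Polynomial.cyclotomic p Λ)) ^ i = 0 := by
    have h1 := AdjoinRoot.eval₂_root (Polynomial.cyclotomic p Λ)
    have h2 : ∀ (q : Polynomial Λ), q = ∑ i ∈ Finset.range p, Polynomial.X ^ i →
        Polynomial.eval₂ (AdjoinRoot.of (Polynomial.cyclotomic p Λ)) (AdjoinRoot.root (Polynomial.cyclotomic p Λ)) q =
        ∑ i ∈ Finset.range p, (AdjoinRoot.root (Polynomial.cyclotomic p Λ)) ^ i := by
      intro q hq
      rw [hq, Polynomial.eval₂_finsetSum]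
      refine Finset.sum_congr rfl fun i _ => ?_
      rw [Polynomial.eval₂_X_pow]
    rw [← h2 _ (Polynomial.cyclotomic_prime Λ p)]
    exact h1
  have h1 : (AdjoinRoot.root (Polynomial.cyclotomic p Λ)) ^ p = 1 := by
    have h2 := geom_sum_mul (AdjoinRoot.root (Polynomial.cyclotomic p Λ)) p
    rw [h0, zero_mul] at h2
    exact (sub_eq_zero.1 h2.symm)
  refine ⟨h1, fun m hm => ?_⟩
  rw [← h0]
  have hc : Nat.Coprime p m := (Nat.Prime.coprime_iff_not_dvd hp).2 hm
  have hmaps : ∀ t ∈ Finset.range p, (m * t) % p ∈ Finset.range p := fun t _ =>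
    Finset.mem_range.2 (Nat.mod_lt _ hp.pos)
  have hinj : Set.InjOn (fun t => (m * t) % p) (Finset.range p : Set ℕ) := by
    intro s hs t ht hst
    have h3 : m * s ≡ m * t [MOD p] := hst
    have h4 := Nat.ModEq.cancel_left_of_coprime hc h3
    have hs' : s < p := Finset.mem_range.1 (Finset.mem_coe.1 hs)
    have ht' : t < p := Finset.mem_range.1 (Finset.mem_coe.1 ht)
    exact Nat.ModEq.eq_of_lt_of_lt h4 hs' ht'
  refine Finset.sum_nbij (fun t => (m * t) % p) hmaps hinj
    (Finset.surjOn_of_injOn_of_card_le _ hmaps hinj le_rfl) ?_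
  intro t _
  exact pow_eq_pow_mod _ h1

theorem ext_free (hp : p.Prime) : Module.Free Λ (AdjoinRoot (Polynomial.cyclotomic p Λ)) := by
  have _ := hp
  exact (Polynomial.cyclotomic.monic p Λ).free_adjoinRoot

theorem ext_nt [Nontrivial Λ] (hp : p.Prime) (h5 : 5 ≤ p) : Nontrivial (AdjoinRoot (Polynomial.cyclotomic p Λ)) := by
  refine Ideal.Quotient.nontrivial_iff.2 ?_
  intro h
  rw [Ideal.span_singleton_eq_top] at h
  have h1 := (Polynomial.cyclotomic.monic p Λ).eq_one_of_isUnit h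
  have h2 := Polynomial.natDegree_cyclotomic p Λ
  rw [h1, Polynomial.natDegree_one, Nat.totient_prime hp] at h2
  omega

end Pool.Agent.BFS
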