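import Pool.Agent.BFS.EB
import Pool.Agent.BFS.EC

/-!
# BFS/ED: products of `hh p` elements of `L` vanish

If `Λ` is trivial, then `A` and `End A` are trivial (`Module.subsingleton`) and `L ^ _ = ⊥`.  Otherwise let
`Λ' = AdjoinRoot (cyclotomic p Λ)`, `A' = TensorProduct Λ Λ' A`, `β y = y.baseChange Λ'` (a ring homomorphism
`Module.End Λ A → Module.End Λ' A'`: `LinearMap.baseChange_mul`, `LinearMap.baseChange_one`, `Module.End.baseChangeHom`), and
`L' = Submodule.span Λ' (β '' L)`.  `Br p (β α) (β α') L'`: `unit`: the image of a unit (`map_natCast`); `sum`, `powp`: `β` is a ring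
homomorphism; `br`, `al`, `orb`: span induction (bilinear / linear) from the corresponding facts for `L`.  `om_pow` with `ext_om` gives
`L' ^ hh p = ⊥`.  For `y₁, .., y_h ∈ L` the product `β (y₁ ⋯ y_h)` is in `L' ^ h`, so it is `0`, so `1 ⊗ (y₁ ⋯ y_h) v = 0` for all `v`, and
`v ↦ 1 ⊗ v` is injective, because `Λ'` is free and nontrivial (`ext_free`, `ext_nt`; `Module.FaithfullyFlat` of a nontrivial free
module and `Module.FaithfullyFlat.tensorProduct_mk_injective`, or use a basis).  `L ^ h` is spanned by such products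
(`Submodule.pow_induction_on_left'`, or `Submodule.span_pow`, `Set.mem_pow` as in `FRK/RG`, `lie_pow`).
-/

set_option autoImplicit false

namespace Pool.Agent.BFS

open Pool.Agent.FRK (hh)

variable {p : ℕ} {Λ : Type*} [CommRing Λ] {A : Type*} [AddCommGroup A] [Module Λ A] {α α' : Module.End Λ A}
  {L : Submodule Λ (Module.End Λ A)}

private theorem ed_gen {S R : Type*} [CommRing S] [Ring R] [Algebra S R] (s : Set R)
    (h : ∀ x ∈ s, ∀ y ∈ s, x * y - y * x ∈ Submodule.span S s) :
    ∀ x ∈ Submodule.span S s, ∀ y ∈ Submodule.span S s, x * y - y * x ∈ Submodule.span S s := by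
  intro x hx y hy
  induction hx using Submodule.span_induction with
  | mem x hx =>
    induction hy using Submodule.span_induction with
    | mem y hy => exact h x hx y hy
    | zero =>
      rw [mul_zero, zero_mul, sub_zero]
      exact Submodule.zero_mem _
    | add a b _ _ ha hb =>
      have e : x * (a + b) - (a + b) * x = (x * a - a * x) + (x * b - b * x) := by noncomm_ring
      rw [e]
      exact Submodule.add_mem _ ha hb
    | smul c a _ ha =>
      rw [mul_smul_comm, smul_mul_assoc, ← smul_sub]
      exact Submodule.smul_mem _ _ ha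
  | zero =>
    rw [mul_zero, zero_mul, sub_zero]
    exact Submodule.zero_mem _
  | add a b _ _ ha hb =>
    have e : (a + b) * y - y * (a + b) = (a * y - y * a) + (b * y - y * b) := by noncomm_ring
    rw [e]
    exact Submodule.add_mem _ ha hb
  | smul c a _ ha =>
    rw [mul_smul_comm, smul_mul_assoc, ← smul_sub]
    exact Submodule.smul_mem _ _ ha

private theorem ed_comm (Λ' : Type*) [CommRing Λ'] [Algebra Λ Λ'] (B : Br p α α' L) :
    ∀ x ∈ Submodule.span Λ' (Module.End.baseChangeHom Λ Λ' A '' (L : Set (Module.End Λ A))),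
    ∀ y ∈ Submodule.span Λ' (Module.End.baseChangeHom Λ Λ' A '' (L : Set (Module.End Λ A))),
      x * y - y * x ∈ Submodule.span Λ' (Module.End.baseChangeHom Λ Λ' A '' (L : Set (Module.End Λ A))) := by
  refine ed_gen (S := Λ') (R := Module.End Λ' (TensorProduct Λ Λ' A)) _ ?_
  rintro x ⟨u, hu, rfl⟩ y ⟨v, hv, rfl⟩
  have h := map_sub (Module.End.baseChangeHom Λ Λ' A) (u * v) (v * u)
  rw [map_mul, map_mul] at h
  have h2 : Module.End.baseChangeHom Λ Λ' A (u * v - v * u) ∈
      Submodule.span Λ' (Module.End.baseChangeHom Λ Λ' A '' (L : Set (Module.End Λ A))) :=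
    Submodule.subset_span ⟨_, B.br u hu v hv, rfl⟩
  rw [h] at h2
  exact h2

private theorem ed_br (Λ' : Type*) [CommRing Λ'] [Algebra Λ Λ'] (B : Br p α α' L) :
    Br p (Module.End.baseChangeHom Λ Λ' A α) (Module.End.baseChangeHom Λ Λ' A α')
      (Submodule.span Λ' (Module.End.baseChangeHom Λ Λ' A '' (L : Set (Module.End Λ A)))) where
  pp := B.pp
  unit := by
    have h := B.unit.map (algebraMap Λ Λ')
    rwa [map_natCast] at h
  inv := by rw [← map_mul, B.inv, map_one]
  inv' := by rw [← map_mul, B.inv', map_one]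
  powp := by rw [← map_pow, B.powp, map_one]
  sum := by
    have h := congrArg (Module.End.baseChangeHom Λ Λ' A) B.sum
    rw [map_sum, map_zero] at h
    rw [← h]
    exact Finset.sum_congr rfl fun i _ => (map_pow _ _ _).symm
  br := ed_comm Λ' B
  al := by
    intro x hx
    induction hx using Submodule.span_induction with
    | mem x hx =>
      obtain ⟨u, hu, rfl⟩ := hx
      rw [← map_mul, ← map_mul]
      exact Submodule.subset_span ⟨_, B.al u hu, rfl⟩
    | zero =>
      rw [mul_zero, zero_mul]
      exact Submodule.zero_mem _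
    | add a b _ _ ha hb =>
      rw [mul_add, add_mul]
      exact Submodule.add_mem _ ha hb
    | smul c a _ ha =>
      rw [mul_smul_comm, smul_mul_assoc]
      exact Submodule.smul_mem _ _ ha
  orb := by
    intro x hx
    induction hx using Submodule.span_induction with
    | mem x hx =>
      obtain ⟨u, hu, rfl⟩ := hx
      have h := congrArg (Module.End.baseChangeHom Λ Λ' A) (B.orb u hu)
      rw [map_sum, map_zero] at h
      rw [← h]
      refine Finset.sum_congr rfl fun i _ => ?_
      rw [map_mul, map_mul, map_pow, map_pow]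
    | zero =>
      refine Finset.sum_eq_zero fun i _ => ?_
      rw [mul_zero, zero_mul]
    | add a b _ _ ha hb =>
      have e : ∑ i ∈ Finset.range p, Module.End.baseChangeHom Λ Λ' A α ^ i * (a + b) * Module.End.baseChangeHom Λ Λ' A α' ^ i
          = ∑ i ∈ Finset.range p, Module.End.baseChangeHom Λ Λ' A α ^ i * a * Module.End.baseChangeHom Λ Λ' A α' ^ i
          + ∑ i ∈ Finset.range p, Module.End.baseChangeHom Λ Λ' A α ^ i * b * Module.End.baseChangeHom Λ Λ' A α' ^ i := by
        rw [← Finset.sum_add_distrib]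
        refine Finset.sum_congr rfl fun i _ => ?_
        rw [mul_add, add_mul]
      rw [e, ha, hb, add_zero]
    | smul c a _ ha =>
      have e : ∑ i ∈ Finset.range p, Module.End.baseChangeHom Λ Λ' A α ^ i * (c • a) * Module.End.baseChangeHom Λ Λ' A α' ^ i
          = c • ∑ i ∈ Finset.range p, Module.End.baseChangeHom Λ Λ' A α ^ i * a * Module.End.baseChangeHom Λ Λ' A α' ^ i := by
        rw [Finset.smul_sum]
        refine Finset.sum_congr rfl fun i _ => ?_
        rw [mul_smul_comm, smul_mul_assoc]
      rw [e, ha, smul_zero]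

private theorem ed_pow (Λ' : Type*) [CommRing Λ'] [Algebra Λ Λ'] (n : ℕ) :
    ∀ y ∈ L ^ n, Module.End.baseChangeHom Λ Λ' A y ∈
      (Submodule.span Λ' (Module.End.baseChangeHom Λ Λ' A '' (L : Set (Module.End Λ A)))) ^ n := by
  induction n with
  | zero =>
    intro y hy
    rw [pow_zero, Submodule.mem_one] at hy ⊢
    obtain ⟨c, rfl⟩ := hy
    refine ⟨algebraMap Λ Λ' c, ?_⟩
    rw [AlgHom.commutes, ← IsScalarTower.algebraMap_apply]
  | succ n ih =>
    intro y hy
    rw [pow_succ] at hy ⊢
    induction hy using Submodule.mul_induction_on' with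
    | mem_mul_mem a ha b hb =>
      rw [map_mul]
      exact Submodule.mul_mem_mul (ih a ha) (Submodule.subset_span ⟨b, hb, rfl⟩)
    | add a _ b _ ha hb =>
      rw [map_add]
      exact Submodule.add_mem _ ha hb

theorem br_pow (B : Br p α α' L) (h5 : 5 ≤ p) : L ^ (hh p) = ⊥ := by
  rcases subsingleton_or_nontrivial Λ with hs | hn
  · have h1 : Subsingleton A := Module.subsingleton Λ A
    rw [eq_bot_iff]
    intro y _
    rw [Submodule.mem_bot]
    apply LinearMap.ext
    intro v
    exact Subsingleton.elim _ _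
  · have hf := ext_free Λ B.pp
    have hnt := ext_nt Λ B.pp h5
    have h1 := om_pow (ed_br (AdjoinRoot (Polynomial.cyclotomic p Λ)) B) (ext_om Λ B.pp)
    rw [eq_bot_iff]
    intro y hy
    have h2 := ed_pow (AdjoinRoot (Polynomial.cyclotomic p Λ)) (hh p) y hy
    rw [h1, Submodule.mem_bot] at h2
    rw [Submodule.mem_bot]
    apply LinearMap.ext
    intro v
    apply Module.FaithfullyFlat.tensorProduct_mk_injective (A := Λ) (B := AdjoinRoot (Polynomial.cyclotomic p Λ)) A
    have h3 : TensorProduct.tmul Λ (1 : AdjoinRoot (Polynomial.cyclotomic p Λ)) (y v) = 0 :=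
      LinearMap.congr_fun h2 (TensorProduct.tmul Λ (1 : AdjoinRoot (Polynomial.cyclotomic p Λ)) v)
    rw [LinearMap.zero_apply, map_zero]
    exact h3

end Pool.Agent.BFS
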