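import Pool.Agent.BFS.UA
import Pool.Agent.FRK.PC
import Pool.Agent.FRK.PE

/-!
# BFS/LA: logarithms

`log_ex`: every `ρ x` has a logarithm; `log_cj`, `log_al`: conjugates and the action of `α`; `lie_cj`, `lie_al`, `lie_br`: the span
`lie` of all logarithms is a Lie ring, invariant under conjugation and under `α`.
-/

set_option autoImplicit false

namespace Pool.Agent.BFS

open Pool.Agent.FRB (Inv LF SS)
open Pool.Agent.FRS (Hyp)
open Pool.Agent.FRK (hh IsLog)

variable {p r n : ℕ} {X : Type*} [Group X] {a : MulAut X} {A : Type*} [AddCommGroup A] [Module (ZMod (r ^ n)) A]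
  {ρ : X →* Module.End (ZMod (r ^ n)) A} {α α' : Module.End (ZMod (r ^ n)) A}

private theorem bla_gg {X R : Type*} [Group X] [Ring R] (ρ : X →* R) (g : X) : ρ g * ρ g⁻¹ = 1 := by
  rw [← map_mul, mul_inv_cancel, map_one]

private theorem bla_gg' {X R : Type*} [Group X] [Ring R] (ρ : X →* R) (g : X) : ρ g⁻¹ * ρ g = 1 := by
  rw [← map_mul, inv_mul_cancel, map_one]

theorem log_ex (P : Rq p r n a ρ α α') (x : X) : ∃ y, IsLog (hh p) (ρ x) y := by
  exact Pool.Agent.FRK.log_exists (Λ := ZMod (r ^ n)) (d := hh p) (P.nil x)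
    (fun m h0 hm => unit_nat P.root n h0 (by have := P.root.two; omega))

theorem log_cj (P : Rq p r n a ρ α α') {z : X} {y : Module.End (ZMod (r ^ n)) A} (hy : IsLog (hh p) (ρ z) y) (u : X) :
    IsLog (hh p) (ρ (u⁻¹ * z * u)) (ρ u⁻¹ * y * ρ u) := by
  have h := Pool.Agent.FRK.log_conj (bla_gg ρ u) (bla_gg' ρ u) hy
  rwa [← map_mul, ← map_mul] at h

theorem log_al (P : Rq p r n a ρ α α') {z : X} {y : Module.End (ZMod (r ^ n)) A} (hy : IsLog (hh p) (ρ z) y) :
    IsLog (hh p) (ρ (a z)) (α * y * α') := by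
  have h : IsLog (hh p) (α * ρ z * α') (α * y * α') := Pool.Agent.FRK.log_conj P.inv' P.inv hy
  rwa [P.conj] at h

theorem lie_cj (P : Rq p r n a ρ α α') {y : Module.End (ZMod (r ^ n)) A} (hy : y ∈ lie p r n ρ) (u : X) :
    ρ u⁻¹ * y * ρ u ∈ lie p r n ρ := by
  unfold lie at hy
  induction hy using Submodule.span_induction with
  | mem y hy =>
    obtain ⟨x, hl⟩ := hy
    exact Submodule.subset_span ⟨u⁻¹ * x * u, log_cj P hl u⟩
  | zero => rw [mul_zero, zero_mul]; exact Submodule.zero_mem _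
  | add y z _ _ hy hz => rw [mul_add, add_mul]; exact Submodule.add_mem _ hy hz
  | smul c y _ hy => rw [mul_smul_comm, smul_mul_assoc]; exact Submodule.smul_mem _ _ hy

theorem lie_al (P : Rq p r n a ρ α α') {y : Module.End (ZMod (r ^ n)) A} (hy : y ∈ lie p r n ρ) :
    α * y * α' ∈ lie p r n ρ := by
  unfold lie at hy
  induction hy using Submodule.span_induction with
  | mem y hy =>
    obtain ⟨x, hl⟩ := hy
    exact Submodule.subset_span ⟨a x, log_al P hl⟩
  | zero => rw [mul_zero, zero_mul]; exact Submodule.zero_mem _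
  | add y z _ _ hy hz => rw [mul_add, add_mul]; exact Submodule.add_mem _ hy hz
  | smul c y _ hy => rw [mul_smul_comm, smul_mul_assoc]; exact Submodule.smul_mem _ _ hy

theorem lie_br (P : Rq p r n a ρ α α') {y z : Module.End (ZMod (r ^ n)) A} (hy : y ∈ lie p r n ρ)
    (hz : z ∈ lie p r n ρ) : y * z - z * y ∈ lie p r n ρ := by
  have hz' := hz
  unfold lie at hz'
  clear hz
  induction hz' using Submodule.span_induction with
  | mem z hz =>
    obtain ⟨x, hl⟩ := hz
    obtain ⟨z', hz'⟩ := log_ex P x⁻¹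
    refine Pool.Agent.FRK.log_br (Λ := ZMod (r ^ n))
      (fun m h0 hm => unit_nat P.root n h0 (lt_of_le_of_lt hm P.root.two))
      (bla_gg ρ x) (bla_gg' ρ x) hl hz' _ ?_
    intro m
    rw [← map_pow, ← map_pow, inv_pow]
    exact lie_cj P hy _
  | zero => rw [mul_zero, zero_mul, sub_zero]; exact Submodule.zero_mem _
  | add z w _ _ hz hw =>
    have h1 : y * (z + w) - (z + w) * y = (y * z - z * y) + (y * w - w * y) := by noncomm_ring
    rw [h1]; exact Submodule.add_mem _ hz hw
  | smul c z _ hz =>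
    rw [mul_smul_comm, smul_mul_assoc, ← smul_sub]; exact Submodule.smul_mem _ _ hz

end Pool.Agent.BFS
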