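import Pool.Agent.BFS.LA
import Pool.Agent.FRK.PF
import Pool.Agent.FRK.Spl

/-!
# BFS/LB: the sum over the orbit vanishes

Port of `FRK/RE` (`log_orb`, `lie_orb`): for a logarithm `y` of `ρ z` (and `y'` of `ρ z⁻¹`: `log_ex`) apply `FRK.log_sum` with
`q = (p - 1) / 2` (`odd_p`), `d = hh p`, `S i = ρ ((a^i) z)`, `S' i = ρ ((a^i) z⁻¹)`, `u i = α^i * y * α'^i`, `u' i = α^i * y' * α'^i`; units:
`unit_nat`, `Big.half`; the product is `1` by `FRK.split`.  `lie_orb`: span induction.
-/

set_option autoImplicit false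

namespace Pool.Agent.BFS

open Pool.Agent.FRB (Inv LF SS)
open Pool.Agent.FRS (Hyp)
open Pool.Agent.FRK (hh IsLog)

variable {p r n : ℕ} {X : Type*} [Group X] {a : MulAut X} {A : Type*} [AddCommGroup A] [Module (ZMod (r ^ n)) A]
  {ρ : X →* Module.End (ZMod (r ^ n)) A} {α α' : Module.End (ZMod (r ^ n)) A}

private theorem LB_step (P : Rq p r n a ρ α α') {z : X} {y : Module.End (ZMod (r ^ n)) A} (hy : IsLog (hh p) (ρ z) y) (i : ℕ) :
    IsLog (hh p) (ρ ((a ^ i) z)) (α ^ i * y * α' ^ i) := by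
  induction i with
  | zero =>
    rw [pow_zero, pow_zero, pow_zero, one_mul, mul_one]
    exact hy
  | succ i ih =>
    have h1 := log_al P ih
    have h2 : α * (α ^ i * y * α' ^ i) * α' = α ^ (i + 1) * y * α' ^ (i + 1) := by
      rw [pow_succ' α, pow_succ α']
      simp only [mul_assoc]
    have h3 : a ((a ^ i) z) = (a ^ (i + 1)) z := by
      rw [pow_succ', MulAut.mul_apply]
    rw [h2, h3] at h1
    exact h1

private theorem LB_log (P : Rq p r n a ρ α α') {z : X} {y : Module.End (ZMod (r ^ n)) A} (hy : IsLog (hh p) (ρ z) y) :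
    ∑ i ∈ Finset.range p, α ^ i * y * α' ^ i = 0 := by
  obtain ⟨y', hy'⟩ := log_ex P z⁻¹
  have hodd := odd_p P.root
  have hinv : ∀ w : X, ρ w * ρ w⁻¹ = 1 := fun w => by rw [← map_mul, mul_inv_cancel, map_one]
  have hinv' : ∀ w : X, ρ w⁻¹ * ρ w = 1 := fun w => by rw [← map_mul, inv_mul_cancel, map_one]
  have key := Pool.Agent.FRK.log_sum (Λ := ZMod (r ^ n)) (d := hh p) (q := (p - 1) / 2) (S := fun i => ρ ((a ^ i) z))
    (S' := fun i => ρ ((a ^ i) z⁻¹)) (u := fun i => α ^ i * y * α' ^ i) (u' := fun i => α ^ i * y' * α' ^ i)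
    (by
      have := P.root.five
      omega)
    (fun m h0 hm => unit_nat P.root n h0 (lt_of_le_of_lt hm P.root.half))
    (fun i => by
      show ρ ((a ^ i) z) * ρ ((a ^ i) z⁻¹) = 1
      rw [map_inv, hinv])
    (fun i => by
      show ρ ((a ^ i) z⁻¹) * ρ ((a ^ i) z) = 1
      rw [map_inv, hinv'])
    (fun i => LB_step P hy i) (fun i => LB_step P hy' i)
    (by
      intro m
      rw [hodd]
      have h1 := Pool.Agent.FRK.split P.hyp (z ^ m)
      have h2 : ((List.range p).map fun i => ρ ((a ^ i) z) ^ m) =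
          ((List.range p).map fun i => (a ^ i) (z ^ m)).map ρ := by
        rw [List.map_map]
        refine List.map_congr_left fun i _ => ?_
        show ρ ((a ^ i) z) ^ m = ρ ((a ^ i) (z ^ m))
        rw [map_pow, map_pow]
      rw [h2, ← map_list_prod, h1, map_one])
  rw [hodd] at key
  exact key

theorem lie_orb (P : Rq p r n a ρ α α') {y : Module.End (ZMod (r ^ n)) A} (hy : y ∈ lie p r n ρ) :
    ∑ i ∈ Finset.range p, α ^ i * y * α' ^ i = 0 := by
  unfold lie at hy
  induction hy using Submodule.span_induction with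
  | mem y hy =>
    obtain ⟨x, hy⟩ := hy
    exact LB_log P hy
  | zero =>
    refine Finset.sum_eq_zero fun i _ => ?_
    rw [mul_zero, zero_mul]
  | add y z _ _ hy hz =>
    have h1 : ∀ i, α ^ i * (y + z) * α' ^ i = α ^ i * y * α' ^ i + α ^ i * z * α' ^ i := by
      intro i
      rw [mul_add, add_mul]
    simp only [h1]
    rw [Finset.sum_add_distrib, hy, hz, add_zero]
  | smul c y _ hy =>
    have h1 : ∀ i, α ^ i * (c • y) * α' ^ i = c • (α ^ i * y * α' ^ i) := by
      intro i
      rw [mul_smul_comm, smul_mul_assoc]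
    simp only [h1]
    rw [← Finset.smul_sum, hy, smul_zero]

end Pool.Agent.BFS
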