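import Pool.Agent.BFS.LB
import Pool.Agent.BFS.ED

/-!
# BFS/LC: the linear theorem for all elements

`lie ^ hh p = ⊥` by `br_pow` (`Br`: `lie_br`, `lie_al`, `lie_orb`, `unit_nat` with `Big.lt`).  Then as in `FRK/RH` (copy the private lemmas `rh_mul`,
`rh_one`, `rh_comm`, `rh_pow`, `rh_J`, `rh_list`); `rh_all` is now immediate for all `g` (`log_ex`, `FRK.log_span` with `Λ = ZMod (r^n)`, units below
`hh p < r`), no generation by eigen-elements is needed.
-/

set_option autoImplicit false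

namespace Pool.Agent.BFS

open Pool.Agent.FRB (Inv LF SS)
open Pool.Agent.FRS (Hyp)
open Pool.Agent.FRK (hh IsLog)

section aux

variable {Λ : Type*} [CommRing Λ] {R : Type*} [Ring R] [Algebra Λ R]

private theorem lc_mul (L : Submodule Λ R) : (⨆ m : ℕ, L ^ m) * (⨆ m : ℕ, L ^ m) ≤ ⨆ m : ℕ, L ^ m := by
  rw [Submodule.iSup_mul]
  refine iSup_le fun i => ?_
  rw [Submodule.mul_iSup]
  refine iSup_le fun j => ?_
  rw [← pow_add]
  exact le_iSup (fun m : ℕ => L ^ m) (i + j)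

private theorem lc_one (L : Submodule Λ R) : 1 ≤ ⨆ m : ℕ, L ^ m := by
  have h := le_iSup (fun m : ℕ => L ^ m) 0
  rwa [pow_zero] at h

private theorem lc_comm (L : Submodule Λ R) : (⨆ m : ℕ, L ^ m) * L = L * ⨆ m : ℕ, L ^ m := by
  rw [Submodule.iSup_mul, Submodule.mul_iSup]
  refine iSup_congr fun m => ?_
  rw [← pow_succ, pow_succ']

private theorem lc_pow (L : Submodule Λ R) (m : ℕ) :
    (L * ⨆ m : ℕ, L ^ m) ^ m ≤ L ^ m * ⨆ m : ℕ, L ^ m := by
  induction m with
  | zero =>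
    rw [pow_zero, pow_zero, one_mul]
    exact lc_one L
  | succ m ih =>
    rw [pow_succ]
    calc (L * ⨆ m : ℕ, L ^ m) ^ m * (L * ⨆ m : ℕ, L ^ m)
        ≤ (L ^ m * ⨆ m : ℕ, L ^ m) * (L * ⨆ m : ℕ, L ^ m) := mul_le_mul' ih le_rfl
      _ = L ^ m * ((⨆ m : ℕ, L ^ m) * L) * ⨆ m : ℕ, L ^ m := by simp only [mul_assoc]
      _ = L ^ (m + 1) * ((⨆ m : ℕ, L ^ m) * ⨆ m : ℕ, L ^ m) := by
          rw [lc_comm, pow_succ]
          simp only [mul_assoc]
      _ ≤ L ^ (m + 1) * ⨆ m : ℕ, L ^ m := mul_le_mul' le_rfl (lc_mul L)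

private theorem lc_list (J : Submodule Λ R) (l : List R) (h : ∀ x ∈ l, x ∈ J) : l.prod ∈ J ^ l.length := by
  induction l with
  | nil =>
    rw [List.prod_nil, List.length_nil, pow_zero]
    exact Submodule.mem_one.2 ⟨1, map_one _⟩
  | cons x l ih =>
    rw [List.prod_cons, List.length_cons, pow_succ']
    exact Submodule.mul_mem_mul (h x List.mem_cons_self) (ih fun y hy => h y (List.mem_cons_of_mem _ hy))

end aux

variable {p r n : ℕ} {X : Type*} [Group X] {a : MulAut X} {A : Type*} [AddCommGroup A] [Module (ZMod (r ^ n)) A]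
  {ρ : X →* Module.End (ZMod (r ^ n)) A} {α α' : Module.End (ZMod (r ^ n)) A}

private theorem lc_br (P : Rq p r n a ρ α α') : Br p α α' (lie p r n ρ) where
  pp := P.root.pp
  unit := unit_nat P.root n P.root.pp.pos P.root.lt
  inv := P.inv
  inv' := P.inv'
  powp := P.powp
  sum := P.sum
  br := fun _ hx _ hy => lie_br P hx hy
  al := fun _ hx => lie_al P hx
  orb := fun _ hy => lie_orb P hy

private theorem lc_all (P : Rq p r n a ρ α α') (g : X) :
    ρ g - 1 ∈ lie p r n ρ * ⨆ m : ℕ, (lie p r n ρ) ^ m := by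
  obtain ⟨y, hy⟩ := log_ex P g
  have hy' : y ∈ lie p r n ρ := Submodule.subset_span ⟨g, hy⟩
  have hr : hh p < r := by
    have h1 := P.root.two
    omega
  have h1 := Pool.Agent.FRK.log_span (Λ := ZMod (r ^ n))
    (fun m h0 hm => unit_nat P.root n h0 (lt_of_le_of_lt hm hr)) hy
  refine Submodule.span_le.2 ?_ h1
  rintro _ ⟨j, hj, rfl⟩
  obtain ⟨j, rfl⟩ : ∃ j', j = j' + 1 := ⟨j - 1, by omega⟩
  rw [pow_succ']
  exact Submodule.mul_mem_mul hy' (le_iSup (fun m : ℕ => (lie p r n ρ) ^ m) j (Submodule.pow_mem_pow _ hy' j))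

theorem rep (P : Rq p r n a ρ α α') (l : List X) (hl : l.length = hh p) :
    (l.map fun g => ρ g - 1).prod = 0 := by
  have h1 := lc_list (lie p r n ρ * ⨆ m : ℕ, (lie p r n ρ) ^ m) (l.map fun g => ρ g - 1) (by
    intro x hx
    obtain ⟨g, -, rfl⟩ := List.mem_map.1 hx
    exact lc_all P g)
  rw [List.length_map, hl] at h1
  have h2 := lc_pow (lie p r n ρ) (hh p) h1
  rw [br_pow (lc_br P) P.root.five, Submodule.bot_mul] at h2
  exact (Submodule.mem_bot _).1 h2

end Pool.Agent.BFS
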