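import Pool.Agent.FRK.GB

/-!
# BFS/LSa: elements of a group of prime exponent act unipotently on abelian normal subgroups

`act_nil`: `A` commutative normal, exponent `r`: on the module `Additive A` the automorphism `m` (conjugation by `x`) satisfies
`1 + m + ... + m^(r-1) = 0` (because `(v x)^r = v * (x v x⁻¹) * ... * (x^(r-1) v x^(1-r)) * x^r = 1`), `r • v = 0`, so `(m - 1)^(r-1) = 0`
(in `(ZMod r)[X]`: `(X - 1)^r = X^r - 1 = (X - 1) (1 + X + ... + X^(r-1))`, cancel `X - 1`; evaluate at `m` in `Module.End (ZMod r) (Additive A)`, or use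
`r * Q = (X - 1)^(r-1) - (1 + X + ... + X^(r-1))` in `ℤ[X]` and evaluate in `AddMonoid.End (Additive A)`).
`ic v (List.replicate n x)` is `(1 - m)^n v` (`ic` is defined by `[u, g] = u * g * u⁻¹ * g⁻¹`, for `u ∈ A`: `u * (g u⁻¹ g⁻¹)`).
-/

set_option autoImplicit false

namespace Pool.Agent.BFS

open Pool.Agent.FRK (ic)

universe u

variable {H : Type u} [Group H]

open Polynomial in
private theorem LSa_poly {r : ℕ} (hr : r.Prime) :
    ((X : (ZMod r)[X]) - 1) ^ (r - 1) = ∑ i ∈ Finset.range r, X ^ i := by
  have : Fact r.Prime := ⟨hr⟩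
  have h0 : ((X : (ZMod r)[X]) - 1) ≠ 0 := by
    have := Polynomial.X_sub_C_ne_zero (1 : ZMod r)
    rwa [Polynomial.C_1] at this
  apply mul_right_cancel₀ h0
  rw [geom_sum_mul, ← pow_succ, Nat.sub_add_cancel hr.one_le, sub_pow_char, one_pow]

private theorem LSa_pow (v x : H) (n : ℕ) :
    (v * x) ^ n = (List.map (fun i => x ^ i * v * (x ^ i)⁻¹) (List.range n)).prod * x ^ n := by
  induction n with
  | zero => simp
  | succ n ih =>
    rw [pow_succ, ih, List.range_succ, List.map_append, List.prod_append, List.map_singleton,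
      List.prod_singleton, pow_succ]
    group

private theorem LSa_lin {M : Type u} [AddCommGroup M] {r : ℕ} [Module (ZMod r) M] (hr : r.Prime)
    (f : M →ₗ[ZMod r] M) (m : M →+ M) (hf : ∀ v, f v = m v)
    (hm : ∀ v : M, ∑ i ∈ Finset.range r, (⇑m)^[i] v = 0) (v : M) :
    (⇑(AddMonoidHom.id M - m))^[r - 1] v = 0 := by
  have : Fact r.Prime := ⟨hr⟩
  have hfi : ∀ (i : ℕ) (v : M), ((f : Module.End (ZMod r) M) ^ i) v = (⇑m)^[i] v := by
    intro i
    induction i with
    | zero => intro v; rfl
    | succ i ih =>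
      intro v
      rw [pow_succ, Module.End.mul_apply, ih, hf, Function.iterate_succ_apply]
  have h1 : ((f : Module.End (ZMod r) M) - 1) ^ (r - 1) = 0 := by
    have h2 := congrArg (Polynomial.aeval (f : Module.End (ZMod r) M)) (LSa_poly hr)
    rw [map_pow, map_sub, Polynomial.aeval_X, map_one, map_sum] at h2
    rw [h2]
    ext v
    rw [LinearMap.sum_apply, LinearMap.zero_apply, ← hm v]
    refine Finset.sum_congr rfl fun i _ => ?_
    rw [map_pow, Polynomial.aeval_X]
    exact hfi i v
  have h3 : (1 - (f : Module.End (ZMod r) M)) ^ (r - 1) = 0 := by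
    rw [← neg_sub, neg_pow, h1, mul_zero]
  have h4 : ∀ (i : ℕ) (v : M), ((1 - (f : Module.End (ZMod r) M)) ^ i) v =
      (⇑(AddMonoidHom.id M - m))^[i] v := by
    intro i
    induction i with
    | zero => intro v; rfl
    | succ i ih =>
      intro v
      rw [pow_succ, Module.End.mul_apply, ih, Function.iterate_succ_apply]
      congr 1
      show v - f v = v - m v
      rw [hf]
  rw [← h4, h3]
  rfl

private theorem LSa_one {M : Type u} [AddCommGroup M] {r : ℕ} (hr : r.Prime) (h : ∀ v : M, r • v = 0)
    (m : M →+ M) (hm : ∀ v : M, ∑ i ∈ Finset.range r, (⇑m)^[i] v = 0) (v : M) :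
    (⇑(AddMonoidHom.id M - m))^[r - 1] v = 0 :=
  @LSa_lin M _ r (AddCommGroup.zmodModule h) hr
    (@AddMonoidHom.toZModLinearMap r M M _ _ (AddCommGroup.zmodModule h)
      (AddCommGroup.zmodModule h) m) m (fun _ => rfl) hm v

theorem act_nil {r : ℕ} (hr : r.Prime) (hx : ∀ x : H, x ^ r = 1) (A : Subgroup H) [A.Normal]
    (hA : ∀ x ∈ A, ∀ y ∈ A, Commute x y) (x : H) {v : H} (hv : v ∈ A) : ic v (List.replicate (r - 1) x) = 1 := by
  letI : CommGroup A :=
    { (inferInstance : Group A) with mul_comm := fun a b => Subtype.ext (hA a.1 a.2 b.1 b.2) }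
  let m : A →* A := (MulAut.conjNormal x : MulAut A).toMonoidHom
  have hmv : ∀ w : A, ((m w : A) : H) = x * w * x⁻¹ := fun w => MulAut.conjNormal_apply x w
  let m' : Additive A →+ Additive A := MonoidHom.toAdditive m
  have hm' : ∀ w : Additive A, (((m' w).toMul : A) : H) = x * (w.toMul : A) * x⁻¹ := fun w =>
    hmv w.toMul
  have h1 : ∀ w : Additive A, r • w = 0 := by
    intro w
    apply Additive.toMul.injective
    apply Subtype.ext
    show ((w.toMul : A) : H) ^ r = 1
    exact hx _
  have hit : ∀ (i : ℕ) (w : Additive A),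
      ((((⇑m')^[i] w).toMul : A) : H) = x ^ i * (w.toMul : A) * (x ^ i)⁻¹ := by
    intro i
    induction i with
    | zero => intro w; simp
    | succ i ih =>
      intro w
      rw [Function.iterate_succ_apply, ih, hm', pow_succ]
      group
  have hsum : ∀ (n : ℕ) (w : Additive A),
      (((∑ i ∈ Finset.range n, (⇑m')^[i] w).toMul : A) : H) =
        (List.map (fun i => x ^ i * ((w.toMul : A) : H) * (x ^ i)⁻¹) (List.range n)).prod := by
    intro n w
    induction n with
    | zero => simp
    | succ n ih =>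
      rw [Finset.sum_range_succ, List.range_succ, List.map_append, List.prod_append,
        List.map_singleton, List.prod_singleton, ← ih, ← hit]
      rfl
  have h2 : ∀ w : Additive A, ∑ i ∈ Finset.range r, (⇑m')^[i] w = 0 := by
    intro w
    apply Additive.toMul.injective
    apply Subtype.ext
    rw [hsum]
    have h3 := LSa_pow ((w.toMul : A) : H) x r
    rw [hx, hx, mul_one] at h3
    rw [← h3]
    rfl
  have h3 := LSa_one hr h1 m' h2
  have h4 : ∀ (n : ℕ) (w : Additive A), ic ((w.toMul : A) : H) (List.replicate n x) =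
      ((((⇑(AddMonoidHom.id (Additive A) - m'))^[n] w).toMul : A) : H) := by
    intro n
    induction n with
    | zero => intro w; rfl
    | succ n ih =>
      intro w
      rw [Function.iterate_succ_apply, ← ih, List.replicate_succ]
      show ic (((w.toMul : A) : H) * x * ((w.toMul : A) : H)⁻¹ * x⁻¹) (List.replicate n x) = _
      congr 1
      show _ = (((w - m' w).toMul : A) : H)
      rw [toMul_sub, Subgroup.coe_div, hm', div_eq_mul_inv]
      group
  have h5 := h4 (r - 1) (Additive.ofMul ⟨v, hv⟩)
  rw [h3] at h5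
  exact h5

end Pool.Agent.BFS
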