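import Pool.Agent.BFS.DN
import Pool.Agent.BFS.LSa

/-!
# BFS/LSb: nilpotent groups of prime exponent act nilpotently on abelian normal subgroups

`act_all`: `dn` (with `n = r - 1`, `c` the class of `M`: `Group.IsNilpotent`) for `ρ : M →* AddMonoid.End (Additive A)` (conjugation; compose
with `MulAut.conjNormal`); `hnil` is `act_nil`; `ic v l` corresponds (up to sign, or as `∏ (1 - ρ m)`, in reversed order) to the product of the `ρ m - 1`
(see `FRK/GA`, `core`, `sgn`).  `k = (r - 1) ^ c`; `dn` is applied to the reversed list.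
-/

set_option autoImplicit false

namespace Pool.Agent.BFS

open Pool.Agent.FRK (ic)

universe u

variable {H : Type u} [Group H]

private def lsb_rho {B M : Type u} [CommGroup B] [Group M] (f : M →* MulAut B) : M →* AddMonoid.End (Additive B) where
  toFun m := MonoidHom.toAdditive (f m).toMonoidHom
  map_one' := by
    rw [map_one]
    rfl
  map_mul' m m' := by
    rw [map_mul]
    rfl

private theorem lsb_app {B M : Type u} [CommGroup B] [Group M] (f : M →* MulAut B) (m : M) (b : B) :
    Additive.ofMul (b * (f m b)⁻¹) = - ((lsb_rho f m - 1) (Additive.ofMul b)) := by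
  have h1 : (lsb_rho f m - 1) (Additive.ofMul b) = Additive.ofMul (f m b) - Additive.ofMul b := rfl
  rw [h1, neg_sub, ofMul_mul, ofMul_inv, sub_eq_add_neg]

private theorem lsb_iff {B M : Type u} [CommGroup B] [Group M] (f : M →* MulAut B) : ∀ (l : List M) (b : B),
    l.foldl (fun v m => v * (f m v)⁻¹) b = 1 ↔ (l.reverse.map fun m => lsb_rho f m - 1).prod (Additive.ofMul b) = 0 := by
  intro l
  induction l with
  | nil =>
    intro b
    simp
  | cons m l ih =>
    intro b
    rw [List.foldl_cons, ih, lsb_app, map_neg, neg_eq_zero, List.reverse_cons, List.map_append, List.prod_append,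
      List.map_singleton, List.prod_singleton]
    rfl

private theorem lsb_core {r : ℕ} (hr : r.Prime) {B M : Type u} [CommGroup B] [Group M] (f : M →* MulAut B) (c : ℕ)
    (hc : Subgroup.upperCentralSeries M c = ⊤) (hx : ∀ m : M, m ^ r = 1)
    (hnil : ∀ (m : M) (b : B), (List.replicate (r - 1) m).foldl (fun v m => v * (f m v)⁻¹) b = 1) (l : List M)
    (hl : l.length = (r - 1) ^ c) (b : B) : l.foldl (fun v m => v * (f m v)⁻¹) b = 1 := by
  rw [lsb_iff]
  have h1 : ∀ m : M, (lsb_rho f m - 1) ^ (r - 1) = 0 := by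
    intro m
    refine AddMonoidHom.ext fun x => ?_
    have h2 := (lsb_iff f (List.replicate (r - 1) m) (Additive.toMul x)).1 (hnil m _)
    rw [List.reverse_replicate, List.map_replicate, List.prod_replicate] at h2
    exact h2
  have h3 := dn hr (r - 1) (Nat.sub_lt hr.pos one_pos) c M (AddMonoid.End (Additive B)) (lsb_rho f) hc hx h1 l.reverse
    (by rw [List.length_reverse, hl])
  rw [h3]
  rfl

private theorem lsb_ic (A : Subgroup H) [A.Normal] (M : Subgroup H) (F : A → M → A)
    (hF : ∀ b m, ((F b m : A) : H) = b * m * (b : H)⁻¹ * (m : H)⁻¹) : ∀ (l : List M) (b : A),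
    ic (b : H) (l.map Subtype.val) = ((l.foldl F b : A) : H) := by
  intro l
  induction l with
  | nil =>
    intro b
    rfl
  | cons m l ih =>
    intro b
    have h1 := ih (F b m)
    rw [hF] at h1
    exact h1

theorem act_all {r : ℕ} (hr : r.Prime) (hx : ∀ x : H, x ^ r = 1) (A : Subgroup H) [A.Normal]
    (hA : ∀ x ∈ A, ∀ y ∈ A, Commute x y) (M : Subgroup H) (hM : Group.IsNilpotent M) :
    ∃ k : ℕ, ∀ v ∈ A, ∀ l : List H, (∀ g ∈ l, g ∈ M) → l.length = k → ic v l = 1 := by
  obtain ⟨c, hc⟩ := hM.nilpotent'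
  letI : CommGroup A := { (inferInstance : Group A) with mul_comm := fun a b => Subtype.ext (hA a a.2 b b.2) }
  refine ⟨(r - 1) ^ c, fun v hv l hl hk => ?_⟩
  lift l to List M using hl
  have hF : ∀ (b : A) (m : M), ((b * (((MulAut.conjNormal : H →* MulAut A).comp M.subtype) m b)⁻¹ : A) : H)
      = b * m * (b : H)⁻¹ * (m : H)⁻¹ := by
    intro b m
    have h0 : ((((MulAut.conjNormal : H →* MulAut A).comp M.subtype) m b : A) : H) = m * b * (m : H)⁻¹ :=
      MulAut.conjNormal_apply _ _
    rw [Subgroup.coe_mul, Subgroup.coe_inv, h0]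
    group
  have h1 := lsb_core hr ((MulAut.conjNormal : H →* MulAut A).comp M.subtype) c hc (fun m => Subtype.ext (hx m))
    (fun m b => by
      apply Subtype.ext
      have h2 := lsb_ic A M _ hF (List.replicate (r - 1) m) b
      rw [List.map_replicate, act_nil hr hx A hA m.1 b.2] at h2
      exact h2.symm) l (by rw [← hk, List.length_map]) ⟨v, hv⟩
  have h2 := lsb_ic A M _ hF l ⟨v, hv⟩
  exact h2.trans (congrArg Subtype.val h1)

end Pool.Agent.BFS
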