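import Pool.Agent.BFS.TD

/-!
# BFS/NA: an abelian subgroup `A` and a subgroup `D`, abelian modulo `A`, with centraliser in `A`

`X` finite.  `A` is maximal among the normal invariant commutative subgroups, `C` its centraliser, `D` the subgroup of all `x` in `C` whose
commutators with `C` are in `A`.  The centraliser `Q` of `D` is normal and invariant and contains `A`; `Q ⊓ D` is commutative, so it is `A`.
If `Q` were larger than `A`, its image in the finite `r`-group `X ⧸ A` would meet the centre, in the image of `Q ⊓ D`.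
-/

set_option autoImplicit false

namespace Pool.Agent.BFS

open Pool.Agent.FRB (Inv LF SS)
open Pool.Agent.FRS (Hyp rs qt)
open Pool.Agent.FRK (hh ic Hc)

universe u

variable {p r : ℕ} {X : Type u} [Group X] {a : MulAut X}

private theorem naMeet {X : Type u} [Group X] [Finite X] (hr : r.Prime) (hP : IsPGroup r X) {N : Subgroup X}
    (hN : N.Normal) (h : N ≠ ⊥) : N ⊓ Subgroup.center X ≠ ⊥ := by
  have hp : Fact r.Prime := ⟨hr⟩
  have hnt : Nontrivial N := (Subgroup.nontrivial_iff_ne_bot N).2 h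
  have hd : r ∣ Nat.card N := by
    obtain ⟨n, hn0, hn⟩ := (hP.to_subgroup N).nontrivial_iff_card.mp inferInstance
    exact hn.symm ▸ dvd_pow_self _ (ne_of_gt hn0)
  have h1 : (1 : N) ∈ MulAction.fixedPoints (ConjAct X) N := fun g => smul_one g
  obtain ⟨b, hb, hb1⟩ := (hP.of_equiv ConjAct.toConjAct).exists_fixed_point_of_prime_dvd_card_of_fixed_point N hd h1
  intro hbot
  refine hb1 (Subtype.ext ?_)
  have h2 : (b : X) ∈ N ⊓ Subgroup.center X := by
    refine ⟨b.2, Subgroup.mem_center_iff.2 fun g => ?_⟩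
    have h3 := congrArg (Subtype.val) (hb (ConjAct.toConjAct g))
    rw [ConjAct.Subgroup.val_conj_smul, ConjAct.smul_def, ConjAct.ofConjAct_toConjAct] at h3
    rw [← h3]
    rw [h3]
    exact mul_inv_eq_iff_eq_mul.1 h3
  rw [hbot, Subgroup.mem_bot] at h2
  exact h2.symm

/-- the class of subgroups -/
private def naP {X : Type u} [Group X] (a : MulAut X) (A : Subgroup X) : Prop :=
  A.Normal ∧ Inv a A ∧ ∀ x ∈ A, ∀ y ∈ A, Commute x y

/-- the centraliser of a normal invariant subgroup -/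
private theorem naCent (H : Hyp p r a) (A : Subgroup X) (hAn : A.Normal) (hAi : Inv a A) :
    (∀ c, c ∈ Subgroup.centralizer (A : Set X) ↔ ∀ y ∈ A, Commute c y) ∧
      (Subgroup.centralizer (A : Set X)).Normal ∧ Inv a (Subgroup.centralizer (A : Set X)) := by
  have hmem : ∀ c, c ∈ Subgroup.centralizer (A : Set X) ↔ ∀ y ∈ A, Commute c y := by
    intro c
    rw [Subgroup.mem_centralizer_iff]
    exact ⟨fun h1 y hy => (h1 y hy).symm, fun h1 y hy => (h1 y hy).symm⟩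
  refine ⟨hmem, ⟨fun c hc g => ?_⟩, ?_⟩
  · rw [hmem] at hc ⊢
    intro y hy
    have h1 : g⁻¹ * y * g ∈ A := by
      have := hAn.conj_mem y hy g⁻¹
      rwa [inv_inv] at this
    have h2 : c * (g⁻¹ * y * g) = (g⁻¹ * y * g) * c := (hc _ h1).eq
    show g * c * g⁻¹ * y = y * (g * c * g⁻¹)
    calc g * c * g⁻¹ * y = g * (c * (g⁻¹ * y * g)) * g⁻¹ := by group
      _ = g * ((g⁻¹ * y * g) * c) * g⁻¹ := by rw [h2]
      _ = y * (g * c * g⁻¹) := by group
  · intro c hc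
    rw [hmem] at hc ⊢
    intro y hy
    have h1 : c * a⁻¹ y = a⁻¹ y * c := (hc _ (Pool.Agent.FRS.inv_symm H hAi y hy)).eq
    have h2 := congrArg a h1
    rw [map_mul, map_mul, MulAut.apply_inv_self] at h2
    exact h2

/-- the subgroup `D` -/
private theorem naD (H : Hyp p r a) (A C : Subgroup X) (hAn : A.Normal) (hAi : Inv a A) (hCn : C.Normal) (hCi : Inv a C) :
    ∃ D : Subgroup X, D.Normal ∧ Inv a D ∧ ∀ x, x ∈ D ↔ x ∈ C ∧ ∀ y ∈ C, x * y * x⁻¹ * y⁻¹ ∈ A := by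
  have key : ∀ x y : X, x * y * x⁻¹ * y⁻¹ ∈ A ↔ (QuotientGroup.mk' A y) * (QuotientGroup.mk' A x) =
      (QuotientGroup.mk' A x) * (QuotientGroup.mk' A y) := by
    intro x y
    have h1 : x * y * x⁻¹ * y⁻¹ ∈ A ↔ QuotientGroup.mk' A (x * y * x⁻¹ * y⁻¹) = 1 :=
      (QuotientGroup.eq_one_iff _).symm
    rw [h1, map_mul, map_mul, map_mul, map_inv, map_inv, mul_inv_eq_one, mul_inv_eq_iff_eq_mul]
    exact eq_comm
  have hmem : ∀ x, x ∈ C ⊓ (Subgroup.centralizer ((C.map (QuotientGroup.mk' A) : Subgroup (X ⧸ A)) : Set (X ⧸ A))).comap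
      (QuotientGroup.mk' A) ↔ x ∈ C ∧ ∀ y ∈ C, x * y * x⁻¹ * y⁻¹ ∈ A := by
    intro x
    rw [Subgroup.mem_inf, Subgroup.mem_comap, Subgroup.mem_centralizer_iff]
    refine and_congr Iff.rfl ⟨fun h y hy => ?_, ?_⟩
    · rw [key]
      exact h _ ⟨y, hy, rfl⟩
    · rintro h _ ⟨y, hy, rfl⟩
      exact (key x y).1 (h y hy)
  refine ⟨_, ⟨fun c hc g => ?_⟩, ?_, hmem⟩
  · rw [hmem] at hc ⊢
    refine ⟨hCn.conj_mem c hc.1 g, fun y hy => ?_⟩
    have h1 : g⁻¹ * y * g ∈ C := by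
      have := hCn.conj_mem y hy g⁻¹
      rwa [inv_inv] at this
    have h2 := hAn.conj_mem _ (hc.2 _ h1) g
    have h3 : g * (c * (g⁻¹ * y * g) * c⁻¹ * (g⁻¹ * y * g)⁻¹) * g⁻¹ = g * c * g⁻¹ * y * (g * c * g⁻¹)⁻¹ * y⁻¹ := by group
    rw [h3] at h2
    exact h2
  · intro c hc
    rw [hmem] at hc ⊢
    refine ⟨hCi c hc.1, fun y hy => ?_⟩
    have h1 := hAi _ (hc.2 _ (Pool.Agent.FRS.inv_symm H hCi y hy))
    rw [map_mul, map_mul, map_mul, map_inv, map_inv, MulAut.apply_inv_self] at h1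
    exact h1

/-- a normal invariant subgroup `D`, abelian modulo a normal invariant abelian subgroup `A`, with centraliser `≤ A` -/
theorem crit [Finite X] (h : Big p r) (H : Hyp p r a) : ∃ A D : Subgroup X, A.Normal ∧ Inv a A ∧
    (∀ x ∈ A, ∀ y ∈ A, Commute x y) ∧ D.Normal ∧ Inv a D ∧ A ≤ D ∧ (∀ x ∈ D, ∀ y ∈ D, x * y * x⁻¹ * y⁻¹ ∈ A) ∧
      ∀ x : X, (∀ y ∈ D, Commute x y) → x ∈ A := by
  have hfin : Finite (Subgroup X) := inferInstance
  have hne : ({B : Subgroup X | naP a B} : Set (Subgroup X)).Nonempty := by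
    refine ⟨⊥, inferInstance, ?_, ?_⟩
    · intro x hx
      rw [Subgroup.mem_bot] at hx ⊢
      rw [hx, map_one]
    · intro x hx y hy
      rw [Subgroup.mem_bot] at hx
      rw [hx]
      exact Commute.one_left y
  obtain ⟨A, hA, hmax⟩ := (Set.toFinite ({B : Subgroup X | naP a B} : Set (Subgroup X))).exists_maximal hne
  obtain ⟨hAn, hAi, hAc⟩ := hA
  obtain ⟨hCm, hCn, hCi⟩ := naCent H A hAn hAi
  obtain ⟨D, hDn, hDi, hDm⟩ := naD H A (Subgroup.centralizer (A : Set X)) hAn hAi hCn hCi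
  have hAC : ∀ x ∈ A, x ∈ Subgroup.centralizer (A : Set X) := fun x hx => (hCm x).2 fun y hy => hAc x hx y hy
  have hAD : A ≤ D := by
    intro x hx
    rw [hDm]
    refine ⟨hAC x hx, fun y hy => ?_⟩
    have h1 : Commute y x := (hCm y).1 hy x hx
    have h2 : x * y * x⁻¹ * y⁻¹ = 1 := by
      rw [← h1.eq]
      group
    rw [h2]
    exact A.one_mem
  obtain ⟨hQm, hQn, hQi⟩ := naCent H D hDn hDi
  refine ⟨A, D, hAn, hAi, hAc, hDn, hDi, hAD, fun x hx y hy => ((hDm x).1 hx).2 y ((hDm y).1 hy).1, fun x hx => ?_⟩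
  by_contra hxA
  have hint : Subgroup.centralizer (D : Set X) ⊓ D ≤ A := by
    refine hmax (y := Subgroup.centralizer (D : Set X) ⊓ D) ⟨?_, ?_, ?_⟩ ?_
    · exact ⟨fun c hc g => ⟨hQn.conj_mem c hc.1 g, hDn.conj_mem c hc.2 g⟩⟩
    · exact fun c hc => ⟨hQi c hc.1, hDi c hc.2⟩
    · exact fun c hc d hd => (hQm c).1 hc.1 d hd.2
    · intro c hc
      refine ⟨(hQm c).2 fun d hd => ?_, hAD hc⟩
      exact ((hCm d).1 ((hDm d).1 hd).1 c hc).symm
  have hQ := Pool.Agent.FRS.qt_hyp H A hAi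
  have hMn : ((Subgroup.centralizer (D : Set X)).map (QuotientGroup.mk' A)).Normal :=
    hQn.map _ (QuotientGroup.mk'_surjective A)
  have hM0 : (Subgroup.centralizer (D : Set X)).map (QuotientGroup.mk' A) ≠ ⊥ := by
    intro h0
    apply hxA
    have h1 : QuotientGroup.mk' A x ∈ (Subgroup.centralizer (D : Set X)).map (QuotientGroup.mk' A) :=
      ⟨x, (hQm x).2 hx, rfl⟩
    rw [h0, Subgroup.mem_bot] at h1
    exact (QuotientGroup.eq_one_iff x).1 h1
  have hm := naMeet (r := r) h.prime (hQ.tors : IsPGroup r (X ⧸ A)) hMn hM0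
  apply hm
  rw [Subgroup.eq_bot_iff_forall]
  rintro _ ⟨⟨q, hq, rfl⟩, hz⟩
  refine (QuotientGroup.eq_one_iff q).2 (hint ⟨hq, ?_⟩)
  refine (hDm q).2 ⟨(hCm q).2 fun y hy => (hQm q).1 hq y (hAD hy), fun y _ => ?_⟩
  have h1 := Subgroup.mem_center_iff.1 hz (QuotientGroup.mk' A y)
  refine (QuotientGroup.eq_one_iff (q * y * q⁻¹ * y⁻¹)).1 ?_
  show QuotientGroup.mk' A (q * y * q⁻¹ * y⁻¹) = 1
  rw [map_mul, map_mul, map_mul, map_inv, map_inv, ← h1, mul_inv_cancel_right, mul_inv_cancel]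

end Pool.Agent.BFS
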