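import Pool.Agent.BFS.NA

/-!
# BFS/NB: nilpotency of locally finite groups of the class

`nil_fin`: step (3) in the header of `NA`, from `crit`.  `nil_lf`: port of `FRK/GH` (`nil_lf`) with `nil_fin`, `3 * hh p`.
-/

set_option autoImplicit false

namespace Pool.Agent.BFS

open Pool.Agent.FRB (Inv LF SS)
open Pool.Agent.FRS (Hyp rs qt)
open Pool.Agent.FRK (hh ic Hc)

universe u

variable {p r : ℕ} {X : Type u} [Group X] {a : MulAut X}

private theorem nb_one {Y : Type*} [Group Y] (l : List Y) : ic (1 : Y) l = 1 := by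
  induction l with
  | nil => rfl
  | cons g l ih =>
    show ic (1 * g * 1⁻¹ * g⁻¹) l = 1
    rw [show (1 * g * 1⁻¹ * g⁻¹ : Y) = 1 by group]
    exact ih

private theorem nb_app {Y : Type*} [Group Y] (x : Y) (l l' : List Y) : ic x (l ++ l') = ic (ic x l) l' := by
  unfold ic
  rw [List.foldl_append]

theorem nil_fin [Finite X] (h : Big p r) (H : Hyp p r a) : Hc (⊤ : Subgroup X) ⊤ (3 * hh p) := by
  obtain ⟨A, D, hAn, hAi, hAc, hDn, hDi, hAD, hDA, hself⟩ := crit h H
  have hltA : Hc A ⊤ (hh p) := lt h H A hAi hAc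
  have hltD : Hc D ⊤ (2 * hh p) := by
    intro d hd l hl hlen
    have e1 : l = l.take (hh p) ++ l.drop (hh p) := (List.take_append_drop _ _).symm
    rw [e1, nb_app]
    have h1 : ic d (l.take (hh p)) ∈ A := by
      refine lt_sec h H (N := ⊤) (B := D) (C := A) (fun _ _ => Subgroup.mem_top _) hDi hAi hAD le_top ?_ ?_ hDA hd ?_ ?_
      · intro g _ b hb
        have h2 := hDn.conj_mem b hb g⁻¹
        rwa [inv_inv] at h2
      · intro g _ c hc
        have h2 := hAn.conj_mem c hc g⁻¹
        rwa [inv_inv] at h2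
      · intro g _
        exact Subgroup.mem_top g
      · rw [List.length_take, hlen]
        omega
    exact hltA _ h1 _ (fun u _ => Subgroup.mem_top u) (by rw [List.length_drop, hlen]; omega)
  have hpos : 0 < hh p := by
    unfold hh
    have := h.five
    exact Nat.pow_pos (by omega)
  obtain ⟨n, hn⟩ : ∃ n, 2 * hh p = n + 1 := ⟨2 * hh p - 1, by omega⟩
  rw [hn] at hltD
  intro g _ l _ hlen
  have e1 : l = l.take n ++ ((l.drop n).take (hh p) ++ (l.drop n).drop (hh p)) := by
    rw [List.take_append_drop, List.take_append_drop]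
  rw [e1, nb_app, nb_app]
  have h1 : ic g (l.take n) ∈ A := by
    apply hself
    intro y hy
    exact Pool.Agent.FRK.hc_cent (le_top : D ≤ ⊤) hltD (Subgroup.mem_top g) (fun u _ => Subgroup.mem_top u)
      (by rw [List.length_take, hlen]; omega) hy
  have h2 := hltA _ h1 ((l.drop n).take (hh p)) (fun u _ => Subgroup.mem_top u)
    (by rw [List.length_take, List.length_drop, hlen]; omega)
  rw [h2]
  exact nb_one _

theorem nil_lf (h : Big p r) (H : Hyp p r a) {S : Subgroup X} (hS : Inv a S) (hl : LF S) : Hc S S (3 * hh p) := by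
  have hlf := hl
  clear hl
  intro x hx l hl hlen
  -- the finite invariant subgroup generated by the orbits
  have hpow : ∀ i : ℕ, ∀ w ∈ S, (a ^ i) w ∈ S := by
    intro i
    induction i with
    | zero => intro w hw; exact hw
    | succ i ih =>
      intro w hw
      rw [pow_succ, MulAut.mul_apply]
      exact ih _ (hS w hw)
  have hmem : ∀ w ∈ x :: l, w ∈ S := by
    intro w hw
    rcases List.mem_cons.1 hw with h1 | h1
    · rw [h1]; exact hx
    · exact hl w h1
  have hfin : {z : X | ∃ i < p, ∃ w ∈ x :: l, z = (a ^ i) w}.Finite := by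
    have h1 : {z : X | ∃ i < p, ∃ w ∈ x :: l, z = (a ^ i) w} ⊆
        ⋃ i ∈ Set.Iio p, (fun w => (a ^ i) w) '' {w | w ∈ x :: l} := by
      rintro z ⟨i, hi, w, hw, rfl⟩
      exact Set.mem_biUnion (Set.mem_Iio.2 hi) ⟨w, hw, rfl⟩
    exact ((Set.finite_Iio p).biUnion fun i _ => (List.finite_toSet (x :: l)).image _).subset h1
  obtain ⟨T, hTdef⟩ : ∃ T : Subgroup X,
      T = Subgroup.closure {z : X | ∃ i < p, ∃ w ∈ x :: l, z = (a ^ i) w} := ⟨_, rfl⟩
  have hTfin : (T : Set X).Finite := by
    have h1 := hlf hfin.toFinset (by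
      intro z hz
      rw [Set.Finite.coe_toFinset] at hz
      obtain ⟨i, _, w, hw, rfl⟩ := hz
      exact hpow i w (hmem w hw))
    rw [Set.Finite.coe_toFinset, ← hTdef] at h1
    exact h1
  have hTinv : Inv a T := by
    have h1 : T ≤ T.comap (a : X →* X) := by
      conv_lhs => rw [hTdef]
      rw [Subgroup.closure_le]
      rintro z ⟨i, hi, w, hw, rfl⟩
      show a ((a ^ i) w) ∈ T
      rw [← MulAut.mul_apply, ← pow_succ', hTdef]
      rcases Nat.lt_or_ge (i + 1) p with h2 | h2
      · exact Subgroup.subset_closure ⟨i + 1, h2, w, hw, rfl⟩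
      · have h3 : i + 1 = p := le_antisymm hi h2
        rw [h3, H.powp]
        exact Subgroup.subset_closure ⟨0, H.pos, w, hw, rfl⟩
    intro z hz
    exact h1 hz
  have hTmem : ∀ w ∈ x :: l, w ∈ T := by
    intro w hw
    rw [hTdef]
    exact Subgroup.subset_closure ⟨0, H.pos, w, hw, rfl⟩
  have hTf : Finite T := hTfin.to_subtype
  have h1 := nil_fin h (Pool.Agent.FRS.rs_hyp H T hTinv)
  have hxT : x ∈ T := hTmem x (List.mem_cons_self)
  have hlT : ∀ w ∈ l, w ∈ T := fun w hw => hTmem w (List.mem_cons_of_mem _ hw)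
  have h2 := h1 ⟨x, hxT⟩ (Subgroup.mem_top _) (l.pmap (fun w hw => (⟨w, hw⟩ : T)) hlT)
    (fun g _ => Subgroup.mem_top g) (by rw [List.length_pmap]; exact hlen)
  have h3 := Pool.Agent.FRK.ic_map T.subtype ⟨x, hxT⟩ (l.pmap (fun w hw => (⟨w, hw⟩ : T)) hlT)
  rw [h2, map_one, List.map_pmap] at h3
  have h4 : List.pmap (fun w hw => T.subtype (⟨w, hw⟩ : T)) l hlT = l := by
    have h5 : List.pmap (fun w hw => T.subtype (⟨w, hw⟩ : T)) l hlT =
        List.pmap (fun w _ => w) l hlT := rfl
    rw [h5, List.pmap_eq_map, List.map_id']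
  rw [h4] at h3
  exact h3.symm

end Pool.Agent.BFS
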