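import Pool.Agent.BFS.NB

/-!
# BFS/NC: locally finite normal subgroups are hypercentral; normalisers

The same proofs as in `FRK/GH` and `FRK/GI`, with `nil_lf` and `lt_sec` of this folder: every term of the
upper central series of `S` is reached after `hh p` more commutators.
-/

set_option autoImplicit false

namespace Pool.Agent.BFS

open Pool.Agent.FRB (Inv LF SS)
open Pool.Agent.FRS (Hyp rs qt)
open Pool.Agent.FRK (hh ic Hc)

universe u

variable {p r : ℕ} {X : Type u} [Group X] {a : MulAut X}

theorem hc_nil (h : Big p r) (H : Hyp p r a) {S N : Subgroup X} (hS : Inv a S)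
    (hN : Inv a N) (hSN : S ≤ N) (nS : ∀ g ∈ N, ∀ s ∈ S, g⁻¹ * s * g ∈ S) (hl : LF S) : Hc S N (3 * hh p * hh p) := by
  have hclaim : ∀ i : ℕ, Hc (FRK.Zr S i) N (i * hh p) := by
    intro i
    induction i with
    | zero =>
      intro x hx l _ hlen
      rw [FRK.zr_zero, Subgroup.mem_bot] at hx
      rw [Nat.zero_mul] at hlen
      rw [List.length_eq_zero_iff.1 hlen, hx]
      rfl
    | succ i ih =>
      intro x hx l hlN hlen
      have h1 : l = l.take (hh p) ++ l.drop (hh p) := (List.take_append_drop _ _).symm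
      have h2 : ic x l = ic (ic x (l.take (hh p))) (l.drop (hh p)) := by
        conv_lhs => rw [h1]
        exact List.foldl_append
      have hlen' : l.length = i * hh p + hh p := by rw [hlen, Nat.succ_mul]
      have h3 : ic x (l.take (hh p)) ∈ FRK.Zr S i := by
        refine lt_sec h H hN (FRK.zr_inv H hS (i + 1)) (FRK.zr_inv H hS i) (FRK.zr_mono S i)
          ((FRK.zr_le S (i + 1)).trans hSN) (FRK.zr_norm nS (i + 1)) (FRK.zr_norm nS i) ?_ hx ?_ ?_
        · intro u hu v hv
          exact (FRK.mem_zr_succ.1 hu).2 v (FRK.zr_le S (i + 1) hv)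
        · intro g hg
          exact hlN g (List.mem_of_mem_take hg)
        · rw [List.length_take, hlen']
          exact min_eq_left (Nat.le_add_left _ _)
      rw [h2]
      refine ih _ h3 _ (fun g hg => hlN g (List.mem_of_mem_drop hg)) ?_
      rw [List.length_drop, hlen', Nat.add_sub_cancel]
  have h1 := hclaim (3 * hh p)
  rw [FRK.zr_top (nil_lf h H hS hl)] at h1
  exact h1

theorem nrm_fin (h : Big p r) (H : Hyp p r a) {D : Subgroup X} (hD : Inv a D)
    (hl : LF D) (hC : LF (Subgroup.centralizer (D : Set X))) : LF (Subgroup.normalizer (D : Set X)) := by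
  have hDN : D ≤ Subgroup.normalizer (D : Set X) := Subgroup.le_normalizer
  have nD : ∀ g ∈ Subgroup.normalizer (D : Set X), ∀ d ∈ D, g⁻¹ * d * g ∈ D := by
    intro g hg d hd
    have h1 := (Subgroup.mem_normalizer_iff.1 (Subgroup.inv_mem _ hg) d).1 hd
    rwa [inv_inv] at h1
  refine FRK.nrm_lf ?_ hDN nD (hc_nil h H hD (FRK.inv_nrm H hD) hDN nD hl) (FRB.lf_mono inf_le_right hC)
  intro x
  obtain ⟨m, hm⟩ := H.tors x
  exact ⟨r ^ m, pow_pos h.prime.pos m, hm⟩

end Pool.Agent.BFS
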