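import Pool.Agent.BFS.TA

/-!
# BFS/TB: the linear theorem for hypercentral normal abelian subgroups

By induction on `N`: it is enough to show: if `hh p ≤ N` and `Hc V ⊤ (N + 1)` then `Hc V ⊤ N` (for `N ≤ hh p` use that `Hc V ⊤ N` implies
`Hc V ⊤ (hh p)`: `ic 1 _ = 1`).  Let `V'` be the subgroup generated by the `ic v l`, `v ∈ V`, `l` of length `N - hh p`.  `V' ≤ V` (`V` is normal);
`V'` is normal (`g (ic v l) g⁻¹ = ic (g v g⁻¹) (g l g⁻¹)`), invariant (`FRK.ic_map`), commutative.  `ic w l' = 1` for `w ∈ V'` and `l'` of length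
`hh p + 1`: for a generator `ic (ic v l) l' = ic v (l ++ l') = 1`; and on the commutative normal subgroup `V` the map `w ↦ ic w l'` is a
homomorphism (`ic (w w') (g :: l) = ic ((w g w⁻¹ g⁻¹) (w' g w'⁻¹ g⁻¹)) l`).  So `lt0` gives `Hc V' ⊤ (hh p)`, so `ic v (l ++ l') = 1` for `l`, `l'` of
lengths `N - hh p`, `hh p`.
-/

set_option autoImplicit false

namespace Pool.Agent.BFS

open Pool.Agent.FRB (Inv LF SS)
open Pool.Agent.FRS (Hyp rs qt)
open Pool.Agent.FRK (hh ic Hc)

universe u

variable {p r : ℕ} {X : Type u} [Group X] {a : MulAut X}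

private theorem TB_one (l : List X) : ic (1 : X) l = 1 := by
  induction l with
  | nil => rfl
  | cons g l ih =>
    have h1 : ic (1 : X) (g :: l) = ic (1 * g * 1⁻¹ * g⁻¹) l := rfl
    rw [h1, one_mul, inv_one, mul_one, mul_inv_cancel]
    exact ih

private theorem TB_app (x : X) (l l' : List X) : ic x (l ++ l') = ic (ic x l) l' := by
  unfold ic
  exact List.foldl_append

private theorem TB_step (V : Subgroup X) [V.Normal] {x : X} (hx : x ∈ V) (g : X) : x * g * x⁻¹ * g⁻¹ ∈ V := by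
  have h1 : x * g * x⁻¹ * g⁻¹ = x * (g * x⁻¹ * g⁻¹) := by group
  rw [h1]
  exact V.mul_mem hx (Subgroup.Normal.conj_mem inferInstance _ (V.inv_mem hx) g)

private theorem TB_mem (V : Subgroup X) [V.Normal] (l : List X) : ∀ x ∈ V, ic x l ∈ V := by
  induction l with
  | nil => intro x hx; exact hx
  | cons g l ih =>
    intro x hx
    exact ih (x * g * x⁻¹ * g⁻¹) (TB_step V hx g)

private theorem TB_mul (V : Subgroup X) [V.Normal] (hc : ∀ x ∈ V, ∀ y ∈ V, Commute x y) (l : List X) :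
    ∀ x ∈ V, ∀ y ∈ V, ic (x * y) l = ic x l * ic y l := by
  induction l with
  | nil => intro x _ y _; rfl
  | cons g l ih =>
    intro x hx y hy
    have h1 : x * y * g * (x * y)⁻¹ * g⁻¹ = (x * g * x⁻¹ * g⁻¹) * (y * g * y⁻¹ * g⁻¹) := by
      have h2 : Commute (y * g * y⁻¹ * g⁻¹) (g * x⁻¹ * g⁻¹) :=
        hc _ (TB_step V hy g) _ (Subgroup.Normal.conj_mem inferInstance _ (V.inv_mem hx) g)
      calc x * y * g * (x * y)⁻¹ * g⁻¹ = x * ((y * g * y⁻¹ * g⁻¹) * (g * x⁻¹ * g⁻¹)) := by group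
        _ = x * ((g * x⁻¹ * g⁻¹) * (y * g * y⁻¹ * g⁻¹)) := by rw [h2.eq]
        _ = (x * g * x⁻¹ * g⁻¹) * (y * g * y⁻¹ * g⁻¹) := by group
    show ic (x * y * g * (x * y)⁻¹ * g⁻¹) l = _
    rw [h1]
    exact ih _ (TB_step V hx g) _ (TB_step V hy g)

private theorem TB_down (h : Big p r) (H : Hyp p r a) (V : Subgroup X) [V.Normal] (hVi : Inv a V)
    (hc : ∀ x ∈ V, ∀ y ∈ V, Commute x y) (n : ℕ) (hn : ∀ v ∈ V, v ^ (r ^ n) = 1) (m : ℕ)
    (hN : Hc V ⊤ (m + (hh p + 1))) : Hc V ⊤ (m + hh p) := by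
  let S : Set X := {w | ∃ v ∈ V, ∃ l : List X, l.length = m ∧ w = ic v l}
  have hSV : Subgroup.closure S ≤ V := by
    rw [Subgroup.closure_le]
    rintro w ⟨v, hv, l, -, rfl⟩
    exact TB_mem V l v hv
  have hmap : ∀ f : X →* X, (∀ v ∈ V, f v ∈ V) → ∀ w ∈ Subgroup.closure S, f w ∈ Subgroup.closure S := by
    intro f hf w hw
    have h1 : Subgroup.closure S ≤ (Subgroup.closure S).comap f := by
      rw [Subgroup.closure_le]
      rintro w ⟨v, hv, l, hl, rfl⟩
      show f (ic v l) ∈ Subgroup.closure S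
      rw [Pool.Agent.FRK.ic_map]
      exact Subgroup.subset_closure ⟨f v, hf v hv, l.map f, by rw [List.length_map, hl], rfl⟩
    exact h1 hw
  have hnorm : (Subgroup.closure S).Normal := by
    refine ⟨fun w hw g => ?_⟩
    have h1 := hmap (MulAut.conj g).toMonoidHom (fun v hv => by
      show g * v * g⁻¹ ∈ V
      exact Subgroup.Normal.conj_mem inferInstance v hv g) w hw
    exact h1
  have hinv : Inv a (Subgroup.closure S) := fun w hw => hmap a.toMonoidHom (fun v hv => hVi v hv) w hw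
  have hnil : ∀ x : X, ∀ v ∈ Subgroup.closure S, ic v (List.replicate (hh p + 1) x) = 1 := by
    intro x v hv
    induction hv using Subgroup.closure_induction with
    | mem w hw =>
      obtain ⟨v, hv, l, hl, rfl⟩ := hw
      rw [← TB_app]
      refine hN v hv _ (fun g _ => Subgroup.mem_top g) ?_
      rw [List.length_append, List.length_replicate, hl]
    | one => exact TB_one _
    | mul w w' hw hw' ih ih' =>
      rw [TB_mul V hc _ w (hSV hw) w' (hSV hw'), ih, ih', mul_one]
    | inv w hw ih =>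
      have h1 := TB_mul V hc (List.replicate (hh p + 1) x) w (hSV hw) w⁻¹ (V.inv_mem (hSV hw))
      rw [mul_inv_cancel, TB_one, ih, one_mul] at h1
      exact h1.symm
  have h1 : Hc (Subgroup.closure S) ⊤ (hh p) :=
    lt0 h H (Subgroup.closure S) hinv (fun x hx y hy => hc x (hSV hx) y (hSV hy)) n
      (fun v hv => hn v (hSV hv)) hnil
  intro v hv l _ hlen
  rw [← List.take_append_drop m l, TB_app]
  refine h1 _ (Subgroup.subset_closure ⟨v, hv, l.take m, ?_, rfl⟩) _ (fun g _ => Subgroup.mem_top g) ?_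
  · rw [List.length_take, hlen]
    omega
  · rw [List.length_drop, hlen]
    omega

theorem lt1 (h : Big p r) (H : Hyp p r a) (V : Subgroup X) [V.Normal] (hVi : Inv a V)
    (hc : ∀ x ∈ V, ∀ y ∈ V, Commute x y) (n : ℕ) (hn : ∀ v ∈ V, v ^ (r ^ n) = 1) (N : ℕ) (hN : Hc V ⊤ N) :
    Hc V ⊤ (hh p) := by
  have key : ∀ m : ℕ, Hc V ⊤ (m + hh p) → Hc V ⊤ (hh p) := by
    intro m
    induction m with
    | zero =>
      intro h0
      rwa [Nat.zero_add] at h0
    | succ m ih =>
      intro h0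
      have h1 : m + 1 + hh p = m + (hh p + 1) := by omega
      rw [h1] at h0
      exact ih (TB_down h H V hVi hc n hn m h0)
  rcases le_total N (hh p) with hle | hle
  · intro v hv l _ hlen
    rw [← List.take_append_drop N l, TB_app]
    have h1 : ic v (l.take N) = 1 := by
      refine hN v hv _ (fun g _ => Subgroup.mem_top g) ?_
      rw [List.length_take, hlen]
      omega
    rw [h1]
    exact TB_one _
  · refine key (N - hh p) ?_
    rwa [Nat.sub_add_cancel hle]

end Pool.Agent.BFS
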