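import Pool.Agent.BFS.TB

/-!
# BFS/TC: all elements act unipotently on normal abelian subgroups

For `v` in the normal abelian subgroup `V` and any `x` the subgroup generated by the orbits of `v` and `x` is invariant and finite, hence a
finite `r`-group, hence nilpotent; so the linear theorem `lt1` applies to it and to its intersection with `V`.
-/

set_option autoImplicit false

namespace Pool.Agent.BFS

open Pool.Agent.FRB (Inv LF SS)
open Pool.Agent.FRS (Hyp rs qt)
open Pool.Agent.FRK (hh ic Hc)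

universe u

variable {p r : ℕ} {X : Type u} [Group X] {a : MulAut X}

private theorem TC_lf_fin {S : Subgroup X} (hS : (S : Set X).Finite) : LF S :=
  fun _ hs => hS.subset ((Subgroup.closure_le S).2 hs)

private theorem TC_inv_sup {S T : Subgroup X} (hS : Inv a S) (hT : Inv a T) : Inv a (S ⊔ T) := by
  have h1 : S ⊔ T ≤ (S ⊔ T).comap (a : X →* X) := by
    refine sup_le ?_ ?_
    · intro x hx
      exact (le_sup_left : S ≤ S ⊔ T) (hS x hx)
    · intro x hx
      exact (le_sup_right : T ≤ S ⊔ T) (hT x hx)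
  intro x hx
  exact h1 hx

private theorem TC_kk_le {V : Subgroup X} (hVi : Inv a V) {v : X} (hv : v ∈ V) : KK a v ≤ V := by
  refine (Subgroup.closure_le V).2 ?_
  rintro _ ⟨n, rfl⟩
  show (a ^ n) v ∈ V
  induction n with
  | zero => simpa using hv
  | succ n ih =>
    rw [pow_succ', MulAut.mul_apply]
    exact hVi _ ih

private theorem TC_mem_kk (a : MulAut X) (x : X) : x ∈ KK a x :=
  Subgroup.subset_closure ⟨0, by simp⟩

theorem pair_fin (h : Big p r) (H : Hyp p r a) (V : Subgroup X) [V.Normal] (hVi : Inv a V)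
    (hc : ∀ x ∈ V, ∀ y ∈ V, Commute x y) {v : X} (hv : v ∈ V) (x : X) :
    ((KK a v ⊔ KK a x : Subgroup X) : Set X).Finite := by
  classical
  have hV : LF V := FRB.lf_comm hc fun y _ => by
    obtain ⟨n, hn⟩ := H.tors y
    exact ⟨r ^ n, pow_pos h.prime.pos n, hn⟩
  have hx : (KK a x : Set X).Finite := H.orb x
  have hvf : (KK a v : Set X).Finite := H.orb v
  have h1 : LF (V ⊔ KK a x) := FRB.lf_sup hV (TC_lf_fin hx) fun t _ s hs => by
    have h3 := Subgroup.Normal.conj_mem (inferInstance : V.Normal) s hs t⁻¹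
    rwa [inv_inv] at h3
  have h2 := h1 (hvf.union hx).toFinset (by
    rw [Set.Finite.coe_toFinset]
    rintro z (hz | hz)
    · exact (le_sup_left : V ≤ V ⊔ KK a x) (TC_kk_le hVi hv hz)
    · exact (le_sup_right : KK a x ≤ V ⊔ KK a x) hz)
  rw [Set.Finite.coe_toFinset] at h2
  rw [Subgroup.sup_eq_closure]
  exact h2

theorem lt2 (h : Big p r) (H : Hyp p r a) (V : Subgroup X) [V.Normal] (hVi : Inv a V)
    (hc : ∀ x ∈ V, ∀ y ∈ V, Commute x y) {v : X} (hv : v ∈ V) (x : X) : ic v (List.replicate (hh p) x) = 1 := by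
  have hPf : ((KK a v ⊔ KK a x : Subgroup X) : Set X).Finite := pair_fin h H V hVi hc hv x
  have hPi : Inv a (KK a v ⊔ KK a x) := TC_inv_sup (FRS.inv_orb a v) (FRS.inv_orb a x)
  generalize hP : (KK a v ⊔ KK a x : Subgroup X) = P at hPf hPi
  have hvP : v ∈ P := by
    rw [← hP]
    exact (le_sup_left : KK a v ≤ KK a v ⊔ KK a x) (TC_mem_kk a v)
  have hxP : x ∈ P := by
    rw [← hP]
    exact (le_sup_right : KK a x ≤ KK a v ⊔ KK a x) (TC_mem_kk a x)
  have hfin : Finite P := hPf
  have hr : Fact r.Prime := ⟨h.prime⟩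
  have hpg : IsPGroup r P := fun g => by
    obtain ⟨n, hn⟩ := H.tors (g : X)
    exact ⟨n, Subtype.ext hn⟩
  have hnil : Group.IsNilpotent P := hpg.isNilpotent
  obtain ⟨N, hN⟩ := hnil.nilpotent
  obtain ⟨n, hn⟩ := hpg.exists_card_eq
  have hHc : Hc (V.subgroupOf P) (⊤ : Subgroup P) N := by
    intro y _ l _ hl
    refine (FRK.mem_ucs_iff N y).1 ?_ l hl
    rw [hN]
    exact Subgroup.mem_top y
  have key := lt1 h (FRS.rs_hyp H P hPi) (V.subgroupOf P) (FRS.inv_subgroupOf H P hPi hVi)
    (fun y hy z hz => Subtype.ext (hc _ hy _ hz)) n (fun y _ => by rw [← hn]; exact pow_card_eq_one') N hHc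
  have h1 := key ⟨v, hvP⟩ hv (List.replicate (hh p) ⟨x, hxP⟩) (fun g _ => Subgroup.mem_top g) List.length_replicate
  have h2 := congrArg P.subtype h1
  rw [FRK.ic_map, List.map_replicate, map_one] at h2
  exact h2

end Pool.Agent.BFS
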