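import Pool.Agent.BFS.Defs

/-! # BFS/UA: consequences of `Big`: units modulo `r ^ n` -/

set_option autoImplicit false

namespace Pool.Agent.BFS

open Pool.Agent.FRK (hh)

variable {p r : ℕ}

theorem Big.hpos (h : Big p r) : 0 < hh p := by
  unfold hh
  have := h.five
  exact Nat.pow_pos (by omega)

theorem Big.lt (h : Big p r) : p < r := by
  have h1 : p - 1 ≤ hh p := by
    unfold hh
    have h2 : 1 ≤ 2 ^ (p - 1) - 1 := by
      have h3 : 2 ^ 1 ≤ 2 ^ (p - 1) := Nat.pow_le_pow_right (by norm_num) (by have := h.five; omega)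
      omega
    calc p - 1 = (p - 1) ^ 1 := (pow_one _).symm
      _ ≤ (p - 1) ^ (2 ^ (p - 1) - 1) := Nat.pow_le_pow_right (by have := h.five; omega) h2
  have h2 := h.big
  have h3 := h.five
  have h4 : (p - 1) * (p + 1) ≤ hh p * (p + 1) := Nat.mul_le_mul_right _ h1
  have h5 : 2 * p < (p - 1) * (p + 1) := by
    obtain ⟨q, rfl⟩ : ∃ q, p = q + 1 := ⟨p - 1, by omega⟩
    simp only [Nat.add_sub_cancel]
    nlinarith
  omega

theorem Big.two (h : Big p r) : 2 * hh p < r := by
  have h2 := h.big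
  have h3 := h.five
  have h4 : hh p * 6 ≤ hh p * (p + 1) := Nat.mul_le_mul_left _ (by omega)
  omega

theorem Big.half (h : Big p r) : ((p - 1) / 2 + 1) * hh p < r := by
  have h2 := h.big
  have h4 : 2 * ((p - 1) / 2 + 1) ≤ p + 1 := by
    have := h.five
    omega
  have h5 : 2 * ((p - 1) / 2 + 1) * hh p ≤ (p + 1) * hh p := Nat.mul_le_mul_right _ h4
  have h6 : (p + 1) * hh p = hh p * (p + 1) := mul_comm _ _
  have h7 : 2 * ((p - 1) / 2 + 1) * hh p = 2 * (((p - 1) / 2 + 1) * hh p) := mul_assoc _ _ _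
  omega

theorem unit_nat (h : Big p r) (n : ℕ) {m : ℕ} (h0 : 0 < m) (hm : m < r) : IsUnit (m : ZMod (r ^ n)) := by
  rw [ZMod.isUnit_iff_coprime]
  exact Nat.Coprime.pow_right n (Nat.Coprime.symm ((Nat.Prime.coprime_iff_not_dvd h.prime).2 fun hd =>
    absurd (Nat.le_of_dvd h0 hd) (by omega)))

theorem odd_p (h : Big p r) : 2 * ((p - 1) / 2) + 1 = p := by
  have h1 := h.pp.eq_one_or_self_of_dvd 2
  have h2 := h.five
  have h3 : p % 2 = 1 := by
    rcases Nat.mod_two_eq_zero_or_one p with h | h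
    · rcases h1 (Nat.dvd_of_mod_eq_zero h) with h4 | h4 <;> omega
    · exact h
  omega

end Pool.Agent.BFS
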